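import Pool.Agent.W_79d227_h9.Defs

/-!
# Triangle-free graphs with small independent sets, from the polarity of the affine plane
(stated for the complement)
-/

set_option autoImplicit false

namespace Pool.Agent.W_79d227_h9

/-- Twice the number of the non-squares is `p - 1`. -/
theorem polar_nonsq (p : ℕ) [Fact p.Prime] (hp : p ≠ 2) :
    2 * Nat.card {x : ZMod p // ¬ IsSquare x} = p - 1 := by
  classical
  have hchar : ringChar (ZMod p) ≠ 2 := by
    rw [ZMod.ringChar_zmod_n]
    exact hp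
  have h0 := quadraticChar_sum_zero (F := ZMod p) hchar
  have h1 : ∀ a : ZMod p, (quadraticChar (ZMod p) a) ^ 2 - quadraticChar (ZMod p) a =
      2 * (if ¬ IsSquare a then (1 : ℤ) else 0) := by
    intro a
    by_cases ha : IsSquare a
    · rw [if_neg (not_not.2 ha)]
      by_cases h2 : a = 0
      · rw [h2]
        simp
      · rw [(quadraticChar_one_iff_isSquare h2).2 ha]
        norm_num
    · rw [if_pos ha, quadraticChar_neg_one_iff_not_isSquare.2 ha]
      norm_num
  have h2 : ∀ a : ZMod p, (quadraticChar (ZMod p) a) ^ 2 = 1 - (if a = 0 then (1 : ℤ) else 0) := by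
    intro a
    by_cases h : a = 0
    · rw [h]
      simp
    · rw [quadraticChar_sq_one h, if_neg h]
      norm_num
  have h3 : ∑ a : ZMod p, 2 * (if ¬ IsSquare a then (1 : ℤ) else 0) = (p : ℤ) - 1 := by
    rw [← Finset.sum_congr rfl fun a _ => h1 a, Finset.sum_sub_distrib, h0, sub_zero,
      Finset.sum_congr rfl fun a _ => h2 a, Finset.sum_sub_distrib, Finset.sum_const,
      Finset.card_univ, ZMod.card, Finset.sum_ite_eq' Finset.univ (0 : ZMod p),
      if_pos (Finset.mem_univ _), nsmul_eq_mul, mul_one]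
  rw [← Finset.mul_sum, Finset.sum_boole] at h3
  have h4 : Nat.card {x : ZMod p // ¬ IsSquare x} =
      (Finset.univ.filter fun x : ZMod p => ¬ IsSquare x).card := by
    rw [Nat.card_eq_fintype_card, Fintype.card_subtype]
  rw [h4]
  have h5 := (Fact.out : p.Prime).one_lt
  push_cast at h3
  omega

/-- The number of the points. -/
theorem polar_card (p : ℕ) [Fact p.Prime] (hp : p ≠ 2) :
    2 * Nat.card {v : ZMod p × ZMod p // ¬ IsSquare (2 * v.2 - v.1 ^ 2)} = p * (p - 1) := by
  classical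
  have h2 : (2 : ZMod p) ≠ 0 := by
    intro h
    have h1 : ((2 : ℕ) : ZMod p) = 0 := by exact_mod_cast h
    rw [ZMod.natCast_eq_zero_iff] at h1
    exact hp ((Nat.prime_dvd_prime_iff_eq Fact.out Nat.prime_two).1 h1)
  let e : {v : ZMod p × ZMod p // ¬ IsSquare (2 * v.2 - v.1 ^ 2)} ≃
      ZMod p × {x : ZMod p // ¬ IsSquare x} :=
    { toFun := fun v => (v.1.1, ⟨2 * v.1.2 - v.1.1 ^ 2, v.2⟩)
      invFun := fun w => ⟨(w.1, (w.2.1 + w.1 ^ 2) / 2), by
        have h3 : 2 * ((w.2.1 + w.1 ^ 2) / 2) - w.1 ^ 2 = w.2.1 := by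
          field_simp
          ring
        change ¬ IsSquare (2 * ((w.2.1 + w.1 ^ 2) / 2) - w.1 ^ 2)
        rw [h3]
        exact w.2.2⟩
      left_inv := fun v => by
        apply Subtype.ext
        apply Prod.ext
        · rfl
        · change (2 * v.1.2 - v.1.1 ^ 2 + v.1.1 ^ 2) / 2 = v.1.2
          field_simp
          ring
      right_inv := fun w => by
        apply Prod.ext
        · rfl
        · apply Subtype.ext
          change 2 * ((w.2.1 + w.1 ^ 2) / 2) - w.1 ^ 2 = w.2.1
          field_simp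
          ring }
  rw [Nat.card_congr e, Nat.card_prod, Nat.card_zmod]
  have h3 := polar_nonsq p hp
  rw [← h3]
  ring

/-- No triangle. -/
theorem polar_tri (p : ℕ) [Fact p.Prime] (a b c d e f : ZMod p)
    (h1 : ¬ IsSquare (2 * b - a ^ 2)) (h2 : ¬ IsSquare (2 * d - c ^ 2))
    (h3 : ¬ IsSquare (2 * f - e ^ 2)) (h4 : b + d = a * c) (h5 : d + f = c * e)
    (h6 : b + f = a * e) : False := by
  classical
  have k1 := quadraticChar_neg_one_iff_not_isSquare.2 h1
  have k2 := quadraticChar_neg_one_iff_not_isSquare.2 h2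
  have k3 := quadraticChar_neg_one_iff_not_isSquare.2 h3
  have e1 : 2 * b - a ^ 2 = -((a - c) * (a - e)) := by linear_combination h4 + h6 - h5
  have e2 : 2 * d - c ^ 2 = -((c - a) * (c - e)) := by linear_combination h4 + h5 - h6
  have e3 : 2 * f - e ^ 2 = -((e - a) * (e - c)) := by linear_combination h5 + h6 - h4
  have e4 : (2 * b - a ^ 2) * (2 * d - c ^ 2) * (2 * f - e ^ 2) =
      ((a - c) * (c - e) * (a - e)) ^ 2 := by
    rw [e1, e2, e3]
    ring
  have e5 := congrArg (quadraticChar (ZMod p)) e4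
  rw [map_mul, map_mul, k1, k2, k3, map_pow] at e5
  have e6 := sq_nonneg (quadraticChar (ZMod p) ((a - c) * (c - e) * (a - e)))
  rw [← e5] at e6
  norm_num at e6

/-- Independent sets of the polarity graph. -/
theorem polar_indep (p : ℕ) [Fact p.Prime] (Q : Finset (ZMod p × ZMod p))
    (hQ : ∀ u ∈ Q, ∀ v ∈ Q, u.2 + v.2 ≠ u.1 * v.1) : Q.card ^ 2 ≤ p ^ 3 := by
  classical
  rcases Nat.eq_zero_or_pos Q.card with h0 | hpos
  · rw [h0]
    exact Nat.zero_le _
  set q : ℤ := (Q.card : ℤ) with hq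
  have hq0 : 0 < q := by
    rw [hq]
    exact_mod_cast hpos
  set I : ZMod p × ZMod p → ZMod p × ZMod p → ℤ := fun v u =>
    if v.2 + u.2 = v.1 * u.1 then 1 else 0 with hI
  set D : ZMod p × ZMod p → ℤ := fun u => ∑ v ∈ Q, I v u with hD
  have hI1 : ∀ v, ∑ u, I v u = p := by
    intro v
    rw [Fintype.sum_prod_type]
    have h1 : ∀ c : ZMod p, ∑ d : ZMod p, I v (c, d) = 1 := by
      intro c
      have h2 : ∀ d : ZMod p, I v (c, d) = if d = v.1 * c - v.2 then 1 else 0 := by
        intro d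
        simp only [hI]
        congr 1
        exact propext ⟨fun h => by linear_combination h, fun h => by linear_combination h⟩
      rw [Finset.sum_congr rfl fun d _ => h2 d, Finset.sum_ite_eq' Finset.univ,
        if_pos (Finset.mem_univ _)]
    rw [Finset.sum_congr rfl fun c _ => h1 c, Finset.sum_const, Finset.card_univ, ZMod.card,
      nsmul_eq_mul, mul_one]
  have hI2 : ∀ v v' : ZMod p × ZMod p, v ≠ v' → ∑ u, I v u * I v' u ≤ 1 := by
    intro v v' hne
    have h1 : ∀ u, I v u * I v' u =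
        if (v.2 + u.2 = v.1 * u.1 ∧ v'.2 + u.2 = v'.1 * u.1) then (1 : ℤ) else 0 := by
      intro u
      simp only [hI]
      by_cases h2 : v.2 + u.2 = v.1 * u.1
      · by_cases h3 : v'.2 + u.2 = v'.1 * u.1
        · rw [if_pos h2, if_pos h3, if_pos ⟨h2, h3⟩, mul_one]
        · rw [if_neg h3, mul_zero, if_neg fun h => h3 h.2]
      · rw [if_neg h2, zero_mul, if_neg fun h => h2 h.1]
    rw [Finset.sum_congr rfl fun u _ => h1 u, Finset.sum_boole]
    have h2 : (Finset.univ.filter fun u : ZMod p × ZMod p =>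
        v.2 + u.2 = v.1 * u.1 ∧ v'.2 + u.2 = v'.1 * u.1).card ≤ 1 := by
      rw [Finset.card_le_one]
      intro u hu w hw
      simp only [Finset.mem_filter, Finset.mem_univ, true_and] at hu hw
      have h3 : v.1 ≠ v'.1 := by
        intro h
        apply hne
        refine Prod.ext h ?_
        have h4 := hu.1
        have h5 := hu.2
        rw [h] at h4
        linear_combination h4 - h5
      have h4 : (v.1 - v'.1) * (u.1 - w.1) = 0 := by
        linear_combination hu.2 - hu.1 + hw.1 - hw.2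
      have h5 : u.1 = w.1 := by
        rcases mul_eq_zero.1 h4 with h | h
        · exact absurd (sub_eq_zero.1 h) h3
        · exact sub_eq_zero.1 h
      refine Prod.ext h5 ?_
      have h6 := hu.1
      have h7 := hw.1
      rw [h5] at h6
      linear_combination h6 - h7
    exact_mod_cast h2
  have hsum1 : ∑ u, D u = p * q := by
    simp only [hD]
    rw [Finset.sum_comm, Finset.sum_congr rfl fun v _ => hI1 v, Finset.sum_const, nsmul_eq_mul]
    ring
  have hI3 : ∀ v, ∑ u, I v u * I v u = p := by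
    intro v
    rw [← hI1 v]
    refine Finset.sum_congr rfl fun u _ => ?_
    simp only [hI]
    split_ifs <;> norm_num
  have hsum2 : ∑ u, D u ^ 2 ≤ p * q + q ^ 2 := by
    have h1 : ∀ u, D u ^ 2 = ∑ v ∈ Q, ∑ v' ∈ Q, I v u * I v' u := by
      intro u
      rw [sq]
      simp only [hD]
      rw [Finset.sum_mul_sum]
    rw [Finset.sum_congr rfl fun u _ => h1 u, Finset.sum_comm]
    have h2 : ∀ v ∈ Q, ∑ u, ∑ v' ∈ Q, I v u * I v' u ≤ p + q := by
      intro v hv
      rw [Finset.sum_comm]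
      have h3 : ∀ v' ∈ Q, ∑ u, I v u * I v' u ≤ (if v = v' then (p : ℤ) else 0) + 1 := by
        intro v' _
        by_cases h : v = v'
        · rw [if_pos h, ← h, hI3]
          linarith
        · rw [if_neg h, zero_add]
          exact hI2 v v' h
      refine (Finset.sum_le_sum h3).trans ?_
      rw [Finset.sum_add_distrib, Finset.sum_ite_eq Q v, if_pos hv, Finset.sum_const,
        nsmul_eq_mul, mul_one]
    refine (Finset.sum_le_sum h2).trans ?_
    rw [Finset.sum_const, nsmul_eq_mul]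
    exact le_of_eq (by ring)
  have hzero : ∀ u ∈ Q, D u = 0 := by
    intro u hu
    refine Finset.sum_eq_zero fun v hv => ?_
    simp only [hI]
    exact if_neg (hQ v hv u hu)
  have hcompl : ∑ u ∈ Qᶜ, D u = p * q := by
    rw [← hsum1, ← Finset.sum_compl_add_sum Q D, Finset.sum_eq_zero hzero, add_zero]
  have hcs := sq_sum_le_card_mul_sum_sq (s := Qᶜ) (f := D)
  have hcard : ((Qᶜ).card : ℤ) = p ^ 2 - q := by
    rw [Finset.card_compl, Fintype.card_prod, ZMod.card, Nat.cast_sub]
    · push_cast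
      ring
    · have := Finset.card_le_univ Q
      rwa [Fintype.card_prod, ZMod.card] at this
  have hle : ∑ u ∈ Qᶜ, D u ^ 2 ≤ ∑ u, D u ^ 2 :=
    Finset.sum_le_sum_of_subset_of_nonneg (Finset.subset_univ _) fun u _ _ => sq_nonneg _
  have hnn : (0 : ℤ) ≤ p ^ 2 - q := by
    rw [← hcard]
    exact Int.natCast_nonneg _
  rw [hcompl, hcard] at hcs
  have h1 : ((p : ℤ) * q) ^ 2 ≤ (p ^ 2 - q) * (p * q + q ^ 2) :=
    hcs.trans (mul_le_mul_of_nonneg_left (hle.trans hsum2) hnn)
  have h2 : q * (p ^ 2 * q) ≤ q * ((p ^ 2 - q) * (p + q)) := by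
    calc q * (p ^ 2 * q) = ((p : ℤ) * q) ^ 2 := by ring
      _ ≤ (p ^ 2 - q) * (p * q + q ^ 2) := h1
      _ = q * ((p ^ 2 - q) * (p + q)) := by ring
  have h3 := le_of_mul_le_mul_left h2 hq0
  have h4 : q ^ 2 ≤ (p : ℤ) ^ 3 := by
    have h5 : (0 : ℤ) ≤ p * q := mul_nonneg (Int.natCast_nonneg _) hq0.le
    nlinarith
  rw [hq] at h4
  exact_mod_cast h4

/-- PROOF. `F := ZMod p`. `V := {v : F × F // ¬ IsSquare (2 * v.2 - v.1 ^ 2)}`. `T` is the relation
`(a, b) ~ (c, d) ↔ b + d = a * c` (symmetric; never holds for `(a, b) = (c, d)` in `V`, since then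
`2 b - a ^ 2 = 0` is a square). `G := complement of T`: `G.Adj u v ↔ u ≠ v ∧ ¬ T u v`.
(1) CARD: for each `a` the map `b ↦ 2 b - a ^ 2` is a bijection of `F` and `F` has
`(p - 1) / 2` non-squares (e.g. from `ZMod.euler_criterion` / `quadraticChar_sum_zero`).
(2) `AlphaLE G 2` (`T` has no triangle): if `b + d = a c`, `d + f = c e`, `b + f = a e`, then
`2 b - a ^ 2 = -(a - c)(a - e)`, `2 d - c ^ 2 = -(c - a)(c - e)`, `2 f - e ^ 2 = -(e - a)(e - c)`,
so the product of the three is `((a - c)(c - e)(a - e)) ^ 2`, a square, while a product of three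
non-squares of `ZMod p` is a non-square (use `quadraticChar` multiplicative with value `-1`).
An independent set of `G` with three elements is a triangle of `T`.
(3) A clique `Q` of `G` is an independent set of `T`. For `u = (c, d) ∈ F × F` let
`deg u := #{(a, b) ∈ Q | b + d = a c}`. `∑ u, deg u = p * #Q`; `∑ u, deg u ^ 2 ≤ p * #Q + #Q ^ 2`
(two different `(a, b)`, `(a', b')` have at most one common `(c, d)`: `(a - a') c = b - b'`);
`deg u = 0` for `u ∈ Q`. Cauchy-Schwarz over `u ∉ Q`:
`(p #Q) ^ 2 ≤ (p ^ 2 - #Q) (p #Q + #Q ^ 2)`, which gives `#Q ^ 2 + p #Q ≤ p ^ 3`. -/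
theorem exists_polar (p : ℕ) [Fact p.Prime] (hp : p ≠ 2) :
    ∃ (V : Type) (_ : Fintype V) (G : SimpleGraph V), AlphaLE G 2 ∧
      2 * Fintype.card V = p * (p - 1) ∧
      ∀ Q : Finset V, (∀ a ∈ Q, ∀ b ∈ Q, a ≠ b → G.Adj a b) → Q.card ^ 2 ≤ p ^ 3 := by
  classical
  let V : Type := {v : ZMod p × ZMod p // ¬ IsSquare (2 * v.2 - v.1 ^ 2)}
  let G : SimpleGraph V :=
    { Adj := fun u v => u ≠ v ∧ ¬ (u.1.2 + v.1.2 = u.1.1 * v.1.1)
      symm := ⟨fun u v h => ⟨h.1.symm, fun h' => h.2 (by rw [add_comm, h', mul_comm])⟩⟩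
      loopless := ⟨fun u h => h.1 rfl⟩ }
  have hself : ∀ u : V, u.1.2 + u.1.2 ≠ u.1.1 * u.1.1 := by
    intro u h
    apply u.2
    have : 2 * u.1.2 - u.1.1 ^ 2 = 0 := by linear_combination h
    rw [this]
    exact IsSquare.zero
  refine ⟨V, inferInstance, G, ?_, ?_, ?_⟩
  · intro T hT
    by_contra hcard
    push Not at hcard
    obtain ⟨u, hu, v, hv, w, hw, huv, huw, hvw⟩ := Finset.two_lt_card.1 hcard
    have hadj : ∀ x ∈ T, ∀ y ∈ T, x ≠ y → x.1.2 + y.1.2 = x.1.1 * y.1.1 := by
      intro x hx y hy hxy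
      by_contra hne
      exact hT x hx y hy hxy ⟨hxy, hne⟩
    exact polar_tri p _ _ _ _ _ _ u.2 v.2 w.2 (hadj u hu v hv huv) (hadj v hv w hw hvw)
      (hadj u hu w hw huw)
  · rw [← Nat.card_eq_fintype_card]
    exact polar_card p hp
  · intro Q hQ
    have h1 := polar_indep p (Q.map (Function.Embedding.subtype _)) (by
      intro u hu v hv
      rw [Finset.mem_map] at hu hv
      obtain ⟨u, hu, rfl⟩ := hu
      obtain ⟨v, hv, rfl⟩ := hv
      by_cases huv : u = v
      · rw [huv]
        exact hself v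
      · exact (hQ u hu v hv huv).2)
    rwa [Finset.card_map] at h1

end Pool.Agent.W_79d227_h9
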