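import Pool.Agent.W_79d227_h9.Rigid
import Pool.Agent.W_79d227_h9.Polar

/-!
# No submultiplicative bound is bounded by a function of the independence number
-/

set_option autoImplicit false

namespace Pool.Agent.W_79d227_h9

theorem AlphaLE.le {V : Type} {G : SimpleGraph V} {k l : ℕ} (h : AlphaLE G k) (hkl : k ≤ l) :
    AlphaLE G l := fun T hT => (h T hT).trans hkl

/-- **one graph against all submultiplicative bounds which are at most `C` on graphs with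
independence number two**, strong form -/
theorem univ_barrier_strong (C B : ℝ) (hC : 1 ≤ C) :
    ∃ (V : Type) (_ : Fintype V) (G : SimpleGraph V) (k : ℕ), (k : ℝ) ≤ 20000 * C ^ 4 ∧
      AlphaLE G k ∧ ∀ f : ∀ (V : Type) [Fintype V], SimpleGraph V → ℝ, SubmultBound f →
        (∀ (W : Type) [Fintype W] (G' : SimpleGraph W), AlphaLE G' 2 →
          ∃ (A : Type) (_ : Fintype A) (H : SimpleGraph A), GLe G' H ∧ f A H ≤ C) →
        ∀ (W : Type) [Fintype W] (H : SimpleGraph W), GLe G H → B < f W H := by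
  classical
  set m := ⌈81 * C ^ 2⌉₊ with hm
  have hC2 : 1 ≤ C ^ 2 := one_le_pow₀ hC
  have hm1 : 81 * C ^ 2 ≤ m := Nat.le_ceil _
  have hm2 : (m : ℝ) < 81 * C ^ 2 + 1 := Nat.ceil_lt_add_one (by positivity)
  have hm0 : m ≠ 0 := by
    intro h
    rw [h] at hm1
    norm_num at hm1
    linarith
  obtain ⟨p, hp, hmp, hp2m⟩ := Nat.exists_prime_lt_and_le_two_mul m hm0
  haveI : Fact p.Prime := ⟨hp⟩
  have hmpR : (m : ℝ) < p := by exact_mod_cast hmp
  have hp2mR : (p : ℝ) ≤ 2 * m := by exact_mod_cast hp2m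
  have hp81 : (81 : ℝ) < p := by nlinarith
  have hp2 : p ≠ 2 := by
    rintro rfl
    norm_num at hp81
  obtain ⟨V, iV, G, hG2, hcard, hQ⟩ := exists_polar p hp2
  set t := Fintype.card V with ht
  set S0 := Nat.sqrt (p ^ 3) with hS0
  have hp1 : 1 ≤ p := hp.one_le
  have htR : 2 * (t : ℝ) = p * (p - 1) := by
    have : ((2 * t : ℕ) : ℝ) = ((p * (p - 1) : ℕ) : ℝ) := by rw [hcard]
    push_cast [Nat.cast_sub hp1] at this
    exact this
  have ht0 : 0 < (t : ℝ) := by nlinarith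
  have ht1 : 1 ≤ t := by exact_mod_cast ht0
  have hS0pos : 0 < S0 := Nat.sqrt_pos.2 (by positivity)
  have hS0R : (0 : ℝ) < S0 := by exact_mod_cast hS0pos
  have hS0sq : (S0 : ℝ) ^ 2 ≤ p ^ 3 := by
    have := Nat.sqrt_le' (p ^ 3)
    rw [← hS0] at this
    exact_mod_cast this
  set X : ℝ := ∑ _v : V, (1 : ℝ) / S0 with hX
  have hXval : X = t / S0 := by
    rw [hX, Finset.sum_const, Finset.card_univ, nsmul_eq_mul, ← ht, mul_one_div]
  have hX4 : 4 * C ≤ X := by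
    rw [hXval, le_div_iff₀ hS0R]
    have h1 : (4 * C * S0) ^ 2 ≤ (t : ℝ) ^ 2 := by
      have e1 : (4 * C * (S0 : ℝ)) ^ 2 = 16 * C ^ 2 * (S0 : ℝ) ^ 2 := by ring
      have e2 : (t : ℝ) ^ 2 = (p * (p - 1)) ^ 2 / 4 := by rw [← htR]; ring
      rw [e1, e2]
      have e3 : 16 * C ^ 2 * (S0 : ℝ) ^ 2 ≤ 16 * C ^ 2 * (p : ℝ) ^ 3 :=
        mul_le_mul_of_nonneg_left hS0sq (by positivity)
      have e4 : 64 * C ^ 2 * (p : ℝ) ≤ (p - 1) ^ 2 := by
        have a1 : 81 * C ^ 2 ≤ p := by linarith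
        nlinarith
      have e5 : 16 * C ^ 2 * (p : ℝ) ^ 3 ≤ (p * (p - 1)) ^ 2 / 4 := by
        have a2 : (0 : ℝ) ≤ (p : ℝ) ^ 2 := by positivity
        nlinarith [mul_le_mul_of_nonneg_left e4 a2]
      linarith
    exact le_of_sq_le_sq h1 ht0.le
  obtain ⟨n, hn⟩ := pow_unbounded_of_one_lt (B + 1) (one_lt_two : (1 : ℝ) < 2)
  have hC0 : 0 < C := by linarith
  set N := ⌈(2 * C) ^ n⌉₊ - 1 with hN
  have hc1 : 1 ≤ ⌈(2 * C) ^ n⌉₊ := Nat.one_le_ceil_iff.2 (pow_pos (by linarith) n)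
  have hN1 : (N : ℝ) = ⌈(2 * C) ^ n⌉₊ - 1 := by
    rw [hN]
    push_cast [Nat.cast_sub hc1]
    ring
  have hN2 : (N : ℝ) < (2 * C) ^ n := by
    have := Nat.ceil_lt_add_one (pow_pos (show (0 : ℝ) < 2 * C by linarith) n).le
    rw [hN1]
    linarith
  have hN3 : (2 * C) ^ n - 1 ≤ N := by
    have := Nat.le_ceil ((2 * C) ^ n)
    rw [hN1]
    linarith
  have hXpos : 0 < X := by linarith
  have hcond : (N : ℝ) ^ t * 2 ^ (t * n) < X ^ (n * t) := by
    have e1 : (N : ℝ) ^ t * 2 ^ (t * n) = ((N : ℝ) * 2 ^ n) ^ t := by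
      rw [mul_pow, ← pow_mul, mul_comm t n]
    rw [e1, pow_mul]
    apply pow_lt_pow_left₀ _ (by positivity) (by omega)
    calc (N : ℝ) * 2 ^ n < (2 * C) ^ n * 2 ^ n := mul_lt_mul_of_pos_right hN2 (by positivity)
      _ = (4 * C) ^ n := by rw [← mul_pow]; ring_nf
      _ ≤ X ^ n := pow_le_pow_left₀ (by linarith) hX4 n
  obtain ⟨G₀, hG₀, hle⟩ := exists_aux G (fun _ => (1 : ℝ) / S0) (fun _ => by positivity) (by
    intro Q hQc
    rw [Finset.sum_const, nsmul_eq_mul, mul_one_div, div_le_one hS0R]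
    have : Q.card ≤ S0 := Nat.le_sqrt'.2 (hQ Q hQc)
    exact_mod_cast this) hXpos N n t ht1 hcond
  refine ⟨Fin N, inferInstance, G₀, t - 1, ?_, hG₀, ?_⟩
  · have h1 : ((t - 1 : ℕ) : ℝ) ≤ t := by exact_mod_cast Nat.sub_le t 1
    refine h1.trans ?_
    have h2 : (p : ℝ) ≤ 164 * C ^ 2 := by linarith
    have h3 : (p : ℝ) ^ 2 ≤ (164 * C ^ 2) ^ 2 := pow_le_pow_left₀ (by linarith) h2 2
    nlinarith
  · intro f hf hbd W _ H hH
    obtain ⟨A, iA, H₁, hH₁, hfH₁⟩ := hbd V G hG2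
    have h5 := hf.le_of_aux hle hH hH₁
    have h6 : (N : ℝ) ≤ f W H * C ^ n := by
      refine h5.trans ?_
      exact mul_le_mul_of_nonneg_left (pow_le_pow_left₀ (hf.nonneg A H₁) hfH₁ n) (hf.nonneg W H)
    have h7 : (2 * C) ^ n - 1 ≤ f W H * C ^ n := hN3.trans h6
    rw [mul_pow] at h7
    have hCn : (1 : ℝ) ≤ C ^ n := one_le_pow₀ hC
    by_contra hcon
    rw [not_lt] at hcon
    have h8 : f W H * C ^ n ≤ B * C ^ n := mul_le_mul_of_nonneg_right hcon (by linarith)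
    nlinarith

/-- a single submultiplicative bound, strong form -/
theorem barrier_one (f : ∀ (V : Type) [Fintype V], SimpleGraph V → ℝ) (hf : SubmultBound f) :
    ∃ k : ℕ, ∀ B : ℝ, ∃ (V : Type) (_ : Fintype V) (G : SimpleGraph V), AlphaLE G k ∧
      ∀ (W : Type) [Fintype W] (H : SimpleGraph W), GLe G H → B < f W H := by
  by_cases hP : ∃ C : ℝ, ∀ (W : Type) [Fintype W] (G' : SimpleGraph W), AlphaLE G' 2 →
      ∃ (A : Type) (_ : Fintype A) (H : SimpleGraph A), GLe G' H ∧ f A H ≤ C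
  · obtain ⟨C, hC⟩ := hP
    refine ⟨⌊20000 * (max C 1) ^ 4⌋₊, fun B => ?_⟩
    obtain ⟨V, iV, G, k, hk, hG, h⟩ := univ_barrier_strong (max C 1) B (le_max_right _ _)
    refine ⟨V, iV, G, hG.le (Nat.le_floor hk), fun W _ H hH => h f hf ?_ W H hH⟩
    intro W' _ G' hG'
    obtain ⟨A, iA, H', h1, h2⟩ := hC W' G' hG'
    exact ⟨A, iA, H', h1, h2.trans (le_max_left _ _)⟩
  · push Not at hP
    refine ⟨2, fun B => ?_⟩
    obtain ⟨W, iW, G', hG', h⟩ := hP B
    exact ⟨W, iW, G', hG', fun A _ H hH => h A _ H hH⟩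

/-- finite families, strong form -/
theorem barrier_fin (r : ℕ) (f : Fin r → ∀ (V : Type) [Fintype V], SimpleGraph V → ℝ)
    (hf : ∀ j, SubmultBound (f j)) :
    ∃ k : ℕ, ∀ B : ℝ, ∃ (V : Type) (_ : Fintype V) (G : SimpleGraph V), AlphaLE G k ∧
      ∀ j, ∀ (W : Type) [Fintype W] (H : SimpleGraph W), GLe G H → B < f j W H := by
  induction r with
  | zero =>
    exact ⟨0, fun _ => ⟨Fin 0, inferInstance, ⊥, fun T _ => by simp [Finset.eq_empty_of_isEmpty T],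
      fun j => j.elim0⟩⟩
  | succ r ih =>
    obtain ⟨k₁, h₁⟩ := ih (fun j => f j.castSucc) (fun j => hf _)
    obtain ⟨k₂, h₂⟩ := barrier_one (f (Fin.last r)) (hf _)
    refine ⟨max k₁ k₂, fun B => ?_⟩
    obtain ⟨V₁, i₁, G₁, hG₁, hB₁⟩ := h₁ B
    obtain ⟨V₂, i₂, G₂, hG₂, hB₂⟩ := h₂ B
    refine ⟨V₁ ⊕ V₂, inferInstance, joinG G₁ G₂, alphaLE_joinG (hG₁.le (le_max_left _ _))
      (hG₂.le (le_max_right _ _)), ?_⟩
    intro j W _ H hH
    induction j using Fin.lastCases with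
    | last => exact hB₂ W H ((gle_joinG_right G₁ G₂).trans hH)
    | cast j => exact hB₁ j W H ((gle_joinG_left G₁ G₂).trans hH)

end Pool.Agent.W_79d227_h9
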