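import Pool.Agent.W_79d227_h9.Criterion

/-!
# The pentagon
-/

set_option autoImplicit false

namespace Pool.Agent.W_79d227_h9

theorem c5_adj (x y : Fin 5) : (SimpleGraph.cycleGraph 5).Adj x y ↔ x = y + 1 ∨ y = x + 1 := by
  revert x y
  decide

theorem c5_common (a x : Fin 5) (h1 : x = a ∨ (x = a + 1 ∨ a = x + 1))
    (h2 : x = a + 1 ∨ (x = a + 1 + 1 ∨ a + 1 = x + 1)) : x = a ∨ x = a + 1 := by
  revert a x
  decide

theorem c5_cliques {k : ℕ} (g : Fin (k + 1) → Fin 5)
    (hg : ∀ i j, g i = g j ∨ (SimpleGraph.cycleGraph 5).Adj (g i) (g j)) :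
    ∃ Q ∈ (Finset.univ.image fun i : Fin 5 => ({i, i + 1} : Finset (Fin 5))), ∀ i, g i ∈ Q := by
  have hg' : ∀ i j, g i = g j ∨ (g i = g j + 1 ∨ g j = g i + 1) := by
    intro i j
    rcases hg i j with h | h
    · exact Or.inl h
    · exact Or.inr ((c5_adj _ _).1 h)
  by_cases h1 : ∃ i j, g j = g i + 1
  · obtain ⟨i, j, hij⟩ := h1
    refine ⟨{g i, g i + 1}, Finset.mem_image_of_mem _ (Finset.mem_univ _), fun l => ?_⟩
    have e1 := hg' l i
    have e2 := hg' l j
    rw [hij] at e2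
    rcases c5_common (g i) (g l) e1 e2 with h | h
    · rw [h]; simp
    · rw [h]; simp
  · push Not at h1
    refine ⟨{g 0, g 0 + 1}, Finset.mem_image_of_mem _ (Finset.mem_univ _), fun l => ?_⟩
    rcases hg' l 0 with h | h | h
    · rw [h]; simp
    · exact absurd h (h1 0 l)
    · exact absurd h (h1 l 0)

theorem c5_cliqueProb (k : ℕ) :
    cliqueProb (SimpleGraph.cycleGraph 5) (fun _ => (1 : ℝ) / 5) k ≤ 5 * (2 / 5) ^ (k + 1) := by
  classical
  refine (cliqueProb_le_sum _ _ (fun _ => by norm_num) k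
    (Finset.univ.image fun i : Fin 5 => ({i, i + 1} : Finset (Fin 5))) fun g hg =>
      c5_cliques g hg).trans ?_
  have h1 : ∀ Q ∈ (Finset.univ.image fun i : Fin 5 => ({i, i + 1} : Finset (Fin 5))),
      (∑ _v ∈ Q, (1 : ℝ) / 5) ^ (k + 1) ≤ (2 / 5) ^ (k + 1) := by
    intro Q hQ
    obtain ⟨i, -, rfl⟩ := Finset.mem_image.1 hQ
    apply pow_le_pow_left₀ (Finset.sum_nonneg fun _ _ => by norm_num)
    rw [Finset.sum_const, nsmul_eq_mul]
    have : (({i, i + 1} : Finset (Fin 5)).card : ℝ) ≤ 2 := by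
      exact_mod_cast Finset.card_le_two
    linarith
  refine (Finset.sum_le_sum h1).trans ?_
  rw [Finset.sum_const, nsmul_eq_mul]
  apply mul_le_mul_of_nonneg_right _ (by positivity)
  have : (Finset.univ.image fun i : Fin 5 => ({i, i + 1} : Finset (Fin 5))).card ≤ 5 := by
    refine Finset.card_image_le.trans ?_
    simp
  exact_mod_cast this

/-- if the capacity is bounded on the graphs with independence number at most seven then it is not
multiplicative with the pentagon -/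
theorem c5_capacity (C : ℝ)
    (hC : ∀ (W : Type) [Fintype W] (G : SimpleGraph W), AlphaLE G 7 → shannonCap W G ≤ C) :
    ∃ (U : Type) (_ : Fintype U) (G' : SimpleGraph U),
      √5 * shannonCap U G' < shannonCap (U × Fin 5) (strong G' (SimpleGraph.cycleGraph 5)) := by
  refine capacity_criterion (SimpleGraph.cycleGraph 5) (fun _ => (1 : ℝ) / 5)
    (fun _ => by norm_num) (by simp) 7 (√5) ?_ ?_ C hC
  · rw [Real.one_le_sqrt]; norm_num
  · have h1 := c5_cliqueProb 7
    have h2 : √5 < 2.4 := by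
      rw [Real.sqrt_lt' (by norm_num)]
      norm_num
    have h3 : √(5 : ℝ) ^ 7 = 125 * √5 := by
      have h4 : √(5 : ℝ) ^ 2 = 5 := Real.sq_sqrt (by norm_num)
      calc √(5 : ℝ) ^ 7 = (√(5 : ℝ) ^ 2) ^ 3 * √5 := by ring
        _ = 125 * √5 := by rw [h4]; norm_num
    have h5 : 0 ≤ √(5 : ℝ) := Real.sqrt_nonneg 5
    calc √(5 : ℝ) ^ 7 * cliqueProb (SimpleGraph.cycleGraph 5) (fun _ => (1 : ℝ) / 5) 7
        ≤ √(5 : ℝ) ^ 7 * (5 * (2 / 5) ^ (7 + 1)) := mul_le_mul_of_nonneg_left h1 (by positivity)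
      _ < 1 := by
          rw [h3]
          norm_num
          nlinarith

end Pool.Agent.W_79d227_h9
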