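import Pool.Agent.W_79d227_h9.Defs

/-!
# Every graph with independence number at most `k` sits in a circulant graph with
independence number at most `k`, of polynomial size
-/

set_option autoImplicit false

namespace Pool.Agent.W_79d227_h9

/-- the Sidon-type map -/
def sid (n : ℕ) (i : ℕ) : ℕ := i + (3 * n) * i ^ 2 + (3 * n) * (3 * n ^ 2) * i ^ 3

/-- Two-digit mixed radix comparison. -/
private theorem digit_eq {m a b c d : ℕ} (ha : a < m) (hb : b < m)
    (h : a + m * c = b + m * d) : a = b ∧ c = d := by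
  have h1 : a = b := by
    have := congrArg (· % m) h
    simpa [Nat.add_mul_mod_self_left, Nat.mod_eq_of_lt ha, Nat.mod_eq_of_lt hb] using this
  subst h1
  refine ⟨rfl, ?_⟩
  have hm : 0 < m := by omega
  exact Nat.eq_of_mul_eq_mul_left hm (by omega)

private theorem sid_sum (n x y z : ℕ) : sid n x + sid n y + sid n z =
    (x + y + z) + (3 * n) * ((x ^ 2 + y ^ 2 + z ^ 2) +
      (3 * n ^ 2) * (x ^ 3 + y ^ 3 + z ^ 3)) := by
  unfold sid; ring

private theorem sid_bounds {n x y z : ℕ} (hx : x < n) (hy : y < n) (hz : z < n) :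
    x + y + z < 3 * n ∧ x ^ 2 + y ^ 2 + z ^ 2 < 3 * n ^ 2 ∧
      x ^ 3 + y ^ 3 + z ^ 3 < 3 * n ^ 3 := by
  have a1 : x ^ 2 < n ^ 2 := Nat.pow_lt_pow_left hx (by norm_num)
  have a2 : y ^ 2 < n ^ 2 := Nat.pow_lt_pow_left hy (by norm_num)
  have a3 : z ^ 2 < n ^ 2 := Nat.pow_lt_pow_left hz (by norm_num)
  have b1 : x ^ 3 < n ^ 3 := Nat.pow_lt_pow_left hx (by norm_num)
  have b2 : y ^ 3 < n ^ 3 := Nat.pow_lt_pow_left hy (by norm_num)
  have b3 : z ^ 3 < n ^ 3 := Nat.pow_lt_pow_left hz (by norm_num)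
  refine ⟨by omega, by omega, by omega⟩

private theorem sid_sum_lt {n x y z : ℕ} (hx : x < n) (hy : y < n) (hz : z < n) :
    sid n x + sid n y + sid n z < 27 * n ^ 6 := by
  obtain ⟨h1, h2, h3⟩ := sid_bounds hx hy hz
  rw [sid_sum]
  have e1 : (x ^ 2 + y ^ 2 + z ^ 2) + (3 * n ^ 2) * (x ^ 3 + y ^ 3 + z ^ 3) + 1
      ≤ 3 * n ^ 2 * (3 * n ^ 3) := by
    have : (3 * n ^ 2) * (x ^ 3 + y ^ 3 + z ^ 3 + 1) ≤ 3 * n ^ 2 * (3 * n ^ 3) :=
      Nat.mul_le_mul_left _ h3
    rw [Nat.mul_add] at this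
    omega
  have e2 : (3 * n) * ((x ^ 2 + y ^ 2 + z ^ 2) + (3 * n ^ 2) * (x ^ 3 + y ^ 3 + z ^ 3) + 1)
      ≤ (3 * n) * (3 * n ^ 2 * (3 * n ^ 3)) := Nat.mul_le_mul_left _ e1
  have e3 : (3 * n) * (3 * n ^ 2 * (3 * n ^ 3)) = 27 * n ^ 6 := by ring
  rw [Nat.mul_add] at e2
  omega

/-- Sums of three values of `sid` determine the summands, even modulo `N`.
PROOF. The sum of three values is `s1 + 3n*s2 + 9n^3*s3` with `s1 = x₁+x₂+x₃ < 3n`,
`s2 = sum of squares < 3n^2`, `s3 = sum of cubes < 3n^3`, so it is `< 27 n^6 ≤ N`; hence the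
congruence is an equality of naturals and (mixed radix digits, e.g. `Nat.add_mul_mod_self` /
`Nat.add_mul_div`) the three power sums agree. Then, over the integers, the elementary symmetric
functions agree: `2 e2 = s1^2 - s2`, `6 e3 = s1^3 - 3 s1 s2 + 2 s3`, so
`(y₁-x₁)(y₁-x₂)(y₁-x₃) = (y₁-y₁)(y₁-y₂)(y₁-y₃) = 0` (a `linear_combination`). -/
theorem sid_inj {n N : ℕ} (hN : 27 * n ^ 6 ≤ N) {x₁ x₂ x₃ y₁ y₂ y₃ : ℕ}
    (hx₁ : x₁ < n) (hx₂ : x₂ < n) (hx₃ : x₃ < n) (hy₁ : y₁ < n) (hy₂ : y₂ < n) (hy₃ : y₃ < n)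
    (h : ((sid n x₁ + sid n x₂ + sid n x₃ : ℕ) : ZMod N) =
      ((sid n y₁ + sid n y₂ + sid n y₃ : ℕ) : ZMod N)) :
    y₁ = x₁ ∨ y₁ = x₂ ∨ y₁ = x₃ := by
  have hx := sid_sum_lt hx₁ hx₂ hx₃
  have hy := sid_sum_lt hy₁ hy₂ hy₃
  have h' : sid n x₁ + sid n x₂ + sid n x₃ = sid n y₁ + sid n y₂ + sid n y₃ := by
    rw [ZMod.natCast_eq_natCast_iff'] at h
    rwa [Nat.mod_eq_of_lt (lt_of_lt_of_le hx hN), Nat.mod_eq_of_lt (lt_of_lt_of_le hy hN)] at h
  obtain ⟨a1, a2, a3⟩ := sid_bounds hx₁ hx₂ hx₃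
  obtain ⟨b1, b2, b3⟩ := sid_bounds hy₁ hy₂ hy₃
  rw [sid_sum, sid_sum] at h'
  obtain ⟨c1, c'⟩ := digit_eq a1 b1 h'
  obtain ⟨c2, c3⟩ := digit_eq a2 b2 c'
  have d1 : (x₁ : ℤ) + x₂ + x₃ = y₁ + y₂ + y₃ := by exact_mod_cast c1
  have d2 : (x₁ : ℤ) ^ 2 + x₂ ^ 2 + x₃ ^ 2 = y₁ ^ 2 + y₂ ^ 2 + y₃ ^ 2 := by exact_mod_cast c2
  have d3 : (x₁ : ℤ) ^ 3 + x₂ ^ 3 + x₃ ^ 3 = y₁ ^ 3 + y₂ ^ 3 + y₃ ^ 3 := by exact_mod_cast c3
  have f2 : (x₁ : ℤ) * x₂ + x₁ * x₃ + x₂ * x₃ = y₁ * y₂ + y₁ * y₃ + y₂ * y₃ := by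
    have : 2 * ((x₁ : ℤ) * x₂ + x₁ * x₃ + x₂ * x₃) = 2 * (y₁ * y₂ + y₁ * y₃ + y₂ * y₃) := by
      linear_combination ((x₁ : ℤ) + x₂ + x₃ + (y₁ + y₂ + y₃)) * d1 - d2
    linarith
  have f3 : (x₁ : ℤ) * x₂ * x₃ = y₁ * y₂ * y₃ := by
    have : 3 * ((x₁ : ℤ) * x₂ * x₃) = 3 * (y₁ * y₂ * y₃) := by
      have ex : 3 * ((x₁ : ℤ) * x₂ * x₃) = x₁ ^ 3 + x₂ ^ 3 + x₃ ^ 3 -
        (x₁ + x₂ + x₃) * ((x₁ ^ 2 + x₂ ^ 2 + x₃ ^ 2) - (x₁ * x₂ + x₁ * x₃ + x₂ * x₃)) := by ring
      have ey : 3 * ((y₁ : ℤ) * y₂ * y₃) = y₁ ^ 3 + y₂ ^ 3 + y₃ ^ 3 -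
        (y₁ + y₂ + y₃) * ((y₁ ^ 2 + y₂ ^ 2 + y₃ ^ 2) - (y₁ * y₂ + y₁ * y₃ + y₂ * y₃)) := by ring
      rw [ex, ey, d1, d2, d3, f2]
    linarith
  have key : ((y₁ : ℤ) - x₁) * ((y₁ - x₂) * (y₁ - x₃)) = 0 := by
    linear_combination (-(y₁ : ℤ) ^ 2) * d1 + (y₁ : ℤ) * f2 - f3
  rcases mul_eq_zero.1 key with h1 | h1
  · left; omega
  · rcases mul_eq_zero.1 h1 with h2 | h2
    · right; left; omega
    · right; right; omega

/-- The Cayley graph cover along a `B₃` family. -/
theorem cayley_cover {V A : Type} [AddCommGroup A] (a : V → A)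
    (hB3 : ∀ x₁ x₂ x₃ y₁ y₂ y₃ : V, a x₁ + a x₂ + a x₃ = a y₁ + a y₂ + a y₃ →
      y₁ = x₁ ∨ y₁ = x₂ ∨ y₁ = x₃)
    {k : ℕ} (hk : 1 ≤ k) (G : SimpleGraph V) (hG : AlphaLE G k) :
    ∃ s : Set A, AlphaLE (SimpleGraph.circulantGraph s) k ∧
      Nonempty (G ↪g SimpleGraph.circulantGraph s) := by
  classical
  have h1 : ∀ u w : V, a u = a w → w = u := by
    intro u w h
    rcases hB3 u u u w w w (by rw [h]) with e | e | e <;> exact e
  have h2 : ∀ u v w z : V, a u + a v = a w + a z → w = u ∨ w = v := by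
    intro u v w z h
    rcases hB3 u v u w z u (by rw [h]) with e | e | e
    · exact Or.inl e
    · exact Or.inr e
    · exact Or.inl e
  set D : Set A := {d | ∃ u v, u ≠ v ∧ ¬ G.Adj u v ∧ d = a u - a v} with hD
  have hDneg : ∀ d, d ∈ D → -d ∈ D := by
    rintro d ⟨u, v, huv, hadj, rfl⟩
    exact ⟨v, u, huv.symm, fun h => hadj h.symm, by abel⟩
  refine ⟨Dᶜ, ?_, ⟨⟨⟨a, fun u w h => (h1 u w h).symm⟩, ?_⟩⟩⟩
  · intro T hT
    have hTD : ∀ x ∈ T, ∀ y ∈ T, x ≠ y → x - y ∈ D := by
      intro x hx y hy hxy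
      have := hT x hx y hy hxy
      by_contra hcon
      apply this
      rw [SimpleGraph.circulantGraph_adj]
      exact ⟨hxy, Or.inl hcon⟩
    rcases T.eq_empty_or_nonempty with rfl | ⟨x₀, hx₀⟩
    · simp
    by_cases hne : (T.erase x₀).Nonempty
    swap
    · rw [Finset.not_nonempty_iff_eq_empty] at hne
      have := Finset.card_erase_of_mem hx₀
      rw [hne] at this
      simp at this
      omega
    obtain ⟨x₁, hx₁⟩ := hne
    have hV : Nonempty V := by
      obtain ⟨u, -⟩ := hTD x₁ (Finset.mem_of_mem_erase hx₁) x₀ hx₀ (Finset.ne_of_mem_erase hx₁)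
      exact ⟨u⟩
    have hex : ∀ x ∈ T.erase x₀, ∃ u v, u ≠ v ∧ ¬ G.Adj u v ∧ x - x₀ = a u - a v :=
      fun x hx => hTD x (Finset.mem_of_mem_erase hx) x₀ hx₀ (Finset.ne_of_mem_erase hx)
    choose! p q hpq hadj hxe using hex
    have hpair : ∀ x ∈ T.erase x₀, ∀ y ∈ T.erase x₀, x ≠ y →
        (p x = p y ∧ q x ≠ q y ∧ ¬ G.Adj (q x) (q y)) ∨
        (q x = q y ∧ p x ≠ p y ∧ ¬ G.Adj (p x) (p y)) := by
      intro x hx y hy hxy
      obtain ⟨r, t, hrt, hrtadj, he⟩ := hTD x (Finset.mem_of_mem_erase hx) y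
        (Finset.mem_of_mem_erase hy) hxy
      have ex := hxe x hx
      have ey := hxe y hy
      have hpqx := hpq x hx
      have hpqy := hpq y hy
      have esum : a (p x) + a (q y) + a t = a (q x) + a (p y) + a r := by
        have : (x - x₀) - (y - x₀) = x - y := by abel
        rw [ex, ey, he] at this
        have h3 : a (p x) - a (q x) - (a (p y) - a (q y)) + (a (q x) + a (p y) + a t) =
          a r - a t + (a (q x) + a (p y) + a t) := by rw [this]
        have l : a (p x) - a (q x) - (a (p y) - a (q y)) + (a (q x) + a (p y) + a t) =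
          a (p x) + a (q y) + a t := by abel
        have r' : a r - a t + (a (q x) + a (p y) + a t) = a (q x) + a (p y) + a r := by abel
        rw [l, r'] at h3
        exact h3
      have hcase : p x = p y ∨ p x = r := by
        rcases hB3 (q x) (p y) r (p x) (q y) t esum.symm with e | e | e
        · exact absurd e hpqx
        · exact Or.inl e
        · exact Or.inr e
      rcases hcase with hc | hc
      · left
        have e2 : a (q y) + a t = a (q x) + a r := by
          rw [hc] at esum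
          have l : a (p y) + a (q y) + a t = a (p y) + (a (q y) + a t) := by abel
          have r' : a (q x) + a (p y) + a r = a (p y) + (a (q x) + a r) := by abel
          rw [l, r'] at esum
          exact add_left_cancel esum
        have hqne : q x ≠ q y := by
          intro hq
          apply hxy
          have : x - x₀ = y - x₀ := by rw [ex, ey, hc, hq]
          exact sub_left_injective this
        rcases h2 _ _ _ _ e2 with e | e
        · exact absurd e hqne
        · have e3 : a (q y) = a r := by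
            rw [e, add_comm (a t) (a r)] at e2
            exact add_right_cancel e2
          have e4 : r = q y := h1 _ _ e3
          refine ⟨hc, hqne, ?_⟩
          rw [e, ← e4]
          exact fun h => hrtadj h.symm
      · right
        have e2 : a (q y) + a t = a (q x) + a (p y) := by
          rw [hc] at esum
          have l : a r + a (q y) + a t = (a (q y) + a t) + a r := by abel
          rw [l] at esum
          exact add_right_cancel esum
        have hq : q y = q x := by
          rcases h2 _ _ _ _ e2.symm with e | e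
          · exact e
          · exact absurd e.symm hpqy
        have e3 : a t = a (p y) := by
          rw [hq] at e2
          exact add_left_cancel e2
        have e4 : p y = t := h1 _ _ e3
        refine ⟨hq.symm, ?_, ?_⟩
        · rw [hc, e4]; exact hrt
        · rw [hc, e4]; exact hrtadj
    have hcard : T.card = (T.erase x₀).card + 1 := by
      rw [Finset.card_erase_of_mem hx₀]
      have : 0 < T.card := Finset.card_pos.2 ⟨x₀, hx₀⟩
      omega
    rw [hcard]
    by_cases hA : ∃ x ∈ T.erase x₀, ∃ y ∈ T.erase x₀, x ≠ y ∧ p x = p y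
    · obtain ⟨x, hx, y, hy, hxy, hpxy⟩ := hA
      have hall : ∀ z ∈ T.erase x₀, p z = p x := by
        intro z hz
        by_contra hne
        have hzx : x ≠ z := by rintro rfl; exact hne rfl
        have hzy : y ≠ z := by rintro rfl; exact hne hpxy.symm
        rcases hpair x hx z hz hzx with h | h
        · exact hne h.1.symm
        · rcases hpair y hy z hz hzy with h' | h'
          · exact hne (by rw [hpxy, h'.1])
          · rcases hpair x hx y hy hxy with h'' | h''
            · exact h''.2.1 (by rw [h.1, h'.1])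
            · exact h''.2.1 hpxy
      have hq : ∀ z ∈ T.erase x₀, ∀ w ∈ T.erase x₀, z ≠ w → q z ≠ q w ∧ ¬ G.Adj (q z) (q w) := by
        intro z hz w hw hzw
        rcases hpair z hz w hw hzw with h | h
        · exact h.2
        · exact absurd (by rw [hall z hz, hall w hw]) h.2.1
      have hpnot : p x ∉ (T.erase x₀).image q := by
        intro hmem
        obtain ⟨z, hz, hzq⟩ := Finset.mem_image.1 hmem
        exact hpq z hz (by rw [hzq, hall z hz])
      have hcimg : ((T.erase x₀).image q).card = (T.erase x₀).card := by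
        apply Finset.card_image_of_injOn
        intro z hz w hw hzw
        by_contra hne
        exact (hq z hz w hw hne).1 hzw
      have := hG (insert (p x) ((T.erase x₀).image q)) ?_
      · rw [Finset.card_insert_of_notMem hpnot, hcimg] at this
        exact this
      · intro u hu v hv huv
        rcases Finset.mem_insert.1 hu with rfl | hu
        · rcases Finset.mem_insert.1 hv with rfl | hv
          · exact absurd rfl huv
          · obtain ⟨z, hz, rfl⟩ := Finset.mem_image.1 hv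
            rw [← hall z hz]
            exact hadj z hz
        · obtain ⟨z, hz, rfl⟩ := Finset.mem_image.1 hu
          rcases Finset.mem_insert.1 hv with rfl | hv
          · rw [← hall z hz]
            exact fun h => hadj z hz h.symm
          · obtain ⟨w, hw, rfl⟩ := Finset.mem_image.1 hv
            exact (hq z hz w hw (by rintro rfl; exact huv rfl)).2
    · have hB : ∀ z ∈ T.erase x₀, ∀ w ∈ T.erase x₀, z ≠ w →
          q z = q w ∧ p z ≠ p w ∧ ¬ G.Adj (p z) (p w) := by
        intro z hz w hw hzw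
        rcases hpair z hz w hw hzw with h | h
        · exact absurd ⟨z, hz, w, hw, hzw, h.1⟩ hA
        · exact h
      have hall : ∀ z ∈ T.erase x₀, q z = q x₁ := by
        intro z hz
        by_cases hzx : z = x₁
        · rw [hzx]
        · exact (hB z hz x₁ hx₁ hzx).1
      have hqnot : q x₁ ∉ (T.erase x₀).image p := by
        intro hmem
        obtain ⟨z, hz, hzq⟩ := Finset.mem_image.1 hmem
        exact hpq z hz (by rw [hzq, hall z hz])
      have hcimg : ((T.erase x₀).image p).card = (T.erase x₀).card := by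
        apply Finset.card_image_of_injOn
        intro z hz w hw hzw
        by_contra hne
        exact (hB z hz w hw hne).2.1 hzw
      have := hG (insert (q x₁) ((T.erase x₀).image p)) ?_
      · rw [Finset.card_insert_of_notMem hqnot, hcimg] at this
        exact this
      · intro u hu v hv huv
        rcases Finset.mem_insert.1 hu with rfl | hu
        · rcases Finset.mem_insert.1 hv with rfl | hv
          · exact absurd rfl huv
          · obtain ⟨z, hz, rfl⟩ := Finset.mem_image.1 hv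
            rw [← hall z hz]
            exact fun h => hadj z hz h.symm
        · obtain ⟨z, hz, rfl⟩ := Finset.mem_image.1 hu
          rcases Finset.mem_insert.1 hv with rfl | hv
          · rw [← hall z hz]
            exact hadj z hz
          · obtain ⟨w, hw, rfl⟩ := Finset.mem_image.1 hv
            exact (hB z hz w hw (by rintro rfl; exact huv rfl)).2.2
  · intro u v
    change (SimpleGraph.circulantGraph Dᶜ).Adj (a u) (a v) ↔ G.Adj u v
    rw [SimpleGraph.circulantGraph_adj]
    constructor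
    · rintro ⟨hne, h⟩
      by_contra hadj
      have huv : u ≠ v := fun e => hne (by rw [e])
      rcases h with h | h
      · exact h ⟨u, v, huv, hadj, rfl⟩
      · exact h ⟨v, u, huv.symm, fun h' => hadj h'.symm, rfl⟩
    · intro hadj
      refine ⟨fun h => hadj.ne (h1 _ _ h).symm, Or.inl ?_⟩
      rintro ⟨r, t, hrt, hrtadj, he⟩
      have e1 : a u + a t = a r + a v := by
        have h3 : a u - a v + (a v + a t) = a r - a t + (a v + a t) := by rw [he]
        have l : a u - a v + (a v + a t) = a u + a t := by abel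
        have r' : a r - a t + (a v + a t) = a r + a v := by abel
        rw [l, r'] at h3
        exact h3
      have hru : r = u := by
        rcases h2 _ _ _ _ e1 with e | e
        · exact e
        · exact absurd e hrt
      rw [hru] at e1
      have hvt : v = t := h1 _ _ (add_left_cancel e1)
      rw [hru, ← hvt] at hrtadj
      exact hrtadj hadj

/-- The circulant cover.
PROOF. Put `a u := (sid n u : ZMod N)`, `D := {a u - a v | u ≠ v, ¬ G.Adj u v}` (symmetric) and
`s := Dᶜ`, so that distinct `x, y` are non-adjacent in `circulantGraph s` iff `x - y ∈ D`; `a` is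
injective by `sid_inj` (compare `a u + a u + a u`), so `a` is a cohomomorphism. Let `T` be
independent in `circulantGraph s`, `2 ≤ T.card` (else `T.card ≤ 1 ≤ k`). Fix `x₀ ∈ T`; for
`x ∈ T \ {x₀}` write `x - x₀ = a (p x) - a (q x)` with `p x ≠ q x` non-adjacent in `G`. For
`x ≠ y` in `T \ {x₀}` we have `x - y = a r - a t` (`r ≠ t` non-adjacent), so
`a (p x) + a (q y) + a t = a (q x) + a (p y) + a r`. By `sid_inj` `p x ∈ {q x, p y, r}`, `q y` ..,
and (as `p x ≠ q x`, `p y ≠ q y`, `r ≠ t`) the two multisets are equal only if `p x = p y`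
(then `x - y = a (q y) - a (q x)`, `q y ≠ q x`, and `{q y, q x} = {r, t}` is non-adjacent) or
`q x = q y` (then `p x ≠ p y` is non-adjacent); not both as `x ≠ y`. So the pairs `(p x, q x)`
pairwise share exactly one coordinate, hence all share the first or all share the second
coordinate (rook graph). In the first case `{p} ∪ {q x}` is an independent set of `G` with
`T.card` elements, in the second `{q} ∪ {p x}`. -/
theorem exists_circulant {n N k : ℕ} (hk : 1 ≤ k) (hN : 27 * n ^ 6 ≤ N)
    (G : SimpleGraph (Fin n)) (hG : AlphaLE G k) :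
    ∃ s : Set (ZMod N), AlphaLE (SimpleGraph.circulantGraph s) k ∧
      Nonempty (G ↪g SimpleGraph.circulantGraph s) := by
  refine cayley_cover (fun u : Fin n => ((sid n (u : ℕ) : ℕ) : ZMod N)) ?_ hk G hG
  intro x₁ x₂ x₃ y₁ y₂ y₃ h
  have h' : ((sid n x₁ + sid n x₂ + sid n x₃ : ℕ) : ZMod N) =
      ((sid n y₁ + sid n y₂ + sid n y₃ : ℕ) : ZMod N) := by
    push_cast
    exact h
  rcases sid_inj hN x₁.2 x₂.2 x₃.2 y₁.2 y₂.2 y₃.2 h' with e | e | e
  · exact Or.inl (Fin.ext e)
  · exact Or.inr (Or.inl (Fin.ext e))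
  · exact Or.inr (Or.inr (Fin.ext e))

end Pool.Agent.W_79d227_h9
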