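import Pool.Agent.W_79d227_h9.Sharp

/-!
# The criterion, and its consequences for the Shannon capacity
-/

set_option autoImplicit false

namespace Pool.Agent.W_79d227_h9

open Pool.Agent.W_66dfad_zo

/-- an upper bound for the independence number -/
def AlphaBound (f : ∀ (V : Type) [Fintype V], SimpleGraph V → ℝ) : Prop :=
  ∀ (V : Type) [Fintype V] (G : SimpleGraph V) (T : Finset V),
    (∀ a ∈ T, ∀ b ∈ T, a ≠ b → ¬ G.Adj a b) → (T.card : ℝ) ≤ f V G

variable {f : ∀ (V : Type) [Fintype V], SimpleGraph V → ℝ}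

theorem AlphaBound.nonneg (hf : AlphaBound f) (V : Type) [Fintype V] (G : SimpleGraph V) :
    0 ≤ f V G := by
  simpa using hf V G ∅ (by simp)

theorem AlphaBound.of_bot (hf : AlphaBound f) {V : Type} [Fintype V] {G : SimpleGraph V}
    {N : ℕ} (h : GLe (⊥ : SimpleGraph (Fin N)) G) : (N : ℝ) ≤ f V G := by
  classical
  obtain ⟨g, hg⟩ := h
  have hinj : Function.Injective g := by
    intro a b hab
    by_contra hne
    exact (hg a b hne (fun h => h.elim)).1 hab
  have := hf V G (Finset.univ.image g) (by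
    intro x hx y hy hxy
    obtain ⟨a, -, rfl⟩ := Finset.mem_image.1 hx
    obtain ⟨b, -, rfl⟩ := Finset.mem_image.1 hy
    have hab : a ≠ b := fun e => hxy (by rw [e])
    exact (hg a b hab (fun h => h.elim)).2)
  rw [Finset.card_image_of_injective _ hinj] at this
  simpa using this

theorem AlphaBound.prod_pow {V : Type} [Fintype V] {H : SimpleGraph V} {c : ℝ} (hc : 0 ≤ c)
    (hmul : ∀ (U : Type) [Fintype U] (G' : SimpleGraph U),
      f (U × V) (strong G' H) ≤ c * f U G') {A : Type} [Fintype A] (G₀ : SimpleGraph A) (n : ℕ) :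
    ∃ (U : Type) (_ : Fintype U) (P : SimpleGraph U), cls P = cls G₀ * cls H ^ n ∧
      f U P ≤ c ^ n * f A G₀ := by
  induction n with
  | zero => exact ⟨A, inferInstance, G₀, by simp, by simp⟩
  | succ n ih =>
    obtain ⟨U, i, P, h1, h2⟩ := ih
    refine ⟨U × V, inferInstance, strong P H, ?_, ?_⟩
    · rw [cls_strong, h1, pow_succ, mul_assoc]
    · refine (hmul U P).trans ?_
      calc c * f U P ≤ c * (c ^ n * f A G₀) := mul_le_mul_of_nonneg_left h2 hc
        _ = c ^ (n + 1) * f A G₀ := by ring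

/-- **the criterion** -/
theorem criterion {V : Type} [Fintype V] (H : SimpleGraph V) (μ : V → ℝ) (hμ : ∀ v, 0 ≤ μ v)
    (hμ1 : ∑ v, μ v = 1) (k : ℕ) (c : ℝ) (hc : 1 ≤ c) (hq : c ^ k * cliqueProb H μ k < 1)
    (B : ℝ) :
    ∃ (W : Type) (_ : Fintype W) (G : SimpleGraph W), AlphaLE G k ∧
      ∀ f : ∀ (V : Type) [Fintype V], SimpleGraph V → ℝ, AlphaBound f →
        (∀ (U : Type) [Fintype U] (G' : SimpleGraph U),
          f (U × V) (strong G' H) ≤ c * f U G') → B < f W G := by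
  classical
  set q := cliqueProb H μ k with hqdef
  have hq0 : 0 ≤ q := by
    rw [hqdef]
    unfold cliqueProb
    refine Finset.sum_nonneg fun g _ => ?_
    split_ifs
    · exact Finset.prod_nonneg fun i _ => hμ _
    · exact le_rfl
  set b : ℝ := max B 0 + 1 with hb
  have hb1 : 1 ≤ b := by
    rw [hb]
    have := le_max_right B 0
    linarith
  have hbB : B < b := by
    rw [hb]
    have := le_max_left B 0
    linarith
  have hδ0 : 0 ≤ c ^ k * q := by positivity
  have hε : 0 < 1 / (2 * (4 * b) ^ k) := by positivity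
  obtain ⟨n, hn⟩ := exists_pow_lt_of_lt_one hε hq
  have hcn : 1 ≤ c ^ n := one_le_pow₀ hc
  set N := ⌈2 * c ^ n * b⌉₊ with hN
  have hN1 : 2 * c ^ n * b ≤ N := Nat.le_ceil _
  have hN2 : (N : ℝ) ≤ 4 * b * c ^ n := by
    have h1 := Nat.ceil_lt_add_one (show 0 ≤ 2 * c ^ n * b by positivity)
    have h2 : 1 ≤ c ^ n * b := by nlinarith
    rw [← hN] at h1
    nlinarith
  have hcond : (N : ℝ) ^ k * q ^ n ≤ 1 / 2 := by
    calc (N : ℝ) ^ k * q ^ n ≤ (4 * b * c ^ n) ^ k * q ^ n := by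
          apply mul_le_mul_of_nonneg_right _ (pow_nonneg hq0 n)
          exact pow_le_pow_left₀ (Nat.cast_nonneg N) hN2 k
      _ = (4 * b) ^ k * (c ^ k * q) ^ n := by
          have e1 : (4 * b * c ^ n) ^ k = (4 * b) ^ k * c ^ (k * n) := by
            rw [mul_pow, ← pow_mul, mul_comm n k]
          have e2 : (c ^ k * q) ^ n = c ^ (k * n) * q ^ n := by
            rw [mul_pow (c ^ k) q n, ← pow_mul]
          rw [e1, e2]
          ring
      _ ≤ (4 * b) ^ k * (1 / (2 * (4 * b) ^ k)) :=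
          mul_le_mul_of_nonneg_left hn.le (by positivity)
      _ = 1 / 2 := by
          field_simp
  obtain ⟨M, G₀, hNM, hG₀, hle⟩ := exists_aux_sharp H μ hμ hμ1 k N n hcond
  refine ⟨Fin M, inferInstance, G₀, hG₀, fun f hf hmul => ?_⟩
  obtain ⟨U, i, P, hP1, hP2⟩ := AlphaBound.prod_pow (f := f) (by linarith) hmul G₀ n
  have h1 : ((M : ℕ) : GS) ≤ cls P := by
    rw [hP1, ← cls_powG, ← cls_strong, ← cls_bot, cls_le]
    exact hle
  rw [← cls_bot, cls_le] at h1
  have h2 : (M : ℝ) ≤ c ^ n * f (Fin M) G₀ := (hf.of_bot h1).trans hP2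
  have h3 : (N : ℝ) ≤ 2 * M := by exact_mod_cast hNM
  by_contra hcon
  rw [not_lt] at hcon
  have h4 : c ^ n * f (Fin M) G₀ ≤ c ^ n * B := mul_le_mul_of_nonneg_left hcon (by linarith)
  nlinarith

/-- a bound for the clique probability -/
theorem cliqueProb_le_sum {V : Type} [Fintype V] (H : SimpleGraph V) (μ : V → ℝ)
    (hμ : ∀ v, 0 ≤ μ v) (k : ℕ) (𝒬 : Finset (Finset V))
    (h : ∀ g : Fin (k + 1) → V, (∀ i j, g i = g j ∨ H.Adj (g i) (g j)) →
      ∃ Q ∈ 𝒬, ∀ i, g i ∈ Q) :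
    cliqueProb H μ k ≤ ∑ Q ∈ 𝒬, (∑ v ∈ Q, μ v) ^ (k + 1) := by
  classical
  have h1 : ∀ Q : Finset V, (∑ v ∈ Q, μ v) ^ (k + 1) =
      ∑ g : Fin (k + 1) → V, ∏ i, (if g i ∈ Q then μ (g i) else 0) := by
    intro Q
    have e1 := Finset.prod_univ_sum (fun _ : Fin (k + 1) => (Finset.univ : Finset V))
      (fun _ v => if v ∈ Q then μ v else 0)
    rw [Fintype.piFinset_univ] at e1
    rw [← e1, Finset.prod_const, Finset.card_univ, Fintype.card_fin]
    congr 1
    rw [← Finset.sum_filter, Finset.filter_mem_eq_inter, Finset.univ_inter]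
  have hnn : ∀ (Q : Finset V) (g : Fin (k + 1) → V),
      0 ≤ ∏ i, (if g i ∈ Q then μ (g i) else 0) := by
    intro Q g
    refine Finset.prod_nonneg fun i _ => ?_
    split_ifs
    · exact hμ _
    · exact le_rfl
  calc cliqueProb H μ k ≤ ∑ g : Fin (k + 1) → V, ∑ Q ∈ 𝒬,
        ∏ i, (if g i ∈ Q then μ (g i) else 0) := by
        unfold cliqueProb
        refine Finset.sum_le_sum fun g _ => ?_
        split_ifs with hg
        · obtain ⟨Q, hQ, hgQ⟩ := h g hg
          refine le_trans (le_of_eq ?_) (Finset.single_le_sum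
            (f := fun Q => ∏ i, (if g i ∈ Q then μ (g i) else 0)) (fun Q _ => hnn Q g) hQ)
          exact Finset.prod_congr rfl fun i _ => by rw [if_pos (hgQ i)]
        · exact Finset.sum_nonneg fun Q _ => hnn Q g
    _ = ∑ Q ∈ 𝒬, ∑ g : Fin (k + 1) → V, ∏ i, (if g i ∈ Q then μ (g i) else 0) :=
        Finset.sum_comm
    _ = _ := Finset.sum_congr rfl fun Q _ => (h1 Q).symm

/-! ### the Shannon capacity -/

/-- codes of length `n` -/
def IsCode {V : Type} (G : SimpleGraph V) {n : ℕ} (S : Finset (Fin n → V)) : Prop :=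
  ∀ x ∈ S, ∀ y ∈ S, x ≠ y → ∃ i : Fin n, x i ≠ y i ∧ ¬ G.Adj (x i) (y i)

/-- the Shannon capacity `sup_{n ≥ 1} α(G^n)^(1/n)` -/
noncomputable def shannonCap (V : Type) [Fintype V] (G : SimpleGraph V) : ℝ :=
  sSup {r : ℝ | ∃ (n : ℕ) (S : Finset (Fin n → V)), 1 ≤ n ∧ IsCode G S ∧
    r = (S.card : ℝ) ^ ((n : ℝ)⁻¹)}

theorem shannonCap_bdd (V : Type) [Fintype V] (G : SimpleGraph V) :
    BddAbove {r : ℝ | ∃ (n : ℕ) (S : Finset (Fin n → V)), 1 ≤ n ∧ IsCode G S ∧
      r = (S.card : ℝ) ^ ((n : ℝ)⁻¹)} := by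
  classical
  refine ⟨Fintype.card V, ?_⟩
  rintro r ⟨n, S, hn, -, rfl⟩
  have h1 : (S.card : ℝ) ≤ (Fintype.card V : ℝ) ^ n := by
    have := Finset.card_le_univ S
    rw [Fintype.card_fun, Fintype.card_fin] at this
    exact_mod_cast this
  calc (S.card : ℝ) ^ ((n : ℝ)⁻¹) ≤ ((Fintype.card V : ℝ) ^ n) ^ ((n : ℝ)⁻¹) :=
        Real.rpow_le_rpow (Nat.cast_nonneg _) h1 (by positivity)
    _ = Fintype.card V := Real.pow_rpow_inv_natCast (Nat.cast_nonneg _) (by omega)

theorem le_shannonCap_pow {V : Type} [Fintype V] {G : SimpleGraph V} {n : ℕ}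
    {S : Finset (Fin n → V)} (hn : 1 ≤ n) (hS : IsCode G S) :
    (S.card : ℝ) ≤ shannonCap V G ^ n := by
  have h1 : (S.card : ℝ) ^ ((n : ℝ)⁻¹) ≤ shannonCap V G :=
    le_csSup (shannonCap_bdd V G) ⟨n, S, hn, hS, rfl⟩
  calc (S.card : ℝ) = ((S.card : ℝ) ^ ((n : ℝ)⁻¹)) ^ n :=
        (Real.rpow_inv_natCast_pow (Nat.cast_nonneg _) (by omega)).symm
    _ ≤ shannonCap V G ^ n := pow_le_pow_left₀ (by positivity) h1 n

theorem shannonCap_le {V : Type} [Fintype V] {G : SimpleGraph V} {C : ℝ} (hC : 0 ≤ C)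
    (h : ∀ (n : ℕ) (S : Finset (Fin n → V)), 1 ≤ n → IsCode G S → (S.card : ℝ) ≤ C ^ n) :
    shannonCap V G ≤ C := by
  have hne : {r : ℝ | ∃ (n : ℕ) (S : Finset (Fin n → V)), 1 ≤ n ∧ IsCode G S ∧
      r = (S.card : ℝ) ^ ((n : ℝ)⁻¹)}.Nonempty :=
    ⟨_, 1, ∅, le_rfl, fun x hx => by simp at hx, rfl⟩
  apply csSup_le hne
  rintro r ⟨n, S, hn, hS, rfl⟩
  calc (S.card : ℝ) ^ ((n : ℝ)⁻¹) ≤ (C ^ n) ^ ((n : ℝ)⁻¹) :=
        Real.rpow_le_rpow (Nat.cast_nonneg _) (h n S hn hS) (by positivity)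
    _ = C := Real.pow_rpow_inv_natCast hC (by omega)

theorem shannonCap_alphaBound : AlphaBound shannonCap := by
  classical
  intro V _ G T hT
  have hinj : Function.Injective (fun (v : V) (_ : Fin 1) => v) := fun a b h => congrFun h 0
  have h1 : IsCode G (T.image fun (v : V) (_ : Fin 1) => v) := by
    intro x hx y hy hxy
    obtain ⟨a, ha, rfl⟩ := Finset.mem_image.1 hx
    obtain ⟨b, hb, rfl⟩ := Finset.mem_image.1 hy
    have hab : a ≠ b := fun e => hxy (by rw [e])
    exact ⟨0, hab, hT a ha b hb hab⟩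
  have h2 := le_shannonCap_pow le_rfl h1
  rw [Finset.card_image_of_injective _ hinj, pow_one] at h2
  exact h2

/-- boundedness on `α ≤ k` forces super-multiplicativity -/
theorem capacity_criterion {V : Type} [Fintype V] (H : SimpleGraph V) (μ : V → ℝ)
    (hμ : ∀ v, 0 ≤ μ v) (hμ1 : ∑ v, μ v = 1) (k : ℕ) (c : ℝ) (hc : 1 ≤ c)
    (hq : c ^ k * cliqueProb H μ k < 1) (C : ℝ)
    (hC : ∀ (W : Type) [Fintype W] (G : SimpleGraph W), AlphaLE G k → shannonCap W G ≤ C) :
    ∃ (U : Type) (_ : Fintype U) (G' : SimpleGraph U),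
      c * shannonCap U G' < shannonCap (U × V) (strong G' H) := by
  by_contra hcon
  push Not at hcon
  obtain ⟨W, iW, G, hG, h⟩ := criterion H μ hμ hμ1 k c hc hq C
  have := h shannonCap shannonCap_alphaBound (fun U _ G' => hcon U _ G')
  have h2 := hC W G hG
  linarith

/-- if the question has a positive answer then multiplication by `H` can multiply the capacity by
nearly the fractional packing number of `H` -/
theorem capacity_question {V : Type} [Fintype V] (H : SimpleGraph V) (x : V → ℝ)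
    (hx : ∀ v, 0 ≤ x v)
    (hQ : ∀ Q : Finset V, (∀ a ∈ Q, ∀ b ∈ Q, a ≠ b → H.Adj a b) → ∑ v ∈ Q, x v ≤ 1)
    (c : ℝ) (hc : 1 ≤ c) (hcx : c < ∑ v, x v)
    (hg : ∀ k : ℕ, ∃ C : ℝ, ∀ (W : Type) [Fintype W] (G : SimpleGraph W), AlphaLE G k →
      shannonCap W G ≤ C) :
    ∃ (U : Type) (_ : Fintype U) (G' : SimpleGraph U),
      c * shannonCap U G' < shannonCap (U × V) (strong G' H) := by
  classical
  set X := ∑ v, x v with hX
  have hX0 : 0 < X := by linarith
  let μ : V → ℝ := fun v => x v / X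
  have hμ : ∀ v, 0 ≤ μ v := fun v => div_nonneg (hx v) hX0.le
  have hμ1 : ∑ v, μ v = 1 := by
    rw [← Finset.sum_div, div_self hX0.ne']
  have hq : ∀ k : ℕ, cliqueProb H μ k ≤ 2 ^ Fintype.card V * (1 / X) ^ (k + 1) := by
    intro k
    refine (cliqueProb_le_sum H μ hμ k
      (Finset.univ.filter fun Q => ∀ a ∈ Q, ∀ b ∈ Q, a ≠ b → H.Adj a b) ?_).trans ?_
    · intro g hg
      refine ⟨Finset.univ.image g, Finset.mem_filter.2 ⟨Finset.mem_univ _, ?_⟩,
        fun i => Finset.mem_image_of_mem _ (Finset.mem_univ i)⟩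
      intro a ha b hb hab
      obtain ⟨i, -, rfl⟩ := Finset.mem_image.1 ha
      obtain ⟨j, -, rfl⟩ := Finset.mem_image.1 hb
      exact (hg i j).resolve_left hab
    · calc ∑ Q ∈ Finset.univ.filter (fun Q : Finset V => ∀ a ∈ Q, ∀ b ∈ Q, a ≠ b → H.Adj a b),
            (∑ v ∈ Q, μ v) ^ (k + 1)
          ≤ ∑ _Q ∈ Finset.univ.filter (fun Q : Finset V => ∀ a ∈ Q, ∀ b ∈ Q, a ≠ b → H.Adj a b),
            (1 / X) ^ (k + 1) := by
            refine Finset.sum_le_sum fun Q hQm => ?_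
            apply pow_le_pow_left₀ (Finset.sum_nonneg fun v _ => hμ v)
            rw [← Finset.sum_div]
            exact div_le_div_of_nonneg_right (hQ Q (Finset.mem_filter.1 hQm).2) hX0.le
        _ = ((Finset.univ.filter (fun Q : Finset V =>
              ∀ a ∈ Q, ∀ b ∈ Q, a ≠ b → H.Adj a b)).card : ℝ) * (1 / X) ^ (k + 1) := by
            rw [Finset.sum_const, nsmul_eq_mul]
        _ ≤ 2 ^ Fintype.card V * (1 / X) ^ (k + 1) := by
            apply mul_le_mul_of_nonneg_right _ (by positivity)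
            have := Finset.card_le_univ (Finset.univ.filter (fun Q : Finset V =>
              ∀ a ∈ Q, ∀ b ∈ Q, a ≠ b → H.Adj a b))
            rw [Fintype.card_finset] at this
            exact_mod_cast this
  have hr : c / X < 1 := (div_lt_one hX0).2 hcx
  obtain ⟨k, hk⟩ := exists_pow_lt_of_lt_one
    (show 0 < 1 / (2 ^ Fintype.card V * (1 / X)) by positivity) hr
  have hq2 : c ^ k * cliqueProb H μ k < 1 := by
    calc c ^ k * cliqueProb H μ k ≤ c ^ k * (2 ^ Fintype.card V * (1 / X) ^ (k + 1)) :=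
          mul_le_mul_of_nonneg_left (hq k) (by positivity)
      _ = (c / X) ^ k * (2 ^ Fintype.card V * (1 / X)) := by
          have e1 : (1 / X) ^ (k + 1) = (1 / X ^ k) * (1 / X) := by
            rw [pow_succ, one_div_pow]
          rw [e1, div_pow]
          ring
      _ < 1 / (2 ^ Fintype.card V * (1 / X)) * (2 ^ Fintype.card V * (1 / X)) :=
          mul_lt_mul_of_pos_right hk (by positivity)
      _ = 1 := by
          field_simp
  obtain ⟨C, hC⟩ := hg k
  exact capacity_criterion H μ hμ hμ1 k c hc hq2 C hC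

end Pool.Agent.W_79d227_h9
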