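import Pool.Agent.W_79d227_h9.Defs

/-!
# Every graph with independence number at most `k ≠ 3` sits in a Cayley graph of `F_2^m` with
independence number at most `k`
-/

set_option autoImplicit false

namespace Pool.Agent.W_79d227_h9

section CubeAux

variable {m : ℕ}

/-- the basis vector -/
private def ca (u : Fin m) : Fin m → ZMod 2 := Pi.single u 1

private theorem ca_apply (u x : Fin m) : ca u x = if x = u then 1 else 0 := by
  simp [ca, Pi.single_apply]

private theorem z2_self (x : Fin m → ZMod 2) : x + x = 0 := by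
  funext i
  exact CharTwo.add_self_eq_zero (x i)

private theorem z2_neg (x : Fin m → ZMod 2) : -x = x := by
  funext i
  exact CharTwo.neg_eq (x i)

private theorem z2_sub (x y : Fin m → ZMod 2) : x - y = x + y := by
  rw [sub_eq_add_neg, z2_neg]

private theorem ca_inj {u v : Fin m} (h : ca u = ca v) : u = v := by
  have := congrFun h u
  rw [ca_apply, ca_apply] at this
  by_contra hne
  simp [hne] at this

private theorem mem_of_one {u v p : Fin m} (h : ca u p + ca v p = 1) : p = u ∨ p = v := by
  by_contra hne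
  push Not at hne
  rw [ca_apply, ca_apply, if_neg hne.1, if_neg hne.2] at h
  simp at h

private theorem ca_pair {u v p q : Fin m} (hpq : p ≠ q) (h : ca p + ca q = ca u + ca v) :
    (p = u ∧ q = v) ∨ (p = v ∧ q = u) := by
  have h1 : ca u p + ca v p = 1 := by
    have := congrFun h p
    rw [Pi.add_apply, Pi.add_apply, ca_apply p p, if_pos rfl, ca_apply q p, if_neg hpq] at this
    rw [← this, add_zero]
  have h2 : ca u q + ca v q = 1 := by
    have := congrFun h q
    rw [Pi.add_apply, Pi.add_apply, ca_apply p q, if_neg hpq.symm, ca_apply q q, if_pos rfl] at this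
    rw [← this, zero_add]
  rcases mem_of_one h1 with h1 | h1 <;> rcases mem_of_one h2 with h2 | h2
  · exact absurd (h1.trans h2.symm) hpq
  · exact Or.inl ⟨h1, h2⟩
  · exact Or.inr ⟨h1, h2⟩
  · exact absurd (h1.trans h2.symm) hpq

/-- four distinct basis vectors do not add up to a sum of two -/
private theorem ca_four {p q r s u v : Fin m} (hpq : p ≠ q) (hpr : p ≠ r) (hps : p ≠ s)
    (hqr : q ≠ r) (hqs : q ≠ s) (hrs : r ≠ s)
    (h : ca p + ca q + ca r + ca s = ca u + ca v) : False := by
  have h1 : ca u p + ca v p = 1 := by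
    have := congrFun h p
    simp only [Pi.add_apply, ca_apply p p, ca_apply q p, ca_apply r p, ca_apply s p, if_neg hpq,
      if_neg hpr, if_neg hps, if_true, add_zero] at this
    exact this.symm
  have h2 : ca u q + ca v q = 1 := by
    have := congrFun h q
    simp only [Pi.add_apply, ca_apply p q, ca_apply q q, ca_apply r q, ca_apply s q,
      if_neg hpq.symm, if_neg hqr, if_neg hqs, if_true, add_zero, zero_add] at this
    exact this.symm
  have h3 : ca u r + ca v r = 1 := by
    have := congrFun h r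
    simp only [Pi.add_apply, ca_apply p r, ca_apply q r, ca_apply r r, ca_apply s r,
      if_neg hpr.symm, if_neg hqr.symm, if_neg hrs, if_true, add_zero, zero_add] at this
    exact this.symm
  rcases mem_of_one h1 with h1 | h1 <;> rcases mem_of_one h2 with h2 | h2 <;>
    rcases mem_of_one h3 with h3 | h3 <;> subst_vars <;> simp_all

/-- the sums of two linked basis vectors -/
private def cD (G : SimpleGraph (Fin m)) : Set (Fin m → ZMod 2) :=
  {x | ∃ u v, u ≠ v ∧ ¬ G.Adj u v ∧ x = ca u + ca v}

private theorem cD_iff (G : SimpleGraph (Fin m)) {p q : Fin m} (hpq : p ≠ q) :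
    ca p + ca q ∈ cD G ↔ ¬ G.Adj p q := by
  constructor
  · rintro ⟨u, v, _, hG, h⟩
    rcases ca_pair hpq h with ⟨rfl, rfl⟩ | ⟨rfl, rfl⟩
    · exact hG
    · exact fun h' => hG h'.symm
  · intro h
    exact ⟨p, q, hpq, h, rfl⟩

private theorem adj_iff (G : SimpleGraph (Fin m)) (x y : Fin m → ZMod 2) :
    (SimpleGraph.circulantGraph (cD G)ᶜ).Adj x y ↔ x ≠ y ∧ x + y ∉ cD G := by
  simp only [SimpleGraph.circulantGraph, SimpleGraph.fromRel_adj, z2_sub, Set.mem_compl_iff,
    add_comm y x, or_self]

/-- the members of an independent set on a sphere of radius one -/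
private theorem sphere_card {k : ℕ} (G : SimpleGraph (Fin m)) (hG : AlphaLE G k)
    (T : Finset (Fin m → ZMod 2)) (hT : ∀ x ∈ T, ∀ y ∈ T, x ≠ y → x + y ∈ cD G)
    (y : Fin m → ZMod 2) (S : Finset (Fin m → ZMod 2)) (hST : S ⊆ T)
    (hS : ∀ x ∈ S, ∃ w, x = y + ca w) : S.card ≤ k := by
  classical
  have h1 : S ⊆ (Finset.univ.filter (fun w : Fin m => y + ca w ∈ T)).image
      (fun w => y + ca w) := by
    intro x hx
    obtain ⟨w, hw⟩ := hS x hx
    refine Finset.mem_image.2 ⟨w, Finset.mem_filter.2 ⟨Finset.mem_univ _, ?_⟩, hw.symm⟩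
    rw [← hw]
    exact hST hx
  refine (Finset.card_le_card h1).trans (Finset.card_image_le.trans ?_)
  apply hG
  intro a ha b hb hab
  have ha := (Finset.mem_filter.1 ha).2
  have hb := (Finset.mem_filter.1 hb).2
  have hne : y + ca a ≠ y + ca b := fun h => hab (ca_inj (add_left_cancel h))
  have h2 := hT _ ha _ hb hne
  have h3 : y + ca a + (y + ca b) = ca a + ca b := by
    have : y + ca a + (y + ca b) = (y + y) + (ca a + ca b) := by abel
    rw [this, z2_self, zero_add]
  rw [h3] at h2
  exact (cD_iff G hab).1 h2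

/-- three members of an independent set lie on a common sphere of radius one -/
private theorem three_sphere (G : SimpleGraph (Fin m)) {x y z : Fin m → ZMod 2}
    (hxy : x + y ∈ cD G) (hxz : x + z ∈ cD G) (hyz : y + z ∈ cD G) :
    ∃ c a b d, x = c + ca a ∧ y = c + ca b ∧ z = c + ca d := by
  obtain ⟨p, q, hpq, _, h1⟩ := hxy
  obtain ⟨r, s, hrs, _, h2⟩ := hxz
  obtain ⟨u, v, huv, _, h3⟩ := hyz
  have hy : y = x + (ca p + ca q) := by
    rw [← h1, ← add_assoc, z2_self, zero_add]
  have hz : z = x + (ca r + ca s) := by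
    rw [← h2, ← add_assoc, z2_self, zero_add]
  have h4 : ca p + ca q + ca r + ca s = ca u + ca v := by
    rw [← h3, hy, hz]
    have : x + (ca p + ca q) + (x + (ca r + ca s)) = (x + x) + (ca p + ca q + ca r + ca s) := by
      abel
    rw [this, z2_self, zero_add]
  have key : ∀ a b d : Fin m, y = x + (ca a + ca b) → z = x + (ca a + ca d) →
      ∃ c a b d, x = c + ca a ∧ y = c + ca b ∧ z = c + ca d := by
    intro a b d hy hz
    refine ⟨x + ca a, a, b, d, ?_, ?_, ?_⟩
    · rw [add_assoc, z2_self, add_zero]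
    · rw [hy, add_assoc]
    · rw [hz, add_assoc]
  by_cases hpr : p = r
  · subst hpr; exact key p q s hy hz
  by_cases hps : p = s
  · subst hps; exact key p q r hy (by rw [hz, add_comm (ca r)])
  by_cases hqr : q = r
  · subst hqr; exact key q p s (by rw [hy, add_comm (ca p)]) hz
  by_cases hqs : q = s
  · subst hqs; exact key q p r (by rw [hy, add_comm (ca p)]) (by rw [hz, add_comm (ca r)])
  exact (ca_four hpq hpr hps hqr hqs hrs h4).elim

/-- a point at distance two from three points `y + ca w_i` of a sphere is on the sphere or is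
`y + ca w₀ + ca w₁ + ca w₂` -/
private theorem fourth_point {z : Fin m → ZMod 2} {w₀ w₁ w₂ : Fin m} (h01 : w₀ ≠ w₁)
    (h02 : w₀ ≠ w₂) (h12 : w₁ ≠ w₂)
    (h0 : ∃ u v, u ≠ v ∧ z + ca w₀ = ca u + ca v) (h1 : ∃ u v, u ≠ v ∧ z + ca w₁ = ca u + ca v)
    (h2 : ∃ u v, u ≠ v ∧ z + ca w₂ = ca u + ca v) :
    (∃ w, z = ca w) ∨ z = ca w₀ + ca w₁ + ca w₂ := by
  obtain ⟨u, v, huv, h0⟩ := h0
  have hz : z = ca w₀ + ca u + ca v := by
    have : z + ca w₀ + ca w₀ = ca u + ca v + ca w₀ := by rw [h0]
    rw [add_assoc, z2_self, add_zero] at this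
    rw [this]; abel
  by_cases hu : w₀ = u
  · left
    exact ⟨v, by rw [hz, ← hu, z2_self, zero_add]⟩
  by_cases hv : w₀ = v
  · left
    refine ⟨u, ?_⟩
    rw [hz, ← hv, add_assoc, add_comm (ca u), ← add_assoc, z2_self, zero_add]
  right
  have hmem : ∀ w : Fin m, w₀ ≠ w → (∃ u v, u ≠ v ∧ z + ca w = ca u + ca v) → w = u ∨ w = v := by
    rintro w hw ⟨u', v', _, h⟩
    by_contra hne
    push Not at hne
    rw [hz] at h
    exact ca_four hu hv hw huv hne.1.symm hne.2.symm h
  rcases hmem w₁ h01 h1 with h | h <;> rcases hmem w₂ h02 h2 with h' | h'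
  · exact absurd (h.trans h'.symm) h12
  · rw [hz, h, h']
  · rw [hz, h, h']; abel
  · exact absurd (h.trans h'.symm) h12

end CubeAux

/-- The cube cover.
PROOF. `A := Fin m → ZMod 2` (so `-x = x`), `a u := Pi.single u 1`,
`D := {a u + a v | u ≠ v, ¬ G.Adj u v}`, `s := Dᶜ`; distinct `x, y` are non-adjacent in
`circulantGraph s` iff `x - y ∈ D` (`D` symmetric), so `a` is an induced embedding. The members of
an independent set `T` on a sphere `y + a w` (`w` arbitrary) give an independent set of `G`
(`sphere_card`). Three members of `T` lie on a common sphere (`three_sphere`); a fourth member lies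
on the same sphere or is the antipode `y + a w₀ + a w₁ + a w₂` (`fourth_point`), and with the
antipode `T` has exactly four members and `3 ≤ k`, `k ≠ 3`. -/
theorem cube_cover_emb {k : ℕ} (hk : 1 ≤ k) (hk3 : k ≠ 3) {m : ℕ} (G : SimpleGraph (Fin m))
    (hG : AlphaLE G k) :
    ∃ s : Set (Fin m → ZMod 2), AlphaLE (SimpleGraph.circulantGraph s) k ∧
      Nonempty (G ↪g SimpleGraph.circulantGraph s) := by
  classical
  refine ⟨(cD G)ᶜ, ?_, ⟨⟨⟨ca, fun u v h => ca_inj h⟩, ?_⟩⟩⟩
  · intro T hT
    have hT' : ∀ x ∈ T, ∀ y ∈ T, x ≠ y → x + y ∈ cD G := by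
      intro x hx y hy hxy
      have := hT x hx y hy hxy
      rw [adj_iff] at this
      by_contra hc
      exact this ⟨hxy, hc⟩
    rcases Nat.lt_or_ge T.card 3 with hlt | hge
    · -- at most two members
      rcases Nat.lt_or_ge T.card 2 with h1 | h1
      · omega
      · obtain ⟨x, y, hxy, hTe⟩ := Finset.card_eq_two.1 (by omega : T.card = 2)
        have hx : x ∈ T := by rw [hTe]; simp
        have hy : y ∈ T := by rw [hTe]; simp
        obtain ⟨p, q, hpq, hG', h⟩ := hT' x hx y hy hxy
        have hyx : y = x + (ca p + ca q) := by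
          rw [← h, ← add_assoc, z2_self, zero_add]
        refine sphere_card G hG T hT' (x + ca p) T (Finset.Subset.refl T) ?_
        intro z hz
        rw [hTe, Finset.mem_insert, Finset.mem_singleton] at hz
        rcases hz with rfl | rfl
        · exact ⟨p, by rw [add_assoc, z2_self, add_zero]⟩
        · exact ⟨q, by rw [hyx, add_assoc]⟩
    · obtain ⟨S, hST, hS⟩ := Finset.exists_subset_card_eq hge
      obtain ⟨x₀, x₁, x₂, h01, h02, h12, hSe⟩ := Finset.card_eq_three.1 hS
      have hx0 : x₀ ∈ T := hST (by rw [hSe]; simp)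
      have hx1 : x₁ ∈ T := hST (by rw [hSe]; simp)
      have hx2 : x₂ ∈ T := hST (by rw [hSe]; simp)
      obtain ⟨c, w₀, w₁, w₂, e0, e1, e2⟩ := three_sphere G (hT' _ hx0 _ hx1 h01)
        (hT' _ hx0 _ hx2 h02) (hT' _ hx1 _ hx2 h12)
      have hk4 : 3 ≤ k := by
        rw [← hS]
        refine sphere_card G hG T hT' c S hST ?_
        intro x hx
        rw [hSe, Finset.mem_insert, Finset.mem_insert, Finset.mem_singleton] at hx
        rcases hx with rfl | rfl | rfl
        exacts [⟨_, e0⟩, ⟨_, e1⟩, ⟨_, e2⟩]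
      by_cases hsph : ∀ x ∈ T, ∃ w, x = c + ca w
      · exact sphere_card G hG T hT' c T (Finset.Subset.refl T) hsph
      · push Not at hsph
        obtain ⟨x, hx, hxs⟩ := hsph
        have hw01 : w₀ ≠ w₁ := fun h => h01 (by rw [e0, e1, h])
        have hw02 : w₀ ≠ w₂ := fun h => h02 (by rw [e0, e2, h])
        have hw12 : w₁ ≠ w₂ := fun h => h12 (by rw [e1, e2, h])
        have hlink : ∀ x ∈ T, (∀ w, x ≠ c + ca w) → ∀ w, c + ca w ∈ T →
            ∃ u v, u ≠ v ∧ (x + c) + ca w = ca u + ca v := by
          intro x hx hxs w hw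
          obtain ⟨u, v, huv, _, h⟩ := hT' x hx _ hw (hxs w)
          exact ⟨u, v, huv, by rw [← h]; abel⟩
        have hanti : ∀ x ∈ T, (∀ w, x ≠ c + ca w) → x + c = ca w₀ + ca w₁ + ca w₂ := by
          intro x hx hxs
          rcases fourth_point hw01 hw02 hw12 (hlink x hx hxs w₀ (e0 ▸ hx0))
            (hlink x hx hxs w₁ (e1 ▸ hx1)) (hlink x hx hxs w₂ (e2 ▸ hx2)) with ⟨w, hw⟩ | h
          · exfalso
            apply hxs w
            rw [← hw, add_comm x, ← add_assoc, z2_self, zero_add]
          · exact h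
        have hxa := hanti x hx hxs
        have hsub : T ⊆ {x, x₀, x₁, x₂} := by
          intro z hz
          by_cases hzs : ∃ w, z = c + ca w
          · obtain ⟨w, hw⟩ := hzs
            by_contra hne
            simp only [Finset.mem_insert, Finset.mem_singleton, not_or] at hne
            have n0 : w₀ ≠ w := fun h => hne.2.1 (by rw [hw, e0, h])
            have n1 : w₁ ≠ w := fun h => hne.2.2.1 (by rw [hw, e1, h])
            have n2 : w₂ ≠ w := fun h => hne.2.2.2 (by rw [hw, e2, h])
            obtain ⟨u, v, _, h⟩ := hlink x hx hxs w (hw ▸ hz)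
            rw [hxa] at h
            exact ca_four hw01 hw02 n0 hw12 n1 n2 h
          · push Not at hzs
            have hza := hanti z hz hzs
            have : z = x := by
              have h' : z + c = x + c := by rw [hza, hxa]
              exact add_right_cancel h'
            rw [this]; simp
        have hc4 : T.card ≤ 4 := (Finset.card_le_card hsub).trans Finset.card_le_four
        omega
  · intro u v
    change (SimpleGraph.circulantGraph (cD G)ᶜ).Adj (ca u) (ca v) ↔ G.Adj u v
    rw [adj_iff]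
    constructor
    · rintro ⟨hne, h⟩
      have huv : u ≠ v := fun h' => hne (by rw [h'])
      rw [cD_iff G huv, not_not] at h
      exact h
    · intro h
      refine ⟨fun h' => h.ne (ca_inj h'), ?_⟩
      rw [cD_iff G h.ne, not_not]
      exact h

/-- The cube cover in the cohomomorphism order. -/
theorem cube_cover {k : ℕ} (hk : 1 ≤ k) (hk3 : k ≠ 3) {m : ℕ} (G : SimpleGraph (Fin m))
    (hG : AlphaLE G k) :
    ∃ s : Set (Fin m → ZMod 2), AlphaLE (SimpleGraph.circulantGraph s) k ∧
      GLe G (SimpleGraph.circulantGraph s) := by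
  obtain ⟨s, hs, ⟨f⟩⟩ := cube_cover_emb hk hk3 G hG
  refine ⟨s, hs, f, ?_⟩
  intro a b hab hadj
  exact ⟨fun h => hab (f.injective h), fun h => hadj (f.map_adj_iff.1 h)⟩

end Pool.Agent.W_79d227_h9
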