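import Mathlib

/-!
# Definitions for the universal spectral point theorem (MP_79d227_co)
-/

set_option autoImplicit false

namespace Pool.Agent.W_79d227_h9

/-- `f` sends distinct non-adjacent vertices to distinct non-adjacent vertices
(a cohomomorphism `G ≤ H`). -/
def CoHom {V W : Type} (G : SimpleGraph V) (H : SimpleGraph W) (f : V → W) : Prop :=
  ∀ a b, a ≠ b → ¬ G.Adj a b → f a ≠ f b ∧ ¬ H.Adj (f a) (f b)

/-- `G ≤ H` in the cohomomorphism preorder. -/
def GLe {V W : Type} (G : SimpleGraph V) (H : SimpleGraph W) : Prop := ∃ f : V → W, CoHom G H f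

/-- The strong product. -/
def strong {V W : Type} (G : SimpleGraph V) (H : SimpleGraph W) : SimpleGraph (V × W) where
  Adj x y := x ≠ y ∧ (x.1 = y.1 ∨ G.Adj x.1 y.1) ∧ (x.2 = y.2 ∨ H.Adj x.2 y.2)
  symm := ⟨fun _ _ h =>
    ⟨h.1.symm, h.2.1.imp Eq.symm fun h => h.symm, h.2.2.imp Eq.symm fun h => h.symm⟩⟩
  loopless := ⟨fun _ h => h.1 rfl⟩

/-- A spectral point of finite graphs: a real function of finite graphs which is `n` on the graph
with `n` vertices and no edges, additive under disjoint unions, multiplicative under strong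
products and monotone under cohomomorphisms. -/
structure IsSpectral (φ : ∀ (V : Type) [Fintype V], SimpleGraph V → ℝ) : Prop where
  edgeless : ∀ n : ℕ, φ (Fin n) ⊥ = n
  sum : ∀ (V W : Type) [Fintype V] [Fintype W] (G : SimpleGraph V) (H : SimpleGraph W),
    φ (V ⊕ W) (G ⊕g H) = φ V G + φ W H
  prod : ∀ (V W : Type) [Fintype V] [Fintype W] (G : SimpleGraph V) (H : SimpleGraph W),
    φ (V × W) (strong G H) = φ V G * φ W H
  mono : ∀ (V W : Type) [Fintype V] [Fintype W] (G : SimpleGraph V) (H : SimpleGraph W),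
    GLe G H → φ V G ≤ φ W H

/-- the independence number of `G` is at most `k` (as in the frozen statement) -/
def AlphaLE {V : Type} (G : SimpleGraph V) (k : ℕ) : Prop :=
  ∀ T : Finset V, (∀ a ∈ T, ∀ b ∈ T, a ≠ b → ¬ G.Adj a b) → T.card ≤ k

/-- the Shannon capacity of `G` is at most `C`: for every `n` each independent set of the `n`-th
strong power has at most `C ^ n` elements (as in the frozen statement) -/
def ShannonLE {V : Type} (G : SimpleGraph V) (C : ℝ) : Prop :=
  ∀ (n : ℕ) (S : Finset (Fin n → V)),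
    (∀ x ∈ S, ∀ y ∈ S, x ≠ y → ∃ i : Fin n, x i ≠ y i ∧ ¬ G.Adj (x i) (y i)) →
    (S.card : ℝ) ≤ C ^ n

end Pool.Agent.W_79d227_h9
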