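import Pool.Agent.W_79d227_h9.Final

set_option autoImplicit false

namespace Pool.Agent.W_79d227_h9.EquivForms

open Pool.Agent.W_79d227_h9 SimpleGraph

/-- For every `k ≥ 1` and every constant `C`, five equivalent forms of the bound `C` for the
Shannon capacity of the graphs with independence number at most `k`. -/
theorem result (k : ℕ) (hk : 1 ≤ k) :
    ∃ s₀ : Set ℤ, AlphaLE (circulantGraph s₀) k ∧
      (∀ (V : Type) [Fintype V] (G : SimpleGraph V), AlphaLE G k →
        Nonempty (G ↪g circulantGraph s₀)) ∧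
      ∀ C : ℝ, List.TFAE [
        ∀ (V : Type) [Fintype V] (G : SimpleGraph V), AlphaLE G k → ShannonLE G C,
        ∀ (p : ℕ) [Fact p.Prime] (s : Set (ZMod p)),
          AlphaLE (circulantGraph s) k → ShannonLE (circulantGraph s) C,
        ShannonLE (circulantGraph s₀) C,
        ∃ φ : ∀ (V : Type) [Fintype V], SimpleGraph V → ℝ, IsSpectral φ ∧
          ∀ (V : Type) [Fintype V] (G : SimpleGraph V), AlphaLE G k → φ V G ≤ C,
        ∃ φ : ∀ (V : Type) [Fintype V], SimpleGraph V → ℝ, IsSpectral φ ∧
          ∀ (p : ℕ) [Fact p.Prime] (s : Set (ZMod p)),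
            AlphaLE (circulantGraph s) k → φ (ZMod p) (circulantGraph s) ≤ C] :=
  tfae_main k hk

end Pool.Agent.W_79d227_h9.EquivForms
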