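import Pool.Agent.W_79d227_h9.Univ

/-!
# Equivalent forms of the boundedness of the Shannon capacity by the independence number
-/

set_option autoImplicit false

namespace Pool.Agent.W_79d227_h9

open SimpleGraph

theorem tfae_main (k : ℕ) (hk : 1 ≤ k) :
    ∃ s₀ : Set ℤ, AlphaLE (circulantGraph s₀) k ∧
      (∀ (V : Type) [Fintype V] (G : SimpleGraph V), AlphaLE G k →
        Nonempty (G ↪g circulantGraph s₀)) ∧
      ∀ C : ℝ, List.TFAE [
        ∀ (V : Type) [Fintype V] (G : SimpleGraph V), AlphaLE G k → ShannonLE G C,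
        ∀ (p : ℕ) [Fact p.Prime] (s : Set (ZMod p)),
          AlphaLE (circulantGraph s) k → ShannonLE (circulantGraph s) C,
        ShannonLE (circulantGraph s₀) C,
        ∃ φ : ∀ (V : Type) [Fintype V], SimpleGraph V → ℝ, IsSpectral φ ∧
          ∀ (V : Type) [Fintype V] (G : SimpleGraph V), AlphaLE G k → φ V G ≤ C,
        ∃ φ : ∀ (V : Type) [Fintype V], SimpleGraph V → ℝ, IsSpectral φ ∧
          ∀ (p : ℕ) [Fact p.Prime] (s : Set (ZMod p)),
            AlphaLE (circulantGraph s) k → φ (ZMod p) (circulantGraph s) ≤ C] := by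
  obtain ⟨s₀, hs1, hs2⟩ := exists_universal hk
  refine ⟨s₀, hs1, hs2, fun C => ?_⟩
  tfae_have 1 → 4 := (alpha_class k C).1
  tfae_have 4 → 5 := by
    rintro ⟨φ, hφ, h⟩
    exact ⟨φ, hφ, fun p _ s hs => h _ _ hs⟩
  tfae_have 5 → 2 := by
    rintro ⟨φ, hφ, h⟩ p _ s hs
    exact hφ.shannonLE (h p s hs)
  tfae_have 2 → 1 := by
    intro h V _ G hG
    set n := Fintype.card V
    obtain ⟨p, hp1, hp2⟩ := Nat.exists_infinite_primes (27 * n ^ 6)
    haveI : Fact p.Prime := ⟨hp2⟩
    let e := Fintype.equivFin V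
    let G' : SimpleGraph (Fin n) := G.comap e.symm
    have h1 := gle_of_equiv (G := G) (H := G') e (fun a b => by simp [G'])
    have hG' : AlphaLE G' k := hG.mono h1.2
    obtain ⟨s, hs, hemb⟩ := exists_circulant hk hp1 G' hG'
    exact ((h p s hs).mono (gle_of_emb hemb)).mono h1.1
  tfae_have 1 → 3 := shannonLE_of_finite hs1
  tfae_have 3 → 1 := fun h V _ G hG => h.mono (gle_of_emb (hs2 V G hG))
  tfae_finish

theorem shannonLE_zero {V : Type} {G : SimpleGraph V} (hG : AlphaLE G 0) : ShannonLE G 1 := by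
  have hV : IsEmpty V := by
    refine ⟨fun v => ?_⟩
    have := hG {v} (by simp)
    simp at this
  intro n S _
  rcases n with _ | n
  · have : S.card ≤ 1 := by
      have := Finset.card_le_univ S
      simpa using this
    simpa using this
  · have h1 : S = ∅ := by
      apply Finset.eq_empty_of_forall_notMem
      intro x _
      exact hV.elim (x 0)
    rw [h1]
    simp

theorem question_iff :
    (∃ g : ℕ → ℝ, ∀ (V : Type) [Fintype V] (G : SimpleGraph V) (k : ℕ),
      AlphaLE G k → ShannonLE G (g k)) ↔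
    ∀ k : ℕ, 1 ≤ k → ∃ C : ℝ, ∀ (V : Type) [Fintype V] (G : SimpleGraph V),
      AlphaLE G k → ShannonLE G C := by
  constructor
  · rintro ⟨g, hg⟩ k _
    exact ⟨g k, fun V _ G hG => hg V G k hG⟩
  · intro h
    choose! C hC using h
    refine ⟨fun k => if k = 0 then 1 else C k, fun V _ G k hG => ?_⟩
    rcases Nat.eq_zero_or_pos k with rfl | hk
    · simpa using shannonLE_zero hG
    · simp only [hk.ne', if_false]
      exact hC k hk V G hG

end Pool.Agent.W_79d227_h9
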