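import Pool.Agent.W_79d227_h9.Defs

/-!
# The ordered semiring of finite graphs
-/

set_option autoImplicit false

namespace Pool.Agent.W_79d227_h9

section basic

variable {V W V' W' U : Type} {G : SimpleGraph V} {H : SimpleGraph W} {G' : SimpleGraph V'}
  {H' : SimpleGraph W'} {I : SimpleGraph U}

theorem GLe.refl (G : SimpleGraph V) : GLe G G := ⟨id, fun _ _ h1 h2 => ⟨h1, h2⟩⟩

theorem GLe.trans (h1 : GLe G H) (h2 : GLe H I) : GLe G I := by
  obtain ⟨f, hf⟩ := h1
  obtain ⟨g, hg⟩ := h2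
  exact ⟨g ∘ f, fun a b hab hn => hg _ _ (hf a b hab hn).1 (hf a b hab hn).2⟩

theorem gle_of_equiv (e : V ≃ W) (h : ∀ a b, G.Adj a b ↔ H.Adj (e a) (e b)) :
    GLe G H ∧ GLe H G := by
  refine ⟨⟨e, fun a b hab hn => ⟨fun h1 => hab (e.injective h1), fun h1 => hn ((h a b).2 h1)⟩⟩,
    ⟨e.symm, fun a b hab hn => ⟨fun h1 => hab (e.symm.injective h1), fun h1 => hn ?_⟩⟩⟩
  have := (h (e.symm a) (e.symm b)).1 h1
  simpa using this

theorem GLe.sum (h1 : GLe G G') (h2 : GLe H H') : GLe (G ⊕g H) (G' ⊕g H') := by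
  obtain ⟨f, hf⟩ := h1
  obtain ⟨g, hg⟩ := h2
  refine ⟨Sum.map f g, ?_⟩
  rintro (a | a) (b | b) hab hn
  · have h1 : a ≠ b := fun h => hab (by rw [h])
    have h2 : ¬ G.Adj a b := by simpa using hn
    have := hf a b h1 h2
    refine ⟨fun h => this.1 (by simpa using h), by simpa using this.2⟩
  · exact ⟨by simp, by simp⟩
  · exact ⟨by simp, by simp⟩
  · have h1 : a ≠ b := fun h => hab (by rw [h])
    have h2 : ¬ H.Adj a b := by simpa using hn
    have := hg a b h1 h2
    refine ⟨fun h => this.1 (by simpa using h), by simpa using this.2⟩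

theorem not_strong_adj {x y : V × W} (hxy : x ≠ y) (h : ¬ (strong G H).Adj x y) :
    (x.1 ≠ y.1 ∧ ¬ G.Adj x.1 y.1) ∨ (x.2 ≠ y.2 ∧ ¬ H.Adj x.2 y.2) := by
  by_contra hcon
  push Not at hcon
  apply h
  refine ⟨hxy, ?_, ?_⟩
  · by_contra h1
    push Not at h1
    exact h1.2 (hcon.1 h1.1)
  · by_contra h1
    push Not at h1
    exact h1.2 (hcon.2 h1.1)

theorem not_strong_adj' {x y : V × W}
    (h : (x.1 ≠ y.1 ∧ ¬ G.Adj x.1 y.1) ∨ (x.2 ≠ y.2 ∧ ¬ H.Adj x.2 y.2)) :
    x ≠ y ∧ ¬ (strong G H).Adj x y := by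
  rcases h with h | h
  · exact ⟨fun e => h.1 (by rw [e]), fun e => (e.2.1).elim h.1 h.2⟩
  · exact ⟨fun e => h.1 (by rw [e]), fun e => (e.2.2).elim h.1 h.2⟩

theorem GLe.strong (h1 : GLe G G') (h2 : GLe H H') : GLe (strong G H) (strong G' H') := by
  obtain ⟨f, hf⟩ := h1
  obtain ⟨g, hg⟩ := h2
  refine ⟨Prod.map f g, fun x y hxy hn => not_strong_adj' ?_⟩
  rcases not_strong_adj hxy hn with h | h
  · exact Or.inl (hf _ _ h.1 h.2)
  · exact Or.inr (hg _ _ h.1 h.2)

end basic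

/-- bundled finite graphs -/
structure FG : Type 1 where
  /-- vertices -/
  V : Type
  /-- finiteness -/
  fin : Fintype V
  /-- the graph -/
  G : SimpleGraph V

/-- bundling -/
def mkG {V : Type} [i : Fintype V] (G : SimpleGraph V) : FG := ⟨V, i, G⟩

instance FG.setoid : Setoid FG where
  r A B := GLe A.G B.G ∧ GLe B.G A.G
  iseqv := ⟨fun A => ⟨GLe.refl _, GLe.refl _⟩, fun h => ⟨h.2, h.1⟩,
    fun h h' => ⟨h.1.trans h'.1, h'.2.trans h.2⟩⟩

/-- sum of bundled graphs -/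
def FG.add (A B : FG) : FG :=
  letI := A.fin
  letI := B.fin
  ⟨A.V ⊕ B.V, inferInstance, A.G ⊕g B.G⟩

/-- product of bundled graphs -/
def FG.mul (A B : FG) : FG :=
  letI := A.fin
  letI := B.fin
  ⟨A.V × B.V, inferInstance, strong A.G B.G⟩

/-- edgeless bundled graph -/
def FG.nat (n : ℕ) : FG := ⟨Fin n, inferInstance, ⊥⟩

/-- the semiring of finite graphs modulo equivalence -/
def GS : Type 1 := Quotient FG.setoid

namespace GS

/-- the class -/
def mk (A : FG) : GS := Quotient.mk _ A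

theorem mk_eq {A B : FG} (h1 : GLe A.G B.G) (h2 : GLe B.G A.G) : mk A = mk B :=
  Quotient.sound (s := FG.setoid) ⟨h1, h2⟩

theorem mk_eq_of_equiv {A B : FG} (e : A.V ≃ B.V) (h : ∀ a b, A.G.Adj a b ↔ B.G.Adj (e a) (e b)) :
    mk A = mk B := mk_eq (gle_of_equiv e h).1 (gle_of_equiv e h).2

theorem ind {p : GS → Prop} (h : ∀ A : FG, p (mk A)) (x : GS) : p x :=
  Quotient.ind (s := FG.setoid) h x

instance : Add GS := ⟨Quotient.map₂ FG.add fun _ _ h _ _ h' => ⟨h.1.sum h'.1, h.2.sum h'.2⟩⟩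

instance : Mul GS := ⟨Quotient.map₂ FG.mul fun _ _ h _ _ h' => ⟨h.1.strong h'.1, h.2.strong h'.2⟩⟩

instance : NatCast GS := ⟨fun n => mk (FG.nat n)⟩

instance : Zero GS := ⟨mk (FG.nat 0)⟩

instance : One GS := ⟨mk (FG.nat 1)⟩

theorem mk_add (A B : FG) : mk (A.add B) = mk A + mk B := rfl

theorem mk_mul (A B : FG) : mk (A.mul B) = mk A * mk B := rfl

theorem zero_def : (0 : GS) = mk (FG.nat 0) := rfl

theorem one_def : (1 : GS) = mk (FG.nat 1) := rfl

theorem nat_def (n : ℕ) : (n : GS) = mk (FG.nat n) := rfl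

protected theorem add_comm' (x y : GS) : x + y = y + x := by
  induction x using ind with | _ A => ?_
  induction y using ind with | _ B => ?_
  rw [← mk_add, ← mk_add]
  refine mk_eq_of_equiv (Equiv.sumComm A.V B.V) ?_
  rintro (a | a) (b | b) <;> exact Iff.rfl

protected theorem add_assoc' (x y z : GS) : x + y + z = x + (y + z) := by
  induction x using ind with | _ A => ?_
  induction y using ind with | _ B => ?_
  induction z using ind with | _ C => ?_
  rw [← mk_add, ← mk_add, ← mk_add, ← mk_add]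
  refine mk_eq_of_equiv (Equiv.sumAssoc A.V B.V C.V) ?_
  rintro ((a | a) | a) ((b | b) | b) <;> exact Iff.rfl

protected theorem zero_add' (x : GS) : 0 + x = x := by
  induction x using ind with | _ A => ?_
  rw [zero_def, ← mk_add]
  refine mk_eq_of_equiv (Equiv.emptySum (Fin 0) A.V) ?_
  rintro (a | a) (b | b)
  · exact a.elim0
  · exact a.elim0
  · exact b.elim0
  · exact Iff.rfl

protected theorem mul_comm' (x y : GS) : x * y = y * x := by
  induction x using ind with | _ A => ?_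
  induction y using ind with | _ B => ?_
  rw [← mk_mul, ← mk_mul]
  refine mk_eq_of_equiv (Equiv.prodComm A.V B.V) ?_
  rintro ⟨a, b⟩ ⟨a', b'⟩
  change (¬ (a, b) = (a', b') ∧ (a = a' ∨ A.G.Adj a a') ∧ (b = b' ∨ B.G.Adj b b')) ↔
    (¬ (b, a) = (b', a') ∧ (b = b' ∨ B.G.Adj b b') ∧ (a = a' ∨ A.G.Adj a a'))
  simp only [Prod.mk.injEq]
  tauto

protected theorem mul_assoc' (x y z : GS) : x * y * z = x * (y * z) := by
  induction x using ind with | _ A => ?_
  induction y using ind with | _ B => ?_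
  induction z using ind with | _ C => ?_
  rw [← mk_mul, ← mk_mul, ← mk_mul, ← mk_mul]
  refine mk_eq_of_equiv (Equiv.prodAssoc A.V B.V C.V) ?_
  rintro ⟨⟨a, b⟩, c⟩ ⟨⟨a', b'⟩, c'⟩
  change (¬ ((a, b), c) = ((a', b'), c') ∧ ((a, b) = (a', b') ∨ (¬ (a, b) = (a', b') ∧
      (a = a' ∨ A.G.Adj a a') ∧ (b = b' ∨ B.G.Adj b b'))) ∧ (c = c' ∨ C.G.Adj c c')) ↔
    (¬ (a, b, c) = (a', b', c') ∧ (a = a' ∨ A.G.Adj a a') ∧ ((b, c) = (b', c') ∨
      (¬ (b, c) = (b', c') ∧ (b = b' ∨ B.G.Adj b b') ∧ (c = c' ∨ C.G.Adj c c'))))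
  simp only [Prod.mk.injEq]
  tauto

protected theorem one_mul' (x : GS) : 1 * x = x := by
  induction x using ind with | _ A => ?_
  rw [one_def, ← mk_mul]
  refine mk_eq_of_equiv (Equiv.uniqueProd A.V (Fin 1)) ?_
  rintro ⟨a, b⟩ ⟨a', b'⟩
  have : a = a' := Subsingleton.elim (α := Fin 1) _ _
  subst this
  change (¬ (a, b) = (a, b') ∧ (a = a ∨ _) ∧ (b = b' ∨ A.G.Adj b b')) ↔ A.G.Adj b b'
  simp only [Prod.mk.injEq, true_and, true_or]
  constructor
  · rintro ⟨h1, h2⟩
    exact h2.resolve_left h1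
  · intro h
    exact ⟨h.ne, Or.inr h⟩

protected theorem zero_mul' (x : GS) : 0 * x = 0 := by
  induction x using ind with | _ A => ?_
  rw [zero_def, ← mk_mul]
  refine mk_eq ⟨fun a => a.1, ?_⟩ ⟨fun a => a.elim0, ?_⟩
  · rintro ⟨a, b⟩
    exact a.elim0
  · intro a
    exact a.elim0

protected theorem add_mul' (x y z : GS) : (x + y) * z = x * z + y * z := by
  induction x using ind with | _ A => ?_
  induction y using ind with | _ B => ?_
  induction z using ind with | _ C => ?_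
  rw [← mk_add, ← mk_mul, ← mk_mul, ← mk_mul, ← mk_add]
  refine mk_eq_of_equiv (Equiv.sumProdDistrib A.V B.V C.V) ?_
  rintro ⟨a | a, c⟩ ⟨b | b, c'⟩
  · change (¬ ((Sum.inl a : A.V ⊕ B.V), c) = (Sum.inl b, c') ∧ ((Sum.inl a : A.V ⊕ B.V) = Sum.inl b ∨
      A.G.Adj a b) ∧ (c = c' ∨ C.G.Adj c c')) ↔
      (¬ (a, c) = (b, c') ∧ (a = b ∨ A.G.Adj a b) ∧ (c = c' ∨ C.G.Adj c c'))
    simp only [Prod.mk.injEq, Sum.inl.injEq]
  · change (¬ ((Sum.inl a : A.V ⊕ B.V), c) = (Sum.inr b, c') ∧ ((Sum.inl a : A.V ⊕ B.V) = Sum.inr b ∨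
      (false : Prop)) ∧ (c = c' ∨ C.G.Adj c c')) ↔ (false : Prop)
    simp
  · change (¬ ((Sum.inr a : A.V ⊕ B.V), c) = (Sum.inl b, c') ∧ ((Sum.inr a : A.V ⊕ B.V) = Sum.inl b ∨
      (false : Prop)) ∧ (c = c' ∨ C.G.Adj c c')) ↔ (false : Prop)
    simp
  · change (¬ ((Sum.inr a : A.V ⊕ B.V), c) = (Sum.inr b, c') ∧ ((Sum.inr a : A.V ⊕ B.V) = Sum.inr b ∨
      B.G.Adj a b) ∧ (c = c' ∨ C.G.Adj c c')) ↔
      (¬ (a, c) = (b, c') ∧ (a = b ∨ B.G.Adj a b) ∧ (c = c' ∨ C.G.Adj c c'))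
    simp only [Prod.mk.injEq, Sum.inr.injEq]

theorem nat_succ (n : ℕ) : mk (FG.nat (n + 1)) = mk (FG.nat n) + mk (FG.nat 1) := by
  rw [← mk_add]
  refine mk_eq_of_equiv (finSumFinEquiv (m := n) (n := 1)).symm ?_
  intro a b
  have h : ((⊥ : SimpleGraph (Fin n)) ⊕g (⊥ : SimpleGraph (Fin 1))) = ⊥ := by
    ext (u | u) (v | v) <;> simp
  simp only [FG.nat, FG.add]
  rw [h]
  simp

instance : CommSemiring GS where
  add_assoc := GS.add_assoc'
  zero_add := GS.zero_add'
  add_zero x := by rw [GS.add_comm', GS.zero_add']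
  add_comm := GS.add_comm'
  nsmul := nsmulRec
  mul_assoc := GS.mul_assoc'
  one_mul := GS.one_mul'
  mul_one x := by rw [GS.mul_comm', GS.one_mul']
  mul_comm := GS.mul_comm'
  zero_mul := GS.zero_mul'
  mul_zero x := by rw [GS.mul_comm', GS.zero_mul']
  left_distrib x y z := by
    rw [GS.mul_comm', GS.add_mul', GS.mul_comm' y, GS.mul_comm' z]
  right_distrib := GS.add_mul'
  natCast n := mk (FG.nat n)
  natCast_zero := rfl
  natCast_succ n := nat_succ n
  npow := npowRec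

instance : PartialOrder GS where
  le := Quotient.lift₂ (fun A B => GLe A.G B.G) (by
    rintro A B A' B' ⟨h1, h2⟩ ⟨h3, h4⟩
    exact propext ⟨fun h => (h2.trans h).trans h3, fun h => (h1.trans h).trans h4⟩)
  le_refl x := by
    induction x using ind with | _ A => ?_
    exact GLe.refl _
  le_trans x y z := by
    induction x using ind with | _ A => ?_
    induction y using ind with | _ B => ?_
    induction z using ind with | _ C => ?_
    exact GLe.trans
  le_antisymm x y := by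
    induction x using ind with | _ A => ?_
    induction y using ind with | _ B => ?_
    exact fun h1 h2 => mk_eq h1 h2

theorem mk_le {A B : FG} : mk A ≤ mk B ↔ GLe A.G B.G := Iff.rfl

theorem zero_le' (x : GS) : 0 ≤ x := by
  induction x using ind with | _ A => ?_
  exact ⟨fun a => a.elim0, fun a => a.elim0⟩

theorem nat_le_nat {m n : ℕ} (h : m ≤ n) : mk (FG.nat m) ≤ mk (FG.nat n) :=
  ⟨Fin.castLE h, fun a b hab _ => ⟨fun h1 => hab (Fin.castLE_injective h h1), fun h1 => h1.elim⟩⟩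

theorem add_le_add_right' {x y : GS} (h : x ≤ y) (z : GS) : x + z ≤ y + z := by
  induction x using ind with | _ A => ?_
  induction y using ind with | _ B => ?_
  induction z using ind with | _ C => ?_
  exact GLe.sum h (GLe.refl _)

theorem mul_le_mul_right' {x y : GS} (h : x ≤ y) (z : GS) : x * z ≤ y * z := by
  induction x using ind with | _ A => ?_
  induction y using ind with | _ B => ?_
  induction z using ind with | _ C => ?_
  exact GLe.strong h (GLe.refl _)

instance : IsOrderedRing GS where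
  add_le_add_left x y h z := by
    exact add_le_add_right' h z
  zero_le_one := zero_le' _
  mul_le_mul_of_nonneg_left x _ y z h := by
    have := mul_le_mul_right' h x
    rwa [mul_comm y, mul_comm z] at this
  mul_le_mul_of_nonneg_right x _ y z h := mul_le_mul_right' h x

theorem arch (x : GS) : ∃ n : ℕ, x ≤ n := by
  induction x using ind with | _ A => ?_
  letI := A.fin
  refine ⟨Fintype.card A.V, Fintype.equivFin A.V, fun a b hab _ => ⟨?_, fun h1 => h1.elim⟩⟩
  exact fun h => hab ((Fintype.equivFin A.V).injective h)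

end GS

end Pool.Agent.W_79d227_h9
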