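import Pool.Agent.W_79d227_h9.Pow

/-!
# The class of graphs with independence number at most `k` is directed
-/

set_option autoImplicit false

namespace Pool.Agent.W_79d227_h9

/-- the join: all pairs between the two parts are adjacent -/
def joinG {V W : Type} (G : SimpleGraph V) (H : SimpleGraph W) : SimpleGraph (V ⊕ W) where
  Adj x y := (∃ a b, x = Sum.inl a ∧ y = Sum.inl b ∧ G.Adj a b) ∨
    (∃ a b, x = Sum.inr a ∧ y = Sum.inr b ∧ H.Adj a b) ∨ (x.isLeft ≠ y.isLeft)
  symm := ⟨by
    rintro x y (⟨a, b, rfl, rfl, h⟩ | ⟨a, b, rfl, rfl, h⟩ | h)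
    · exact Or.inl ⟨b, a, rfl, rfl, h.symm⟩
    · exact Or.inr (Or.inl ⟨b, a, rfl, rfl, h.symm⟩)
    · exact Or.inr (Or.inr h.symm)⟩
  loopless := ⟨by
    rintro x (⟨a, b, rfl, h1, h⟩ | ⟨a, b, rfl, h1, h⟩ | h)
    · rw [Sum.inl.inj h1] at h
      exact h.ne rfl
    · rw [Sum.inr.inj h1] at h
      exact h.ne rfl
    · exact h rfl⟩

theorem gle_joinG_left {V W : Type} (G : SimpleGraph V) (H : SimpleGraph W) : GLe G (joinG G H) := by
  refine ⟨Sum.inl, fun a b hab hn => ⟨fun h => hab (Sum.inl.inj h), ?_⟩⟩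
  rintro (⟨c, d, h1, h2, h⟩ | ⟨c, d, h1, h2, h⟩ | h)
  · exact hn (by rw [Sum.inl.inj h1, Sum.inl.inj h2]; exact h)
  · simp at h1
  · exact h rfl

theorem gle_joinG_right {V W : Type} (G : SimpleGraph V) (H : SimpleGraph W) : GLe H (joinG G H) := by
  refine ⟨Sum.inr, fun a b hab hn => ⟨fun h => hab (Sum.inr.inj h), ?_⟩⟩
  rintro (⟨c, d, h1, h2, h⟩ | ⟨c, d, h1, h2, h⟩ | h)
  · simp at h1
  · exact hn (by rw [Sum.inr.inj h1, Sum.inr.inj h2]; exact h)
  · exact h rfl

theorem AlphaLE.mono {V W : Type} {G : SimpleGraph V} {H : SimpleGraph W} {k : ℕ}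
    (h : AlphaLE H k) (hGH : GLe G H) : AlphaLE G k := by
  classical
  obtain ⟨f, hf⟩ := hGH
  intro T hT
  have hinj : Set.InjOn f (T : Set V) := by
    intro a ha b hb hab
    by_contra hne
    exact (hf a b hne (hT a ha b hb hne)).1 hab
  rw [← Finset.card_image_of_injOn hinj]
  apply h
  intro x hx y hy hxy
  obtain ⟨a, ha, rfl⟩ := Finset.mem_image.1 hx
  obtain ⟨b, hb, rfl⟩ := Finset.mem_image.1 hy
  have hne : a ≠ b := fun e => hxy (by rw [e])
  exact (hf a b hne (hT a ha b hb hne)).2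

theorem alphaLE_joinG {V W : Type} {G : SimpleGraph V} {H : SimpleGraph W} {k : ℕ}
    (hG : AlphaLE G k) (hH : AlphaLE H k) : AlphaLE (joinG G H) k := by
  classical
  intro T hT
  rcases T.eq_empty_or_nonempty with rfl | ⟨t, ht⟩
  · simp
  have hside : ∀ x ∈ T, ∀ y ∈ T, x.isLeft = y.isLeft := by
    intro x hx y hy
    by_contra hne
    have hxy : x ≠ y := fun e => hne (by rw [e])
    exact hT x hx y hy hxy (Or.inr (Or.inr hne))
  rcases t with a₀ | b₀
  · have h1 : T = (T.preimage Sum.inl (Sum.inl_injective.injOn)).image Sum.inl := by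
      ext x
      simp only [Finset.mem_image, Finset.mem_preimage]
      constructor
      · intro hx
        have := hside x hx _ ht
        rcases x with a | b
        · exact ⟨a, hx, rfl⟩
        · simp at this
      · rintro ⟨a, ha, rfl⟩
        exact ha
    rw [h1, Finset.card_image_of_injective _ Sum.inl_injective]
    apply hG
    intro a ha b hb hab hadj
    rw [Finset.mem_preimage] at ha hb
    exact hT _ ha _ hb (fun e => hab (Sum.inl.inj e)) (Or.inl ⟨a, b, rfl, rfl, hadj⟩)
  · have h1 : T = (T.preimage Sum.inr (Sum.inr_injective.injOn)).image Sum.inr := by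
      ext x
      simp only [Finset.mem_image, Finset.mem_preimage]
      constructor
      · intro hx
        have := hside x hx _ ht
        rcases x with a | b
        · simp at this
        · exact ⟨b, hx, rfl⟩
      · rintro ⟨a, ha, rfl⟩
        exact ha
    rw [h1, Finset.card_image_of_injective _ Sum.inr_injective]
    apply hH
    intro a ha b hb hab hadj
    rw [Finset.mem_preimage] at ha hb
    exact hT _ ha _ hb (fun e => hab (Sum.inr.inj e)) (Or.inr (Or.inl ⟨a, b, rfl, rfl, hadj⟩))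

/-- the universal spectral point -/
theorem alpha_class (k : ℕ) (C : ℝ) :
    (∀ (V : Type) [Fintype V] (G : SimpleGraph V), AlphaLE G k → ShannonLE G C) ↔
      ∃ φ : ∀ (V : Type) [Fintype V], SimpleGraph V → ℝ, IsSpectral φ ∧
        ∀ (V : Type) [Fintype V] (G : SimpleGraph V), AlphaLE G k → φ V G ≤ C :=
  directed_class (fun _ _ G => AlphaLE G k) (fun V W _ _ G H hG hH =>
    ⟨V ⊕ W, inferInstance, joinG G H, alphaLE_joinG hG hH, gle_joinG_left G H,
      gle_joinG_right G H⟩) C

end Pool.Agent.W_79d227_h9
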