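import Pool.Agent.W_66dfad_zo.Dual2

/-!
# Strassen duality, minimum side, for a directed set
-/

set_option autoImplicit false

namespace Pool.Agent.W_79d227_h9

open Pool.Agent.W_66dfad_zo

variable {S : Type*} [CommSemiring S] [PartialOrder S]

theorem IsSpec.nat' {F : S → ℝ} (hF : IsSpec F) (n : ℕ) : F (n : S) = n := by
  induction n with
  | zero => rw [Nat.cast_zero, hF.zero, Nat.cast_zero]
  | succ n ih => rw [Nat.cast_succ, hF.add, ih, hF.one, Nat.cast_succ]

/-- the spectrum is compact -/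
theorem isCompact_spec (harch : ∀ x : S, ∃ n : ℕ, x ≤ n) (h0 : ∀ x : S, 0 ≤ x) :
    IsCompact {F : S → ℝ | IsSpec F} := by
  choose n hn using harch
  have hK : IsCompact (Set.pi Set.univ fun x : S => Set.Icc (0 : ℝ) (n x)) :=
    isCompact_univ_pi fun x => isCompact_Icc
  refine hK.of_isClosed_subset ?_ ?_
  · have h1 : {F : S → ℝ | IsSpec F} = {F : S → ℝ | F 0 = 0} ∩ ({F : S → ℝ | F 1 = 1} ∩
        ((⋂ x, ⋂ y, {F : S → ℝ | F (x + y) = F x + F y}) ∩
          ((⋂ x, ⋂ y, {F : S → ℝ | F (x * y) = F x * F y}) ∩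
            ⋂ x, ⋂ y, ⋂ (_ : x ≤ y), {F : S → ℝ | F x ≤ F y}))) := by
      ext F
      simp only [Set.mem_inter_iff, Set.mem_iInter, Set.mem_ofPred_eq]
      constructor
      · intro hF
        exact ⟨hF.zero, hF.one, hF.add, hF.mul, fun x y h => hF.mono x y h⟩
      · rintro ⟨h1, h2, h3, h4, h5⟩
        exact ⟨h1, h2, h3, h4, fun x y h => h5 x y h⟩
    rw [h1]
    refine IsClosed.inter ?_ (IsClosed.inter ?_ (IsClosed.inter ?_ (IsClosed.inter ?_ ?_)))
    · exact isClosed_eq (continuous_apply _) continuous_const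
    · exact isClosed_eq (continuous_apply _) continuous_const
    · exact isClosed_iInter fun x => isClosed_iInter fun y =>
        isClosed_eq (continuous_apply _) ((continuous_apply x).add (continuous_apply y))
    · exact isClosed_iInter fun x => isClosed_iInter fun y =>
        isClosed_eq (continuous_apply _) ((continuous_apply x).mul (continuous_apply y))
    · exact isClosed_iInter fun x => isClosed_iInter fun y => isClosed_iInter fun _ =>
        isClosed_le (continuous_apply x) (continuous_apply y)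
  · intro F hF x _
    have hF' : IsSpec F := hF
    refine ⟨?_, ?_⟩
    · rw [← hF'.zero]
      exact hF'.mono _ _ (h0 x)
    · rw [← IsSpec.nat' hF' (n x)]
      exact hF'.mono _ _ (hn x)

section

variable [IsOrderedRing S]

theorem L2' {x m c : S} (h : x + c ≤ m + c) (n : ℕ) :
    (n : S) * x + c ≤ (n : S) * m + c := by
  induction n with
  | zero => simp
  | succ n ih =>
    calc ((n + 1 : ℕ) : S) * x + c = (x + c) + n * x := by push_cast; ring
      _ ≤ (m + c) + n * x := by gcongr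
      _ = (n * x + c) + m := by ring
      _ ≤ (n * m + c) + m := by gcongr
      _ = ((n + 1 : ℕ) : S) * m + c := by push_cast; ring

theorem L1' (h0 : ∀ x : S, 0 ≤ x) {y : S} (h2 : (2 : S) ≤ y) {C : ℝ}
    (hC : ∀ N r : ℕ, (r : S) ≤ y ^ N → (r : ℝ) ≤ C ^ N)
    {N M a : ℕ} (hN : 1 ≤ N) (h : (M : S) ≤ N * y ^ a) :
    (M : ℝ) / N ≤ C ^ a := by
  have hC2 : (2 : ℝ) ≤ C := by
    have := hC 1 2 (by simpa using h2)
    simpa using this
  have hC0 : (0 : ℝ) < C := by linarith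
  have hNR : (0 : ℝ) < N := by exact_mod_cast hN
  apply le_of_pow_le (C := 2) (pow_pos hC0 a)
  intro j
  set N' := N ^ j with hN'
  set M' := M ^ j with hM'
  set X := y ^ (a * j) with hX
  set c := M' / N' with hc
  have hN'1 : 1 ≤ N' := Nat.one_le_pow _ _ hN
  rcases Nat.eq_zero_or_pos M' with hM0 | hM'1
  · have h1 : ((M : ℝ) / N) ^ j = 0 := by
      rw [div_pow]
      have : ((M ^ j : ℕ) : ℝ) = 0 := by rw [← hM', hM0]; simp
      push_cast at this
      rw [this, zero_div]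
    rw [h1]
    positivity
  have hc1 : c * N' ≤ M' := Nat.div_mul_le_self _ _
  have h1 : (M' : S) ≤ N' * X := by
    have h3 : (M : S) ^ j ≤ ((N : S) * y ^ a) ^ j := pow_le_pow_left₀ (h0 _) h j
    rw [mul_pow, ← pow_mul] at h3
    rw [hN', hM', hX]
    push_cast
    exact h3
  have hcS : (c : S) * N' ≤ (M' : S) := by exact_mod_cast (cast_le' (S := S) hc1)
  have h3 : ∀ i : ℕ, (c : S) ^ i * M' ≤ N' * X ^ (i + 1) := by
    intro i
    induction i with
    | zero => simpa using h1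
    | succ i ih =>
      calc (c : S) ^ (i + 1) * M' = ((c : S) ^ i * M') * c := by ring
        _ ≤ (N' * X ^ (i + 1)) * c := mul_le_mul_of_nonneg_right ih (h0 _)
        _ = (c * N') * X ^ (i + 1) := by ring
        _ ≤ M' * X ^ (i + 1) := mul_le_mul_of_nonneg_right hcS (h0 _)
        _ ≤ (N' * X) * X ^ (i + 1) := mul_le_mul_of_nonneg_right h1 (h0 _)
        _ = N' * X ^ (i + 1 + 1) := by ring
  have h4 : ∀ i : ℕ, ((c ^ i : ℕ) : S) ≤ y ^ (N' + a * j * (i + 1)) := by
    intro i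
    have hone : (1 : S) ≤ M' := by
      have := cast_le' (S := S) hM'1
      simpa using this
    have htwo : (N' : S) ≤ y ^ N' := by
      calc (N' : S) ≤ ((2 ^ N' : ℕ) : S) := cast_le' (Nat.lt_two_pow_self).le
        _ = (2 : S) ^ N' := by push_cast; rfl
        _ ≤ y ^ N' := pow_le_pow_left₀ (h0 _) h2 _
    calc ((c ^ i : ℕ) : S) = (c : S) ^ i * 1 := by push_cast; ring
      _ ≤ (c : S) ^ i * M' := mul_le_mul_of_nonneg_left hone (h0 _)
      _ ≤ N' * X ^ (i + 1) := h3 i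
      _ ≤ y ^ N' * X ^ (i + 1) := mul_le_mul_of_nonneg_right htwo (h0 _)
      _ = y ^ (N' + a * j * (i + 1)) := by rw [hX, ← pow_mul, ← pow_add]
  have h5 : (c : ℝ) ≤ C ^ (a * j) := by
    apply le_of_pow_le (C := C ^ (N' + a * j)) (pow_pos hC0 _)
    intro i
    have h6 := hC _ _ (h4 i)
    push_cast at h6
    refine h6.trans (le_of_eq ?_)
    rw [← pow_mul, ← pow_add]
    congr 1
    ring
  have h6 : ((M : ℝ) / N) ^ j ≤ c + 1 := by
    have h7 : M' < (c + 1) * N' := by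
      have h8 := Nat.div_add_mod M' N'
      have h9 := Nat.mod_lt M' (lt_of_lt_of_le Nat.zero_lt_one hN'1)
      rw [hc, Nat.add_mul, one_mul, Nat.mul_comm (M' / N')]
      omega
    rw [div_pow, div_le_iff₀ (pow_pos hNR j)]
    have h8 : ((M' : ℕ) : ℝ) ≤ ((c + 1) * N' : ℕ) := by exact_mod_cast h7.le
    rw [hM', hN'] at h8
    push_cast at h8
    exact h8
  have h7 : (1 : ℝ) ≤ C ^ (a * j) := one_le_pow₀ (by linarith)
  rw [← pow_mul]
  linarith

/-- the base relation, for a directed set -/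
def relD (D : Set S) (p q : ℕ) (x z : S) : Prop :=
  ∃ y ∈ D, ∃ s c : S, x + s * p + c ≤ z + s * (q * y) + c

theorem nontrivD (h0 : ∀ x : S, 0 ≤ x) (harch : ∀ x : S, ∃ n : ℕ, x ≤ n) {D : Set S}
    (h2 : ∀ y ∈ D, (2 : S) ≤ y) {C : ℝ}
    (hC : ∀ y ∈ D, ∀ N r : ℕ, (r : S) ≤ y ^ N → (r : ℝ) ≤ C ^ N)
    {p q : ℕ} (hq : 1 ≤ q) (hp : C * q < p) : ¬ relD D p q 1 0 := by
  rintro ⟨y, hy, s, c, h⟩
  rw [zero_add] at h
  have h2y := h2 y hy
  have hCy := hC y hy
  have hC2 : (2 : ℝ) ≤ C := by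
    have := hCy 1 2 (by simpa using h2y)
    simpa using this
  have hC0 : (0 : ℝ) < C := by linarith
  have hqR : (0 : ℝ) < q := by exact_mod_cast hq
  set A : S := q * y with hA
  have h1y : (1 : S) ≤ y := by
    have h12 : (1 : S) ≤ 2 := by
      have := cast_le' (S := S) (show 1 ≤ 2 by norm_num)
      simpa using this
    exact h12.trans h2y
  have h1 : ∀ k : ℕ, ∃ d : S, s * (p : S) ^ (k + 1) + (p : S) ^ k + d ≤ s * A ^ (k + 1) + d := by
    intro k
    induction k with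
    | zero =>
      refine ⟨c, ?_⟩
      have e1 : s * (p : S) ^ (0 + 1) + (p : S) ^ 0 + c = 1 + s * p + c := by ring
      rw [e1, zero_add, pow_one]
      exact h
    | succ k ih =>
      obtain ⟨d, hd⟩ := ih
      refine ⟨d * p + c * A ^ (k + 1), ?_⟩
      have e1 := mul_le_mul_of_nonneg_right hd (h0 (p : S))
      have e2 := mul_le_mul_of_nonneg_right h (h0 (A ^ (k + 1)))
      calc s * (p : S) ^ (k + 1 + 1) + (p : S) ^ (k + 1) + (d * p + c * A ^ (k + 1))
          = (s * (p : S) ^ (k + 1) + (p : S) ^ k + d) * p + c * A ^ (k + 1) := by ring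
        _ ≤ (s * A ^ (k + 1) + d) * p + c * A ^ (k + 1) := by gcongr
        _ = s * A ^ (k + 1) * p + d * p + c * A ^ (k + 1) + 0 := by ring
        _ ≤ s * A ^ (k + 1) * p + d * p + c * A ^ (k + 1) + A ^ (k + 1) :=
            add_le_add le_rfl (h0 _)
        _ = (1 + s * p + c) * A ^ (k + 1) + d * p := by ring
        _ ≤ (s * A + c) * A ^ (k + 1) + d * p := by gcongr
        _ = s * A ^ (k + 1 + 1) + (d * p + c * A ^ (k + 1)) := by ring
  obtain ⟨S0, hS0⟩ := harch s
  have h3 : ∀ k : ℕ, (p : ℝ) ^ k ≤ C ^ (k + 1) * (S0 * (q : ℝ) ^ (k + 1)) := by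
    intro k
    obtain ⟨d, hd⟩ := h1 k
    obtain ⟨E, hE⟩ := harch d
    have h4 : (p : S) ^ k + d ≤ (S0 : S) * A ^ (k + 1) + d := by
      calc (p : S) ^ k + d = 0 + (p : S) ^ k + d := by ring
        _ ≤ s * (p : S) ^ (k + 1) + (p : S) ^ k + d := by
            gcongr
            exact h0 _
        _ ≤ s * A ^ (k + 1) + d := hd
        _ ≤ (S0 : S) * A ^ (k + 1) + d := by
            have := mul_le_mul_of_nonneg_right hS0 (h0 (A ^ (k + 1)))
            gcongr
    have h5 : ∀ n : ℕ, 1 ≤ n →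
        (p : ℝ) ^ k ≤ C ^ (k + 1) * (S0 * (q : ℝ) ^ (k + 1)) + C ^ (k + 1) * (E + 1) / n := by
      intro n hn
      have hnR : (0 : ℝ) < n := by exact_mod_cast hn
      have h6 := L2' h4 n
      set W : ℕ := n * (S0 * q ^ (k + 1)) + E + 1 with hW
      have h7 : ((n * p ^ k : ℕ) : S) ≤ ((W : ℕ) : S) * y ^ (k + 1) := by
        have e1 : (1 : S) ≤ y ^ (k + 1) := by
          calc (1 : S) = 1 ^ (k + 1) := (one_pow _).symm
            _ ≤ y ^ (k + 1) := pow_le_pow_left₀ (h0 _) h1y _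
        calc ((n * p ^ k : ℕ) : S) = (n : S) * (p : S) ^ k + 0 := by push_cast; ring
          _ ≤ (n : S) * (p : S) ^ k + d := add_le_add le_rfl (h0 _)
          _ ≤ (n : S) * ((S0 : S) * A ^ (k + 1)) + d := h6
          _ ≤ (n : S) * ((S0 : S) * A ^ (k + 1)) + (E : S) := by gcongr
          _ = (n : S) * ((S0 : S) * A ^ (k + 1)) + (E : S) * 1 := by rw [mul_one]
          _ ≤ (n : S) * ((S0 : S) * A ^ (k + 1)) + (E : S) * y ^ (k + 1) :=
              add_le_add le_rfl (mul_le_mul_of_nonneg_left e1 (h0 _))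
          _ = (n : S) * ((S0 : S) * A ^ (k + 1)) + (E : S) * y ^ (k + 1) + 0 := by rw [add_zero]
          _ ≤ (n : S) * ((S0 : S) * A ^ (k + 1)) + (E : S) * y ^ (k + 1) + y ^ (k + 1) :=
              add_le_add le_rfl (h0 _)
          _ = ((W : ℕ) : S) * y ^ (k + 1) := by rw [hA, hW]; push_cast; ring
      have h8 := L1' h0 h2y hCy (N := W) (M := n * p ^ k) (a := k + 1) (by omega) h7
      have hWR : (0 : ℝ) < (W : ℝ) := by rw [hW]; positivity
      rw [div_le_iff₀ hWR, hW] at h8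
      push_cast at h8
      have e2 : C ^ (k + 1) * (S0 * (q : ℝ) ^ (k + 1)) + C ^ (k + 1) * (E + 1) / n =
          (C ^ (k + 1) * (n * (S0 * (q : ℝ) ^ (k + 1)) + E + 1)) / n := by
        field_simp
        ring
      rw [e2, le_div_iff₀ hnR]
      linarith
    apply le_of_forall_eps (C := C ^ (k + 1) * (E + 1)) (by positivity)
    intro e he _
    obtain ⟨n, hn⟩ := exists_nat_gt (1 / e)
    have hn0 : (0 : ℝ) < n := lt_trans (by positivity) hn
    have hn1 : 1 ≤ n := by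
      have : (0 : ℝ) < n := hn0
      exact_mod_cast this
    refine (h5 n hn1).trans ?_
    have : C ^ (k + 1) * ((E : ℝ) + 1) / n ≤ e * (C ^ (k + 1) * (E + 1)) := by
      rw [div_le_iff₀ hn0]
      rw [div_lt_iff₀ he] at hn
      nlinarith [(by positivity : (0 : ℝ) ≤ C ^ (k + 1) * (E + 1))]
    linarith
  have h9 : (p : ℝ) ≤ C * q := by
    apply le_of_pow_le (C := C * (S0 * q)) (by positivity)
    intro k
    refine (h3 k).trans (le_of_eq ?_)
    rw [mul_pow]
    ring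
  linarith

theorem goodD (h0 : ∀ x : S, 0 ≤ x) (harch : ∀ x : S, ∃ n : ℕ, x ≤ n) {D : Set S}
    (hne : D.Nonempty) (hdir : DirectedOn (· ≤ ·) D) (h2 : ∀ y ∈ D, (2 : S) ≤ y) {C : ℝ}
    (hC : ∀ y ∈ D, ∀ N r : ℕ, (r : S) ≤ y ^ N → (r : ℝ) ≤ C ^ N)
    {p q : ℕ} (hq : 1 ≤ q) (hp : C * q < p) : Good (relD D p q) where
  le x z h := by
    obtain ⟨y, hy⟩ := hne
    exact ⟨y, hy, 0, 0, by simpa using h⟩
  trans x z w := by
    rintro ⟨y, hy, s, c, h⟩ ⟨y', hy', t, d, h'⟩
    obtain ⟨u, hu, hyu, hyu'⟩ := hdir y hy y' hy'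
    refine ⟨u, hu, s + t, c + d, ?_⟩
    have e1 : s * (q * y) ≤ s * (q * u) :=
      mul_le_mul_of_nonneg_left (mul_le_mul_of_nonneg_left hyu (h0 _)) (h0 _)
    have e2 : t * (q * y') ≤ t * (q * u) :=
      mul_le_mul_of_nonneg_left (mul_le_mul_of_nonneg_left hyu' (h0 _)) (h0 _)
    calc x + (s + t) * p + (c + d) = (x + s * p + c) + (t * p + d) := by ring
      _ ≤ (z + s * (q * y) + c) + (t * p + d) := by gcongr
      _ = (z + t * p + d) + (s * (q * y) + c) := by ring
      _ ≤ (w + t * (q * y') + d) + (s * (q * y) + c) := by gcongr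
      _ ≤ (w + t * (q * u) + d) + (s * (q * u) + c) := by
          gcongr
      _ = w + (s + t) * (q * u) + (c + d) := by ring
  add x z e := by
    rintro ⟨y, hy, s, c, h⟩
    refine ⟨y, hy, s, c, ?_⟩
    calc x + e + s * p + c = (x + s * p + c) + e := by ring
      _ ≤ (z + s * (q * y) + c) + e := by gcongr
      _ = _ := by ring
  mul x z e := by
    rintro ⟨y, hy, s, c, h⟩
    refine ⟨y, hy, s * e, c * e, ?_⟩
    calc x * e + s * e * p + c * e = (x + s * p + c) * e := by ring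
      _ ≤ (z + s * (q * y) + c) * e := mul_le_mul_of_nonneg_right h (h0 _)
      _ = _ := by ring
  cancel x z e := by
    rintro ⟨y, hy, s, c, h⟩
    refine ⟨y, hy, s, c + e, ?_⟩
    calc x + s * p + (c + e) = x + e + s * p + c := by ring
      _ ≤ z + e + s * (q * y) + c := h
      _ = _ := by ring
  nontriv := nontrivD h0 harch h2 hC hq hp

/-- one rational level -/
theorem exists_spec_level (h0 : ∀ x : S, 0 ≤ x) (harch : ∀ x : S, ∃ n : ℕ, x ≤ n) {D : Set S}
    (hne : D.Nonempty) (hdir : DirectedOn (· ≤ ·) D) (h2 : ∀ y ∈ D, (2 : S) ≤ y) {C : ℝ}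
    (hC : ∀ y ∈ D, ∀ N r : ℕ, (r : S) ≤ y ^ N → (r : ℝ) ≤ C ^ N)
    {p q : ℕ} (hq : 1 ≤ q) (hp : C * q < p) :
    ∃ F : S → ℝ, IsSpec F ∧ ∀ y ∈ D, F y ≤ (p : ℝ) / q := by
  obtain ⟨r, hle, hmax⟩ := exists_maximal (goodD h0 harch hne hdir h2 hC hq hp)
  have hr : Good r := hmax.1
  have htot := total_of_maximal h0 hmax
  refine ⟨Fr r, isSpec_Fr hr h0 harch htot, fun y hy => ?_⟩
  apply Fr_le hq
  apply hle
  exact ⟨y, hy, 1, 0, by rw [one_mul, one_mul, add_comm (q * y : S)]⟩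

/-- the minimum side of the duality, for a directed set -/
theorem exists_spec_min (h0 : ∀ x : S, 0 ≤ x) (harch : ∀ x : S, ∃ n : ℕ, x ≤ n)
    (D : Set S) (hne : D.Nonempty) (hdir : DirectedOn (· ≤ ·) D) (h2 : ∀ y ∈ D, (2 : S) ≤ y) {C : ℝ}
    (hC : ∀ y ∈ D, ∀ N r : ℕ, (r : S) ≤ y ^ N → (r : ℝ) ≤ C ^ N) :
    ∃ F : S → ℝ, IsSpec F ∧ ∀ y ∈ D, F y ≤ C := by
  have hC0 : (0 : ℝ) ≤ C := by
    obtain ⟨y, hy⟩ := hne
    have := hC y hy 1 2 (by simpa using h2 y hy)
    norm_num at this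
    linarith
  -- decreasing levels
  let K : ℕ → Set (S → ℝ) := fun m => {F | IsSpec F} ∩ {F | ∀ y ∈ D, F y ≤ C + 2 / (m + 1)}
  have hKc : ∀ m : ℕ, IsClosed {F : S → ℝ | ∀ y ∈ D, F y ≤ C + 2 / ((m : ℝ) + 1)} := by
    intro m
    have : {F : S → ℝ | ∀ y ∈ D, F y ≤ C + 2 / ((m : ℝ) + 1)} =
        ⋂ y, ⋂ (_ : y ∈ D), {F : S → ℝ | F y ≤ C + 2 / ((m : ℝ) + 1)} := by
      ext F; simp
    rw [this]
    exact isClosed_iInter fun y => isClosed_iInter fun _ =>
      isClosed_le (continuous_apply y) continuous_const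
  have hcomp := isCompact_spec harch h0
  have hKne : ∀ m, (K m).Nonempty := by
    intro m
    set q : ℕ := m + 1 with hq
    set p : ℕ := ⌊C * q⌋₊ + 1 with hp
    have hqR : (0 : ℝ) < q := by rw [hq]; positivity
    have h1 : C * q < p := by
      rw [hp]
      push_cast
      exact Nat.lt_floor_add_one _
    obtain ⟨F, hF, hF2⟩ := exists_spec_level h0 harch hne hdir h2 hC (by omega : 1 ≤ q) h1
    refine ⟨F, hF, fun y hy => (hF2 y hy).trans ?_⟩
    have h3 : (p : ℝ) ≤ C * q + 1 := by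
      rw [hp]
      push_cast
      have := Nat.floor_le (show 0 ≤ C * q by positivity)
      linarith
    have h4 : (q : ℝ) = m + 1 := by rw [hq]; push_cast; ring
    rw [← h4, div_le_iff₀ hqR, add_mul, div_mul_cancel₀ _ hqR.ne']
    linarith
  have hanti : ∀ m, K (m + 1) ⊆ K m := by
    rintro m F ⟨hF1, hF2⟩
    refine ⟨hF1, fun y hy => (hF2 y hy).trans ?_⟩
    have : (2 : ℝ) / (((m + 1 : ℕ) : ℝ) + 1) ≤ 2 / ((m : ℝ) + 1) := by
      apply div_le_div_of_nonneg_left (by norm_num) (by positivity)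
      push_cast
      linarith
    linarith
  obtain ⟨F, hF⟩ := IsCompact.nonempty_iInter_of_sequence_nonempty_isCompact_isClosed K hanti hKne
    (hcomp.inter_right (hKc 0)) (fun m => hcomp.isClosed.inter (hKc m))
  rw [Set.mem_iInter] at hF
  refine ⟨F, (hF 0).1, fun y hy => ?_⟩
  apply le_of_forall_eps (C := 2) zero_le_two
  intro e he _
  obtain ⟨n, hn⟩ := exists_nat_gt (1 / e)
  have hn0 : (0 : ℝ) < n := lt_trans (by positivity) hn
  refine ((hF n).2 y hy).trans ?_
  have : (2 : ℝ) / ((n : ℝ) + 1) ≤ e * 2 := by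
    rw [div_le_iff₀ (by positivity)]
    rw [div_lt_iff₀ he] at hn
    nlinarith
  linarith

end

end Pool.Agent.W_79d227_h9
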