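import Pool.Agent.W_79d227_h9.Graph
import Pool.Agent.W_79d227_h9.Min

/-!
# Powers, spectral points of the semiring and of graphs, directed classes
-/

set_option autoImplicit false

namespace Pool.Agent.W_79d227_h9

open Pool.Agent.W_66dfad_zo

/-- the strong power on words -/
def powG {V : Type} (G : SimpleGraph V) (n : ℕ) : SimpleGraph (Fin n → V) where
  Adj x y := x ≠ y ∧ ∀ i, x i = y i ∨ G.Adj (x i) (y i)
  symm := ⟨fun _ _ h => ⟨h.1.symm, fun i => (h.2 i).imp Eq.symm fun h => h.symm⟩⟩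
  loopless := ⟨fun _ h => h.1 rfl⟩

theorem not_powG_adj {V : Type} {G : SimpleGraph V} {n : ℕ} {x y : Fin n → V} :
    (x ≠ y ∧ ¬ (powG G n).Adj x y) ↔ ∃ i, x i ≠ y i ∧ ¬ G.Adj (x i) (y i) := by
  constructor
  · rintro ⟨h1, h2⟩
    by_contra hcon
    push Not at hcon
    apply h2
    refine ⟨h1, fun i => ?_⟩
    by_cases h : x i = y i
    · exact Or.inl h
    · exact Or.inr (hcon i h)
  · rintro ⟨i, h1, h2⟩
    exact ⟨fun e => h1 (by rw [e]), fun e => (e.2 i).elim h1 h2⟩

theorem powG_zero {V : Type} (G : SimpleGraph V) :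
    GLe (powG G 0) (⊥ : SimpleGraph (Fin 1)) ∧ GLe (⊥ : SimpleGraph (Fin 1)) (powG G 0) := by
  refine ⟨⟨fun _ => 0, ?_⟩, ⟨fun _ => Fin.elim0, ?_⟩⟩
  · intro a b hab
    exact absurd (Subsingleton.elim a b) hab
  · intro a b hab
    exact absurd (Subsingleton.elim a b) hab

theorem powG_succ {V : Type} (G : SimpleGraph V) (n : ℕ) :
    GLe (powG G (n + 1)) (strong G (powG G n)) ∧ GLe (strong G (powG G n)) (powG G (n + 1)) := by
  constructor
  · refine ⟨fun x => (x 0, fun i => x i.succ), fun x y hxy hn => not_strong_adj' ?_⟩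
    obtain ⟨i, hi⟩ := not_powG_adj.1 ⟨hxy, hn⟩
    induction i using Fin.cases with
    | zero => exact Or.inl hi
    | succ i => exact Or.inr (not_powG_adj.2 ⟨i, hi⟩)
  · refine ⟨fun x => Fin.cons x.1 x.2, fun x y hxy hn => not_powG_adj.2 ?_⟩
    rcases not_strong_adj hxy hn with h | h
    · exact ⟨0, by simpa using h⟩
    · obtain ⟨i, hi⟩ := not_powG_adj.1 h
      exact ⟨i.succ, by simpa using hi⟩

/-- independent sets of the powers, as cohomomorphisms -/
theorem bot_le_powG {V : Type} {G : SimpleGraph V} {n : ℕ} (S : Finset (Fin n → V))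
    (h : ∀ x ∈ S, ∀ y ∈ S, x ≠ y → ∃ i : Fin n, x i ≠ y i ∧ ¬ G.Adj (x i) (y i)) :
    GLe (⊥ : SimpleGraph (Fin S.card)) (powG G n) := by
  refine ⟨fun j => (S.equivFin.symm j : Fin n → V), fun a b hab _ => not_powG_adj.2 ?_⟩
  refine h _ (S.equivFin.symm a).2 _ (S.equivFin.symm b).2 ?_
  intro e
  exact hab (S.equivFin.symm.injective (Subtype.ext e))

theorem exists_of_bot_le {V : Type} {G : SimpleGraph V} {n r : ℕ}
    (h : GLe (⊥ : SimpleGraph (Fin r)) (powG G n)) :
    ∃ S : Finset (Fin n → V), S.card = r ∧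
      ∀ x ∈ S, ∀ y ∈ S, x ≠ y → ∃ i : Fin n, x i ≠ y i ∧ ¬ G.Adj (x i) (y i) := by
  classical
  obtain ⟨f, hf⟩ := h
  have hinj : Function.Injective f := by
    intro a b hab
    by_contra hne
    exact (hf a b hne (fun h => h.elim)).1 hab
  refine ⟨Finset.univ.image f, ?_, ?_⟩
  · rw [Finset.card_image_of_injective _ hinj]
    simp
  · intro x hx y hy hxy
    obtain ⟨a, -, rfl⟩ := Finset.mem_image.1 hx
    obtain ⟨b, -, rfl⟩ := Finset.mem_image.1 hy
    have hab : a ≠ b := fun e => hxy (by rw [e])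
    exact not_powG_adj.1 (hf a b hab (fun h => h.elim))

/-- the class of a graph -/
def cls {V : Type} [Fintype V] (G : SimpleGraph V) : GS := GS.mk (mkG G)

theorem cls_le {V W : Type} [Fintype V] [Fintype W] {G : SimpleGraph V} {H : SimpleGraph W} :
    cls G ≤ cls H ↔ GLe G H := Iff.rfl

theorem cls_eq {V W : Type} [Fintype V] [Fintype W] {G : SimpleGraph V} {H : SimpleGraph W}
    (h : GLe G H ∧ GLe H G) : cls G = cls H := le_antisymm h.1 h.2

theorem cls_sum {V W : Type} [Fintype V] [Fintype W] (G : SimpleGraph V) (H : SimpleGraph W) :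
    cls (G ⊕g H) = cls G + cls H := rfl

theorem cls_strong {V W : Type} [Fintype V] [Fintype W] (G : SimpleGraph V) (H : SimpleGraph W) :
    cls (strong G H) = cls G * cls H := rfl

theorem cls_bot (n : ℕ) : cls (⊥ : SimpleGraph (Fin n)) = (n : GS) := rfl

theorem cls_powG {V : Type} [Fintype V] (G : SimpleGraph V) (n : ℕ) :
    cls (powG G n) = cls G ^ n := by
  classical
  induction n with
  | zero =>
    rw [pow_zero]
    exact (cls_eq (powG_zero G)).trans (by rw [cls_bot, Nat.cast_one])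
  | succ n ih => rw [pow_succ', ← ih, ← cls_strong, cls_eq (powG_succ G n)]

theorem nat_le_cls_pow {V : Type} [Fintype V] {G : SimpleGraph V} {C : ℝ} (h : ShannonLE G C)
    (N r : ℕ) (hr : (r : GS) ≤ cls G ^ N) : (r : ℝ) ≤ C ^ N := by
  classical
  rw [← cls_powG, ← cls_bot, cls_le] at hr
  obtain ⟨S, hS, hS2⟩ := exists_of_bot_le hr
  rw [← hS]
  exact h N S hS2

theorem exists_cls (x : GS) : ∃ (V : Type) (_ : Fintype V) (G : SimpleGraph V), x = cls G := by
  induction x using GS.ind with | _ A => ?_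
  exact ⟨A.V, A.fin, A.G, rfl⟩

/-- a spectral point of the semiring is a spectral point of graphs -/
theorem isSpectral_of_isSpec {F : GS → ℝ} (hF : IsSpec F) :
    IsSpectral fun V _ G => F (cls G) where
  edgeless n := IsSpec.nat' hF n
  sum V W _ _ G H := hF.add (cls G) (cls H)
  prod V W _ _ G H := hF.mul (cls G) (cls H)
  mono V W _ _ G H h := hF.mono _ _ h

/-- spectral points bound independent sets of the powers -/
theorem IsSpectral.shannonLE {φ : ∀ (V : Type) [Fintype V], SimpleGraph V → ℝ} (hφ : IsSpectral φ)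
    {V : Type} [Fintype V] {G : SimpleGraph V} {C : ℝ} (h : φ V G ≤ C) : ShannonLE G C := by
  classical
  have h0 : 0 ≤ φ V G := by
    have h1 := hφ.mono (Fin 0) V (⊥ : SimpleGraph (Fin 0)) G ⟨fun a => a.elim0, fun a => a.elim0⟩
    rw [hφ.edgeless] at h1
    simpa using h1
  have hpow : ∀ n : ℕ, φ (Fin n → V) (powG G n) = φ V G ^ n := by
    intro n
    induction n with
    | zero =>
      rw [pow_zero]
      have h1 : φ (Fin 0 → V) (powG G 0) = φ (Fin 1) ⊥ :=
        le_antisymm (hφ.mono _ _ _ _ (powG_zero G).1) (hφ.mono _ _ _ _ (powG_zero G).2)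
      rw [h1, hφ.edgeless]
      simp
    | succ n ih =>
      rw [pow_succ', ← ih, ← hφ.prod]
      exact le_antisymm (hφ.mono _ _ _ _ (powG_succ G n).1) (hφ.mono _ _ _ _ (powG_succ G n).2)
  intro n S hS
  have h1 := hφ.mono _ _ _ _ (bot_le_powG S hS)
  rw [hφ.edgeless, hpow] at h1
  exact h1.trans (pow_le_pow_left₀ h0 h n)

theorem ShannonLE.mono {V W : Type} {G : SimpleGraph V} {H : SimpleGraph W} {C : ℝ}
    (h : ShannonLE H C) (hGH : GLe G H) : ShannonLE G C := by
  classical
  obtain ⟨f, hf⟩ := hGH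
  intro n S hS
  have hinj : Set.InjOn (fun x : Fin n → V => fun i => f (x i)) (S : Set (Fin n → V)) := by
    intro x hx y hy hxy
    by_contra hne
    obtain ⟨i, h1, h2⟩ := hS x hx y hy hne
    exact (hf _ _ h1 h2).1 (congrFun hxy i)
  rw [← Finset.card_image_of_injOn hinj]
  apply h
  intro x hx y hy hxy
  obtain ⟨x', hx', rfl⟩ := Finset.mem_image.1 hx
  obtain ⟨y', hy', rfl⟩ := Finset.mem_image.1 hy
  have hne : x' ≠ y' := fun e => hxy (by rw [e])
  obtain ⟨i, h1, h2⟩ := hS x' hx' y' hy' hne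
  exact ⟨i, hf _ _ h1 h2⟩

/-- a graph which is not at least two is at most one -/
theorem le_one_of_not {V : Type} [Fintype V] {G : SimpleGraph V} (h : ¬ (2 : GS) ≤ cls G) :
    cls G ≤ 1 := by
  have h1 : (1 : GS) = cls (⊥ : SimpleGraph (Fin 1)) := by rw [cls_bot, Nat.cast_one]
  rw [h1, cls_le]
  refine ⟨fun _ => 0, fun a b hab hn => ?_⟩
  exfalso
  apply h
  have h2 : (2 : GS) = cls (⊥ : SimpleGraph (Fin 2)) := by rw [cls_bot, Nat.cast_ofNat]
  rw [h2, cls_le]
  refine ⟨fun i => if i = 0 then a else b, fun i j hij _ => ?_⟩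
  fin_cases i <;> fin_cases j
  · simp at hij
  · exact ⟨by simpa using hab, by simpa using hn⟩
  · exact ⟨by simpa using hab.symm, by simpa using fun h => hn h.symm⟩
  · simp at hij

/-- **directed classes** -/
theorem directed_class (P : ∀ (V : Type) [Fintype V], SimpleGraph V → Prop)
    (hdir : ∀ (V W : Type) [Fintype V] [Fintype W] (G : SimpleGraph V) (H : SimpleGraph W),
      P V G → P W H → ∃ (U : Type) (_ : Fintype U) (J : SimpleGraph U), P U J ∧ GLe G J ∧ GLe H J)
    (C : ℝ) :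
    (∀ (V : Type) [Fintype V] (G : SimpleGraph V), P V G → ShannonLE G C) ↔
      ∃ φ : ∀ (V : Type) [Fintype V], SimpleGraph V → ℝ, IsSpectral φ ∧
        ∀ (V : Type) [Fintype V] (G : SimpleGraph V), P V G → φ V G ≤ C := by
  constructor
  · intro h
    by_cases hbig : ∃ (V : Type) (_ : Fintype V) (G : SimpleGraph V), P V G ∧ (2 : GS) ≤ cls G
    · obtain ⟨V₀, i₀, G₀, hP₀, h2₀⟩ := hbig
      obtain ⟨F, hF, hF2⟩ := exists_spec_min (S := GS) GS.zero_le' GS.arch
        {x | ∃ (V : Type) (_ : Fintype V) (G : SimpleGraph V), P V G ∧ GLe G₀ G ∧ x = cls G}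
        ⟨cls G₀, V₀, i₀, G₀, hP₀, GLe.refl _, rfl⟩ (by
          rintro _ ⟨V, i, G, hP, hG, rfl⟩ _ ⟨W, j, H, hP', hH, rfl⟩
          obtain ⟨U, k, J, hPJ, h1, h2⟩ := hdir V W G H hP hP'
          exact ⟨cls J, ⟨U, k, J, hPJ, hG.trans h1, rfl⟩, h1, h2⟩) (by
          rintro _ ⟨V, i, G, hP, hG, rfl⟩
          exact h2₀.trans hG) (C := C) (by
          rintro _ ⟨V, i, G, hP, hG, rfl⟩ N r hr
          exact nat_le_cls_pow (h V G hP) N r hr)
      refine ⟨fun V _ G => F (cls G), isSpectral_of_isSpec hF, fun V _ G hP => ?_⟩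
      obtain ⟨U, k, J, hPJ, h1, h2⟩ := hdir V V₀ G G₀ hP hP₀
      exact (hF.mono _ _ h1).trans (hF2 _ ⟨U, k, J, hPJ, h2, rfl⟩)
    · -- every graph of the class is complete
      obtain ⟨F, hF, -⟩ := exists_spec_min (S := GS) GS.zero_le' GS.arch {2} ⟨2, rfl⟩
        (by
          rintro _ rfl _ rfl
          exact ⟨2, rfl, le_rfl, le_rfl⟩) (by
          rintro _ rfl
          exact le_rfl) (C := 2) (by
          rintro _ rfl N r hr
          have h1 : (r : GS) ≤ ((2 ^ N : ℕ) : GS) := by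
            rw [Nat.cast_pow, Nat.cast_ofNat]
            exact hr
          have h2 : GLe (⊥ : SimpleGraph (Fin r)) (⊥ : SimpleGraph (Fin (2 ^ N))) := h1
          obtain ⟨f, hf⟩ := h2
          have hinj : Function.Injective f := by
            intro a b hab
            by_contra hne
            exact (hf a b hne (fun h => h.elim)).1 hab
          have := Fintype.card_le_of_injective f hinj
          simp only [Fintype.card_fin] at this
          exact_mod_cast this)
      refine ⟨fun V _ G => F (cls G), isSpectral_of_isSpec hF, fun V _ G hP => ?_⟩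
      have h1 : cls G ≤ 1 := le_one_of_not fun h2 => hbig ⟨V, _, G, hP, h2⟩
      rcases isEmpty_or_nonempty V with hV | hV
      · have h2 : cls G ≤ 0 := by
          have h3 : (0 : GS) = cls (⊥ : SimpleGraph (Fin 0)) := by rw [cls_bot, Nat.cast_zero]
          rw [h3, cls_le]
          exact ⟨fun a => hV.elim a, fun a => hV.elim a⟩
        have h4 : F (cls G) ≤ 0 := by
          rw [← hF.zero]
          exact hF.mono _ _ h2
        have h5 := h V G hP 1 ∅ (by simp)
        simp only [Finset.card_empty, Nat.cast_zero, pow_one] at h5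
        exact h4.trans h5
      · have h4 : F (cls G) ≤ 1 := by
          rw [← hF.one]
          exact hF.mono _ _ h1
        obtain ⟨v⟩ := hV
        have h5 := h V G hP 1 {fun _ => v} (by simp)
        simp only [Finset.card_singleton, Nat.cast_one, pow_one] at h5
        exact h4.trans h5
  · rintro ⟨φ, hφ, h⟩ V _ G hP
    exact hφ.shannonLE (h V G hP)

end Pool.Agent.W_79d227_h9
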