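import Pool.Agent.W_79d227_h9.Union
import Pool.Agent.W_79d227_h9.Join

/-!
# Submultiplicative bounds which are bounded on a class are close to the fractional packing number
-/

set_option autoImplicit false

namespace Pool.Agent.W_79d227_h9

open Pool.Agent.W_66dfad_zo

/-- a submultiplicative upper bound for the independence number -/
structure SubmultBound (f : ∀ (V : Type) [Fintype V], SimpleGraph V → ℝ) : Prop where
  ge_alpha : ∀ (V : Type) [Fintype V] (G : SimpleGraph V) (T : Finset V),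
    (∀ a ∈ T, ∀ b ∈ T, a ≠ b → ¬ G.Adj a b) → (T.card : ℝ) ≤ f V G
  submul : ∀ (V W : Type) [Fintype V] [Fintype W] (G : SimpleGraph V) (H : SimpleGraph W),
    f (V × W) (strong G H) ≤ f V G * f W H

variable {f : ∀ (V : Type) [Fintype V], SimpleGraph V → ℝ}

theorem SubmultBound.nonneg (hf : SubmultBound f) (V : Type) [Fintype V] (G : SimpleGraph V) :
    0 ≤ f V G := by
  simpa using hf.ge_alpha V G ∅ (by simp)

theorem SubmultBound.one_le (hf : SubmultBound f) (V : Type) [Fintype V] (G : SimpleGraph V)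
    (v : V) : 1 ≤ f V G := by
  simpa using hf.ge_alpha V G {v} (by simp)

theorem SubmultBound.of_bot (hf : SubmultBound f) {V : Type} [Fintype V] {G : SimpleGraph V}
    {N : ℕ} (h : GLe (⊥ : SimpleGraph (Fin N)) G) : (N : ℝ) ≤ f V G := by
  classical
  obtain ⟨g, hg⟩ := h
  have hinj : Function.Injective g := by
    intro a b hab
    by_contra hne
    exact (hg a b hne (fun h => h.elim)).1 hab
  have := hf.ge_alpha V G (Finset.univ.image g) (by
    intro x hx y hy hxy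
    obtain ⟨a, -, rfl⟩ := Finset.mem_image.1 hx
    obtain ⟨b, -, rfl⟩ := Finset.mem_image.1 hy
    have hab : a ≠ b := fun e => hxy (by rw [e])
    exact (hg a b hab (fun h => h.elim)).2)
  rw [Finset.card_image_of_injective _ hinj] at this
  simpa using this

theorem SubmultBound.prod_pow (hf : SubmultBound f) {A B : Type} [Fintype A] [Fintype B]
    (H₀ : SimpleGraph A) (H₁ : SimpleGraph B) (n : ℕ) :
    ∃ (U : Type) (_ : Fintype U) (P : SimpleGraph U), cls P = cls H₀ * cls H₁ ^ n ∧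
      f U P ≤ f A H₀ * f B H₁ ^ n := by
  induction n with
  | zero => exact ⟨A, inferInstance, H₀, by simp, by simp⟩
  | succ n ih =>
    obtain ⟨U, i, P, h1, h2⟩ := ih
    refine ⟨U × B, inferInstance, strong P H₁, ?_, ?_⟩
    · rw [cls_strong, h1, pow_succ, mul_assoc]
    · refine (hf.submul U B P H₁).trans ?_
      rw [pow_succ, ← mul_assoc]
      exact mul_le_mul_of_nonneg_right h2 (hf.nonneg B H₁)

/-- the basic inequality -/
theorem SubmultBound.le_of_aux (hf : SubmultBound f) {V A B : Type} [Fintype V] [Fintype A]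
    [Fintype B] {G : SimpleGraph V} {N n : ℕ} {G₀ : SimpleGraph (Fin N)}
    (h : GLe (⊥ : SimpleGraph (Fin N)) (strong G₀ (powG G n)))
    {H₀ : SimpleGraph A} {H₁ : SimpleGraph B} (h0 : GLe G₀ H₀) (h1 : GLe G H₁) :
    (N : ℝ) ≤ f A H₀ * f B H₁ ^ n := by
  classical
  obtain ⟨U, i, P, hP1, hP2⟩ := hf.prod_pow H₀ H₁ n
  refine le_trans (hf.of_bot (G := P) ?_) hP2
  have e1 : ((N : ℕ) : GS) ≤ cls G₀ * cls G ^ n := by
    rw [← cls_powG, ← cls_strong, ← cls_bot, cls_le]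
    exact h
  have e2 : cls G₀ * cls G ^ n ≤ cls H₀ * cls H₁ ^ n := by
    have a1 : cls G₀ ≤ cls H₀ := cls_le.2 h0
    have a2 : cls G ^ n ≤ cls H₁ ^ n := pow_le_pow_left₀ (GS.zero_le' _) (cls_le.2 h1) n
    exact mul_le_mul a1 a2 (GS.zero_le' _) (GS.zero_le' _)
  have e3 : ((N : ℕ) : GS) ≤ cls P := by
    rw [hP1]
    exact e1.trans e2
  rw [← cls_bot, cls_le] at e3
  exact e3

/-- **rigidity**, in the strong form -/
theorem SubmultBound.rigid_strong (hf : SubmultBound f) {k : ℕ} {Bd : ℝ}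
    (hb : ∀ (W : Type) [Fintype W] (G' : SimpleGraph W), AlphaLE G' k →
      ∃ (A : Type) (_ : Fintype A) (H : SimpleGraph A), GLe G' H ∧ f A H ≤ Bd)
    {V B : Type} [Fintype V] [Fintype B] (G : SimpleGraph V) (x : V → ℝ) (hx : ∀ v, 0 ≤ x v)
    (hQ : ∀ Q : Finset V, (∀ a ∈ Q, ∀ b ∈ Q, a ≠ b → G.Adj a b) → ∑ v ∈ Q, x v ≤ 1)
    {H₁ : SimpleGraph B} (h1 : GLe G H₁) :
    (∑ v, x v) ^ (k + 1) ≤ 2 ^ Fintype.card V * f B H₁ ^ (k + 1) := by
  classical
  have hy0 := hf.nonneg B H₁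
  rcases (Finset.sum_nonneg fun v (_ : v ∈ Finset.univ) => hx v).eq_or_lt with hX0 | hX
  · rw [← hX0, zero_pow (by omega)]
    positivity
  set X := ∑ v, x v with hXdef
  set y := f B H₁ with hy
  have hne : Nonempty V := by
    by_contra hV
    rw [not_nonempty_iff] at hV
    rw [hXdef, Finset.univ_eq_empty, Finset.sum_empty] at hX
    exact lt_irrefl _ hX
  have hy1 : 1 ≤ y := by
    obtain ⟨v⟩ := hne
    obtain ⟨g, -⟩ := h1
    exact hf.one_le B H₁ (g v)
  by_contra hcon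
  rw [not_le] at hcon
  set K := k + 1 with hK
  set t := Fintype.card V with ht
  set c : ℝ := ((2 : ℝ) ^ t) ^ ((K : ℝ)⁻¹) with hc
  have hcK : c ^ K = 2 ^ t := Real.rpow_inv_natCast_pow (by positivity) (by omega)
  have hc0 : 0 < c := by positivity
  set ρ := X / c with hρ
  have hρ0 : 0 < ρ := div_pos hX hc0
  have hρK : ρ ^ K * 2 ^ t = X ^ K := by
    rw [hρ, div_pow, ← hcK, div_mul_cancel₀ _ (pow_pos hc0 K).ne']
  have hρy : y < ρ := by
    apply lt_of_pow_lt_pow_left₀ K hρ0.le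
    have h2t : (0 : ℝ) < 2 ^ t := by positivity
    have h3 : y ^ K * 2 ^ t < ρ ^ K * 2 ^ t := by
      rw [hρK]
      linarith
    exact lt_of_mul_lt_mul_right h3 h2t.le
  have hmain : ∀ n : ℕ, ρ ^ n - 1 ≤ Bd * y ^ n := by
    intro n
    set N := ⌈ρ ^ n⌉₊ - 1 with hN
    have hc1 : 1 ≤ ⌈ρ ^ n⌉₊ := Nat.one_le_ceil_iff.2 (pow_pos hρ0 n)
    have hN1 : (N : ℝ) = ⌈ρ ^ n⌉₊ - 1 := by
      rw [hN]
      push_cast [Nat.cast_sub hc1]
      ring
    have hN2 : (N : ℝ) < ρ ^ n := by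
      have := Nat.ceil_lt_add_one (pow_pos hρ0 n).le
      rw [hN1]
      linarith
    have hN3 : ρ ^ n - 1 ≤ N := by
      have := Nat.le_ceil (ρ ^ n)
      rw [hN1]
      linarith
    have hcond : (N : ℝ) ^ K * 2 ^ (t * n) < X ^ (n * K) := by
      have e1 : X ^ (n * K) = (ρ ^ n) ^ K * 2 ^ (t * n) := by
        rw [mul_comm n K, pow_mul, ← hρK, mul_pow, ← pow_mul, ← pow_mul, ← pow_mul,
          mul_comm K n]
      rw [e1]
      apply mul_lt_mul_of_pos_right _ (by positivity)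
      exact pow_lt_pow_left₀ hN2 (Nat.cast_nonneg N) (by omega)
    obtain ⟨G₀, hG₀, hle⟩ := exists_aux G x hx hQ hX N n K (by omega) hcond
    obtain ⟨A, iA, H₀, hH₀, hH₀'⟩ := hb (Fin N) G₀ (by simpa [hK] using hG₀)
    have h5 := hf.le_of_aux hle hH₀ h1
    calc ρ ^ n - 1 ≤ N := hN3
      _ ≤ f A H₀ * f B H₁ ^ n := h5
      _ ≤ Bd * y ^ n := mul_le_mul_of_nonneg_right hH₀' (pow_nonneg hy0 n)
  have hratio : 1 < ρ / y := (one_lt_div (by linarith)).2 hρy
  obtain ⟨n, hn⟩ := pow_unbounded_of_one_lt (Bd + 1) hratio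
  have h6 := hmain n
  have hyn : (1 : ℝ) ≤ y ^ n := one_le_pow₀ hy1
  rw [div_pow, lt_div_iff₀ (by linarith)] at hn
  nlinarith

/-- **rigidity** -/
theorem SubmultBound.rigid (hf : SubmultBound f) {k : ℕ} {Bd : ℝ}
    (hb : ∀ (W : Type) [Fintype W] (G' : SimpleGraph W), AlphaLE G' k → f W G' ≤ Bd)
    {V : Type} [Fintype V] (G : SimpleGraph V) (x : V → ℝ) (hx : ∀ v, 0 ≤ x v)
    (hQ : ∀ Q : Finset V, (∀ a ∈ Q, ∀ b ∈ Q, a ≠ b → G.Adj a b) → ∑ v ∈ Q, x v ≤ 1) :
    (∑ v, x v) ^ (k + 1) ≤ 2 ^ Fintype.card V * f V G ^ (k + 1) :=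
  hf.rigid_strong (fun W _ G' hG' => ⟨W, inferInstance, G', GLe.refl _, hb W G' hG'⟩) G x hx hQ
    (GLe.refl _)

/-- bounded on every class: at least the fractional packing number -/
theorem SubmultBound.rigid_all (hf : SubmultBound f)
    (hb : ∀ k : ℕ, ∃ Bd : ℝ, ∀ (W : Type) [Fintype W] (G' : SimpleGraph W),
      AlphaLE G' k → f W G' ≤ Bd)
    {V : Type} [Fintype V] (G : SimpleGraph V) (x : V → ℝ) (hx : ∀ v, 0 ≤ x v)
    (hQ : ∀ Q : Finset V, (∀ a ∈ Q, ∀ b ∈ Q, a ≠ b → G.Adj a b) → ∑ v ∈ Q, x v ≤ 1) :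
    ∑ v, x v ≤ f V G := by
  rcases (hf.nonneg V G).eq_or_lt with h0 | h0
  · obtain ⟨Bd, hBd⟩ := hb 0
    have := hf.rigid hBd G x hx hQ
    rw [← h0] at this
    rw [← h0]
    simpa using this
  · apply le_of_pow_le (C := 2 ^ Fintype.card V) h0
    intro j
    rcases j with _ | j
    · simp only [pow_zero, mul_one]
      exact one_le_pow₀ (by norm_num)
    · obtain ⟨Bd, hBd⟩ := hb j
      exact hf.rigid hBd G x hx hQ

end Pool.Agent.W_79d227_h9
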