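import Pool.Agent.W_79d227_h9.Rigid

/-!
# The sharp auxiliary graph (alteration)
-/

set_option autoImplicit false

namespace Pool.Agent.W_79d227_h9

/-- the probability that `k + 1` independent `μ`-random vertices are pairwise equal or adjacent -/
noncomputable def cliqueProb {V : Type} [Fintype V] (H : SimpleGraph V) (μ : V → ℝ) (k : ℕ) : ℝ :=
  open Classical in
  ∑ g : Fin (k + 1) → V, if ∀ i j, g i = g j ∨ H.Adj (g i) (g j) then ∏ i, μ (g i) else 0

section

variable {V : Type} [Fintype V] (H : SimpleGraph V) (μ : V → ℝ)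

/-- pairwise confusable on `A` -/
def ClOn {ι : Type} (A : Finset ι) (h : ι → V) : Prop :=
  ∀ x ∈ A, ∀ y ∈ A, h x = h y ∨ H.Adj (h x) (h y)

theorem sum_prod_eq_one {ι : Type} [Fintype ι] [DecidableEq ι] (hμ1 : ∑ v, μ v = 1) :
    ∑ h : ι → V, ∏ x, μ (h x) = 1 := by
  have := Finset.prod_univ_sum (fun _ : ι => (Finset.univ : Finset V)) (fun _ w => μ w)
  rw [Fintype.piFinset_univ] at this
  rw [← this, hμ1]
  simp

open Classical in
theorem sum_clOn (hμ1 : ∑ v, μ v = 1) {N k : ℕ} (A : Finset (Fin N)) (hA : A.card = k + 1) :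
    ∑ h : Fin N → V, (if ClOn H A h then ∏ x, μ (h x) else 0) = cliqueProb H μ k := by
  -- split the coordinates
  let e := Equiv.piEquivPiSubtypeProd (fun x : Fin N => x ∈ A) (fun _ => V)
  have h1 : ∑ h : Fin N → V, (if ClOn H A h then ∏ x, μ (h x) else 0) =
      ∑ ab : ({x : Fin N // x ∈ A} → V) × ({x : Fin N // x ∉ A} → V),
        (if ∀ i j, ab.1 i = ab.1 j ∨ H.Adj (ab.1 i) (ab.1 j) then
          (∏ x, μ (ab.1 x)) * ∏ x, μ (ab.2 x) else 0) := by
    refine Fintype.sum_equiv e _ _ fun h => ?_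
    have hc : ClOn H A h ↔ ∀ i j, (e h).1 i = (e h).1 j ∨ H.Adj ((e h).1 i) ((e h).1 j) := by
      constructor
      · intro hh i j
        exact hh i.1 i.2 j.1 j.2
      · intro hh x hx y hy
        exact hh ⟨x, hx⟩ ⟨y, hy⟩
    have hp : ∏ x, μ (h x) = (∏ x, μ ((e h).1 x)) * ∏ x, μ ((e h).2 x) := by
      rw [← Finset.prod_mul_prod_compl A (fun x => μ (h x)),
        Finset.prod_subtype A (p := fun x => x ∈ A) (fun x => Iff.rfl) (fun x => μ (h x)),
        Finset.prod_subtype Aᶜ (p := fun x => x ∉ A) (fun x => Finset.mem_compl)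
          (fun x => μ (h x))]
      rfl
    by_cases hh : ClOn H A h
    · rw [if_pos hh, if_pos (hc.1 hh), hp]
    · rw [if_neg hh, if_neg fun h' => hh (hc.2 h')]
  rw [h1, Fintype.sum_prod_type]
  have h2 : ∀ a : {x : Fin N // x ∈ A} → V,
      ∑ b : {x : Fin N // x ∉ A} → V, (if ∀ i j, a i = a j ∨ H.Adj (a i) (a j) then
          (∏ x, μ (a x)) * ∏ x, μ (b x) else 0) =
        if ∀ i j, a i = a j ∨ H.Adj (a i) (a j) then ∏ x, μ (a x) else 0 := by
    intro a
    split_ifs
    · rw [← Finset.mul_sum, sum_prod_eq_one μ hμ1, mul_one]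
    · simp
  simp only [h2]
  -- reindex
  have hcard : Fintype.card {x : Fin N // x ∈ A} = k + 1 := by
    rw [Fintype.card_coe, hA]
  let e2 : {x : Fin N // x ∈ A} ≃ Fin (k + 1) := Fintype.equivFinOfCardEq hcard
  unfold cliqueProb
  refine Fintype.sum_equiv (Equiv.arrowCongr e2 (Equiv.refl V)) _ _ fun a => ?_
  have hval : ∀ i, (Equiv.arrowCongr e2 (Equiv.refl V)) a i = a (e2.symm i) := fun i => rfl
  have hc : (∀ i j, a i = a j ∨ H.Adj (a i) (a j)) ↔
      ∀ i j, (Equiv.arrowCongr e2 (Equiv.refl V)) a i = (Equiv.arrowCongr e2 (Equiv.refl V)) a j ∨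
        H.Adj ((Equiv.arrowCongr e2 (Equiv.refl V)) a i)
          ((Equiv.arrowCongr e2 (Equiv.refl V)) a j) := by
    constructor
    · intro hh i j
      exact hh (e2.symm i) (e2.symm j)
    · intro hh i j
      have := hh (e2 i) (e2 j)
      simpa [hval] using this
  have hp : ∏ x, μ (a x) = ∏ i, μ ((Equiv.arrowCongr e2 (Equiv.refl V)) a i) := by
    refine Fintype.prod_equiv e2 _ _ fun x => ?_
    simp [hval]
  by_cases hh : ∀ i j, a i = a j ∨ H.Adj (a i) (a j)
  · rw [if_pos hh, if_pos (hc.1 hh), hp]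
  · rw [if_neg hh, if_neg fun h' => hh (hc.2 h')]

/-- **the sharp auxiliary graph** -/
theorem exists_aux_sharp (hμ : ∀ v, 0 ≤ μ v) (hμ1 : ∑ v, μ v = 1) (k N n : ℕ)
    (hN : (N : ℝ) ^ k * cliqueProb H μ k ^ n ≤ 1 / 2) :
    ∃ (M : ℕ) (G₀ : SimpleGraph (Fin M)), N ≤ 2 * M ∧ AlphaLE G₀ k ∧
      GLe (⊥ : SimpleGraph (Fin M)) (strong G₀ (powG H n)) := by
  classical
  rcases Nat.eq_zero_or_pos N with hN0 | hN0
  · refine ⟨0, ⊥, by omega, fun T _ => ?_, ⟨fun a => a.elim0, fun a => a.elim0⟩⟩
    simp [Finset.eq_empty_of_isEmpty T]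
  haveI : Nonempty (Fin N) := ⟨⟨0, hN0⟩⟩
  let P : (Fin N → V) → ℝ := fun h => ∏ x, μ (h x)
  have hP : ∀ h, 0 ≤ P h := fun h => Finset.prod_nonneg fun x _ => hμ _
  have hP1 : ∑ h, P h = 1 := sum_prod_eq_one (ι := Fin N) μ hμ1
  let W : (Fin n → (Fin N → V)) → ℝ := fun g => ∏ i, P (g i)
  have hW : ∀ g, 0 ≤ W g := fun g => Finset.prod_nonneg fun i _ => hP _
  have hW1 : ∑ g, W g = 1 := sum_prod_eq_one (ι := Fin n) P hP1
  let bad : (Fin n → (Fin N → V)) → Finset (Finset (Fin N)) := fun g =>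
    ((Finset.univ : Finset (Fin N)).powersetCard (k + 1)).filter fun A => ∀ i, ClOn H A (g i)
  have hexp : ∑ g, W g * ((bad g).card : ℝ) ≤ (N : ℝ) / 2 := by
    have h1 : ∀ g, W g * ((bad g).card : ℝ) =
        ∑ A ∈ (Finset.univ : Finset (Fin N)).powersetCard (k + 1),
          ∏ i, (if ClOn H A (g i) then P (g i) else 0) := by
      intro g
      rw [Finset.card_filter, Nat.cast_sum, Finset.mul_sum]
      refine Finset.sum_congr rfl fun A _ => ?_
      by_cases h : ∀ i, ClOn H A (g i)
      · rw [if_pos h, Nat.cast_one, mul_one]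
        exact Finset.prod_congr rfl fun i _ => by rw [if_pos (h i)]
      · rw [if_neg h, Nat.cast_zero, mul_zero]
        push Not at h
        obtain ⟨i, hi⟩ := h
        exact (Finset.prod_eq_zero (Finset.mem_univ i) (by rw [if_neg hi])).symm
    have h2 : ∀ A ∈ (Finset.univ : Finset (Fin N)).powersetCard (k + 1),
        ∑ g : Fin n → (Fin N → V), ∏ i, (if ClOn H A (g i) then P (g i) else 0) =
          cliqueProb H μ k ^ n := by
      intro A hA
      have e1 := Finset.prod_univ_sum (fun _ : Fin n => (Finset.univ : Finset (Fin N → V)))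
        (fun _ h => if ClOn H A h then P h else 0)
      rw [Fintype.piFinset_univ] at e1
      rw [← e1]
      rw [Finset.prod_const, Finset.card_univ, Fintype.card_fin]
      congr 1
      exact sum_clOn H μ hμ1 A (Finset.mem_powersetCard.1 hA).2
    have hq0 : 0 ≤ cliqueProb H μ k := by
      unfold cliqueProb
      refine Finset.sum_nonneg fun g _ => ?_
      split_ifs
      · exact Finset.prod_nonneg fun i _ => hμ _
      · exact le_rfl
    calc ∑ g, W g * ((bad g).card : ℝ)
        = ∑ g, ∑ A ∈ (Finset.univ : Finset (Fin N)).powersetCard (k + 1),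
          ∏ i, (if ClOn H A (g i) then P (g i) else 0) := Finset.sum_congr rfl fun g _ => h1 g
      _ = ∑ A ∈ (Finset.univ : Finset (Fin N)).powersetCard (k + 1),
          ∑ g : Fin n → (Fin N → V), ∏ i, (if ClOn H A (g i) then P (g i) else 0) :=
            Finset.sum_comm
      _ = ∑ A ∈ (Finset.univ : Finset (Fin N)).powersetCard (k + 1), cliqueProb H μ k ^ n :=
            Finset.sum_congr rfl h2
      _ = (N.choose (k + 1) : ℝ) * cliqueProb H μ k ^ n := by
            rw [Finset.sum_const, Finset.card_powersetCard, Finset.card_univ, Fintype.card_fin,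
              nsmul_eq_mul]
      _ ≤ (N : ℝ) ^ (k + 1) * cliqueProb H μ k ^ n := by
            apply mul_le_mul_of_nonneg_right _ (pow_nonneg hq0 n)
            exact_mod_cast Nat.choose_le_pow N (k + 1)
      _ = (N : ℝ) * ((N : ℝ) ^ k * cliqueProb H μ k ^ n) := by rw [pow_succ]; ring
      _ ≤ (N : ℝ) * (1 / 2) := mul_le_mul_of_nonneg_left hN (Nat.cast_nonneg N)
      _ = (N : ℝ) / 2 := by ring
  -- a good choice
  obtain ⟨g, hg⟩ : ∃ g, ((bad g).card : ℝ) ≤ (N : ℝ) / 2 := by
    by_contra hcon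
    push Not at hcon
    have h1 : (N : ℝ) / 2 < ∑ g, W g * ((bad g).card : ℝ) := by
      have h2 : (N : ℝ) / 2 = ∑ g, W g * ((N : ℝ) / 2) := by rw [← Finset.sum_mul, hW1, one_mul]
      rw [h2]
      apply Finset.sum_lt_sum
      · intro g _
        exact mul_le_mul_of_nonneg_left (hcon g).le (hW g)
      · have h3 : ∃ g, 0 < W g := by
          by_contra h4
          push Not at h4
          have : ∑ g, W g ≤ 0 := Finset.sum_nonpos fun g _ => h4 g
          rw [hW1] at this
          linarith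
        obtain ⟨g, hg⟩ := h3
        exact ⟨g, Finset.mem_univ g, mul_lt_mul_of_pos_left (hcon g) hg⟩
    linarith
  -- removal
  have hne : ∀ A ∈ bad g, A.Nonempty := by
    intro A hA
    rw [← Finset.card_pos, (Finset.mem_powersetCard.1 (Finset.mem_filter.1 hA).1).2]
    omega
  choose! pick hpick using hne
  let Rm : Finset (Fin N) := (bad g).image pick
  let R : Finset (Fin N) := Finset.univ \ Rm
  have hRm : Rm.card ≤ (bad g).card := Finset.card_image_le
  have hRcard : N ≤ 2 * R.card := by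
    have h1 : R.card = N - Rm.card := by
      rw [Finset.card_sdiff_of_subset (Finset.subset_univ _), Finset.card_univ, Fintype.card_fin]
    have h2 : 2 * (bad g).card ≤ N := by
      have : 2 * ((bad g).card : ℝ) ≤ N := by linarith
      exact_mod_cast this
    omega
  let F : Fin R.card → (Fin n → V) := fun x i => g i (R.equivFin.symm x)
  refine ⟨R.card, auxG H F, hRcard, ?_, bot_le_auxG H F⟩
  intro T hT
  by_contra hlt
  have hKT : k + 1 ≤ T.card := by omega
  obtain ⟨A, hAT, hA⟩ := Finset.exists_subset_card_eq hKT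
  let emb : Fin R.card → Fin N := fun x => (R.equivFin.symm x : Fin N)
  have hinj : Function.Injective emb := fun a b h =>
    R.equivFin.symm.injective (Subtype.ext h)
  have hbadmem : A.image emb ∈ bad g := by
    refine Finset.mem_filter.2 ⟨Finset.mem_powersetCard.2 ⟨Finset.subset_univ _, ?_⟩, ?_⟩
    · rw [Finset.card_image_of_injective _ hinj, hA]
    · intro i x hx y hy
      obtain ⟨a, ha, rfl⟩ := Finset.mem_image.1 hx
      obtain ⟨b, hb, rfl⟩ := Finset.mem_image.1 hy
      by_contra hcon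
      push Not at hcon
      have hab : a ≠ b := by
        rintro rfl
        exact hcon.1 rfl
      exact hT a (hAT ha) b (hAT hb) hab ⟨hab, i, hcon.1, hcon.2⟩
  have h1 := hpick _ hbadmem
  obtain ⟨a, -, ha⟩ := Finset.mem_image.1 h1
  have h2 : emb a ∈ R := (R.equivFin.symm a).2
  have h3 : pick (A.image emb) ∈ Rm := Finset.mem_image_of_mem _ hbadmem
  rw [← ha] at h3
  exact (Finset.mem_sdiff.1 h2).2 h3

end

end Pool.Agent.W_79d227_h9
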