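import Pool.Agent.W_79d227_h9.Pow

/-!
# The union bound and the auxiliary graph
-/

set_option autoImplicit false

namespace Pool.Agent.W_79d227_h9

/-- a weighted union bound -/
theorem union_bound {W : Type} [Fintype W] [DecidableEq W] (p : W → ℝ) (hp : ∀ w, 0 ≤ p w)
    (hp1 : ∑ w, p w = 1) (𝓑 : Finset (Finset W)) (b : ℝ)
    (hB : ∀ B ∈ 𝓑, ∑ w ∈ B, p w ≤ b) (N K : ℕ) (h : (N : ℝ) ^ K * (𝓑.card * b ^ K) < 1) :
    ∃ F : Fin N → W, ∀ A : Finset (Fin N), A.card = K → ∀ B ∈ 𝓑, ∃ x ∈ A, F x ∉ B := by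
  classical
  by_contra hcon
  push Not at hcon
  have h1 : (1 : ℝ) = ∑ F : Fin N → W, ∏ x, p (F x) := by
    have := Finset.prod_univ_sum (fun _ : Fin N => (Finset.univ : Finset W)) (fun _ w => p w)
    rw [Fintype.piFinset_univ] at this
    rw [← this, hp1]
    simp
  have h2 : ∀ F : Fin N → W, ∏ x, p (F x) ≤
      ∑ A ∈ (Finset.univ : Finset (Fin N)).powersetCard K, ∑ B ∈ 𝓑,
        ∏ x, (if x ∈ A ∧ F x ∉ B then 0 else p (F x)) := by
    intro F
    obtain ⟨A, hA, B, hBm, hAB⟩ := hcon F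
    have hnn : ∀ (A : Finset (Fin N)) (B : Finset W),
        0 ≤ ∏ x, (if x ∈ A ∧ F x ∉ B then 0 else p (F x)) := by
      intro A B
      apply Finset.prod_nonneg
      intro x _
      split_ifs
      · exact le_rfl
      · exact hp _
    have e1 : ∏ x, p (F x) = ∏ x, (if x ∈ A ∧ F x ∉ B then 0 else p (F x)) := by
      apply Finset.prod_congr rfl
      intro x _
      rw [if_neg]
      rintro ⟨hx, hx2⟩
      exact hx2 (hAB x hx)
    rw [e1]
    calc ∏ x, (if x ∈ A ∧ F x ∉ B then 0 else p (F x))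
        ≤ ∑ B ∈ 𝓑, ∏ x, (if x ∈ A ∧ F x ∉ B then 0 else p (F x)) :=
          Finset.single_le_sum (f := fun B => ∏ x, (if x ∈ A ∧ F x ∉ B then 0 else p (F x)))
            (fun B _ => hnn A B) hBm
      _ ≤ _ := Finset.single_le_sum
            (f := fun A => ∑ B ∈ 𝓑, ∏ x, (if x ∈ A ∧ F x ∉ B then 0 else p (F x)))
            (fun A _ => Finset.sum_nonneg fun B _ => hnn A B)
            (Finset.mem_powersetCard.2 ⟨Finset.subset_univ _, hA⟩)
  have h3 : ∀ (A : Finset (Fin N)) (B : Finset W), A.card = K → B ∈ 𝓑 →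
      ∑ F : Fin N → W, ∏ x, (if x ∈ A ∧ F x ∉ B then 0 else p (F x)) ≤ b ^ K := by
    intro A B hA hBm
    have e1 := Finset.prod_univ_sum (fun _ : Fin N => (Finset.univ : Finset W))
      (fun x w => if x ∈ A ∧ w ∉ B then 0 else p w)
    rw [Fintype.piFinset_univ] at e1
    rw [← e1]
    have e2 : ∀ x : Fin N, ∑ w, (if x ∈ A ∧ w ∉ B then 0 else p w) =
        if x ∈ A then ∑ w ∈ B, p w else 1 := by
      intro x
      by_cases hx : x ∈ A
      · simp only [hx, true_and, if_true]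
        rw [← Finset.sum_filter_add_sum_filter_not Finset.univ (fun w => w ∈ B)]
        have a1 : ∑ w ∈ Finset.univ.filter (fun w => w ∈ B), (if w ∉ B then 0 else p w) =
            ∑ w ∈ B, p w := by
          rw [Finset.filter_mem_eq_inter, Finset.univ_inter]
          exact Finset.sum_congr rfl fun w hw => by simp [hw]
        have a2 : ∑ w ∈ Finset.univ.filter (fun w => w ∉ B), (if w ∉ B then 0 else p w) = 0 := by
          apply Finset.sum_eq_zero
          intro w hw
          have : w ∉ B := (Finset.mem_filter.1 hw).2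
          simp [this]
        rw [a1, a2, add_zero]
      · simp [hx, hp1]
    simp_rw [e2]
    rw [Finset.prod_ite, Finset.prod_const_one, mul_one, Finset.prod_const,
      Finset.filter_mem_eq_inter, Finset.univ_inter, hA]
    exact pow_le_pow_left₀ (Finset.sum_nonneg fun w _ => hp w) (hB B hBm) K
  have h4 : (1 : ℝ) ≤ (N : ℝ) ^ K * (𝓑.card * b ^ K) := by
    calc (1 : ℝ) = ∑ F : Fin N → W, ∏ x, p (F x) := h1
      _ ≤ ∑ F : Fin N → W, ∑ A ∈ (Finset.univ : Finset (Fin N)).powersetCard K, ∑ B ∈ 𝓑,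
            ∏ x, (if x ∈ A ∧ F x ∉ B then 0 else p (F x)) := Finset.sum_le_sum fun F _ => h2 F
      _ = ∑ A ∈ (Finset.univ : Finset (Fin N)).powersetCard K, ∑ B ∈ 𝓑,
            ∑ F : Fin N → W, ∏ x, (if x ∈ A ∧ F x ∉ B then 0 else p (F x)) := by
          rw [Finset.sum_comm]
          refine Finset.sum_congr rfl fun A _ => ?_
          rw [Finset.sum_comm]
      _ ≤ ∑ A ∈ (Finset.univ : Finset (Fin N)).powersetCard K, ∑ B ∈ 𝓑, b ^ K := by
          refine Finset.sum_le_sum fun A hA => Finset.sum_le_sum fun B hBm => ?_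
          exact h3 A B (Finset.mem_powersetCard.1 hA).2 hBm
      _ = (N.choose K : ℝ) * (𝓑.card * b ^ K) := by
          rw [Finset.sum_const, Finset.sum_const, Finset.card_powersetCard, Finset.card_univ,
            Fintype.card_fin, nsmul_eq_mul, nsmul_eq_mul]
      _ ≤ (N : ℝ) ^ K * (𝓑.card * b ^ K) := by
          rcases 𝓑.eq_empty_or_nonempty with h0 | ⟨B, hBm⟩
          · simp [h0]
          · have hb : 0 ≤ b := (Finset.sum_nonneg fun w _ => hp w).trans (hB B hBm)
            apply mul_le_mul_of_nonneg_right _ (by positivity)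
            have : N.choose K ≤ N ^ K := Nat.choose_le_pow N K
            exact_mod_cast this
  linarith

/-- the auxiliary graph: `x ~ y` when some coordinates of the words are distinguishable -/
def auxG {V : Type} (G : SimpleGraph V) {N n : ℕ} (F : Fin N → (Fin n → V)) :
    SimpleGraph (Fin N) where
  Adj x y := x ≠ y ∧ ∃ i, F x i ≠ F y i ∧ ¬ G.Adj (F x i) (F y i)
  symm := ⟨fun _ _ h => ⟨h.1.symm, h.2.imp fun _ h => ⟨h.1.symm, fun h' => h.2 h'.symm⟩⟩⟩
  loopless := ⟨fun _ h => h.1 rfl⟩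

theorem bot_le_auxG {V : Type} (G : SimpleGraph V) {N n : ℕ} (F : Fin N → (Fin n → V)) :
    GLe (⊥ : SimpleGraph (Fin N)) (strong (auxG G F) (powG G n)) := by
  refine ⟨fun x => (x, F x), fun x y hxy _ => not_strong_adj' ?_⟩
  by_cases h : (auxG G F).Adj x y
  · right
    obtain ⟨-, i, hi⟩ := h
    exact not_powG_adj.2 ⟨i, hi⟩
  · exact Or.inl ⟨hxy, h⟩

/-- **the auxiliary graph with small independence number** -/
theorem exists_aux {V : Type} [Fintype V] (G : SimpleGraph V) (x : V → ℝ) (hx : ∀ v, 0 ≤ x v)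
    (hQ : ∀ Q : Finset V, (∀ a ∈ Q, ∀ b ∈ Q, a ≠ b → G.Adj a b) → ∑ v ∈ Q, x v ≤ 1)
    (hX : 0 < ∑ v, x v) (N n K : ℕ) (hK : 1 ≤ K)
    (h : (N : ℝ) ^ K * 2 ^ (Fintype.card V * n) < (∑ v, x v) ^ (n * K)) :
    ∃ G₀ : SimpleGraph (Fin N), AlphaLE G₀ (K - 1) ∧
      GLe (⊥ : SimpleGraph (Fin N)) (strong G₀ (powG G n)) := by
  classical
  set X := ∑ v, x v with hXdef
  let μ : V → ℝ := fun v => x v / X
  let p : (Fin n → V) → ℝ := fun w => ∏ i, μ (w i)
  let cl : Finset (Finset V) := Finset.univ.filter fun Q => ∀ a ∈ Q, ∀ b ∈ Q, a ≠ b → G.Adj a b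
  let 𝓑 : Finset (Finset (Fin n → V)) :=
    (Fintype.piFinset fun _ : Fin n => cl).image fun Q => Fintype.piFinset Q
  have hμ : ∀ v, 0 ≤ μ v := fun v => div_nonneg (hx v) hX.le
  have hp : ∀ w, 0 ≤ p w := fun w => Finset.prod_nonneg fun i _ => hμ _
  have hμ1 : ∑ v, μ v = 1 := by
    rw [← Finset.sum_div, div_self hX.ne']
  have hp1 : ∑ w, p w = 1 := by
    have := Finset.prod_univ_sum (fun _ : Fin n => (Finset.univ : Finset V)) (fun _ w => μ w)
    rw [Fintype.piFinset_univ] at this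
    rw [← this, hμ1]
    simp
  have hB : ∀ B ∈ 𝓑, ∑ w ∈ B, p w ≤ (1 / X) ^ n := by
    intro B hBm
    obtain ⟨Q, hQm, rfl⟩ := Finset.mem_image.1 hBm
    have e1 := Finset.prod_univ_sum Q (fun _ w => μ w)
    rw [← e1]
    calc ∏ i, ∑ j ∈ Q i, μ j ≤ ∏ _i : Fin n, (1 / X) := by
          apply Finset.prod_le_prod
          · intro i _
            exact Finset.sum_nonneg fun j _ => hμ j
          · intro i _
            rw [← Finset.sum_div]
            apply div_le_div_of_nonneg_right _ hX.le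
            exact hQ (Q i) (Finset.mem_filter.1 (Fintype.mem_piFinset.1 hQm i)).2
      _ = (1 / X) ^ n := by simp
  have hcard : (𝓑.card : ℝ) ≤ 2 ^ (Fintype.card V * n) := by
    have h1 : 𝓑.card ≤ (Fintype.piFinset fun _ : Fin n => cl).card := Finset.card_image_le
    have h2 : (Fintype.piFinset fun _ : Fin n => cl).card = cl.card ^ n := by
      simp [Fintype.card_piFinset]
    have h3 : cl.card ≤ 2 ^ Fintype.card V := by
      have := Finset.card_le_univ cl
      simpa using this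
    have h4 : 𝓑.card ≤ 2 ^ (Fintype.card V * n) := by
      rw [pow_mul]
      exact h1.trans (h2.le.trans (Nat.pow_le_pow_left h3 n))
    exact_mod_cast h4
  have hmain : (N : ℝ) ^ K * (𝓑.card * ((1 / X) ^ n) ^ K) < 1 := by
    have e1 : ((1 / X) ^ n) ^ K = 1 / X ^ (n * K) := by
      rw [← pow_mul, one_div, inv_pow, one_div]
    rw [e1]
    have hpos : 0 < X ^ (n * K) := pow_pos hX _
    calc (N : ℝ) ^ K * (𝓑.card * (1 / X ^ (n * K)))
        ≤ (N : ℝ) ^ K * (2 ^ (Fintype.card V * n) * (1 / X ^ (n * K))) := by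
          apply mul_le_mul_of_nonneg_left _ (by positivity)
          exact mul_le_mul_of_nonneg_right hcard (by positivity)
      _ = ((N : ℝ) ^ K * 2 ^ (Fintype.card V * n)) / X ^ (n * K) := by ring
      _ < 1 := by rw [div_lt_one hpos]; exact h
  obtain ⟨F, hF⟩ := union_bound p hp hp1 𝓑 _ hB N K hmain
  refine ⟨auxG G F, ?_, bot_le_auxG G F⟩
  intro T hT
  by_contra hlt
  have hKT : K ≤ T.card := by omega
  obtain ⟨A, hAT, hA⟩ := Finset.exists_subset_card_eq hKT
  let Q : Fin n → Finset V := fun i => A.image fun y => F y i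
  have hQcl : ∀ i, Q i ∈ cl := by
    intro i
    refine Finset.mem_filter.2 ⟨Finset.mem_univ _, ?_⟩
    intro a ha b hb hab
    obtain ⟨y, hy, rfl⟩ := Finset.mem_image.1 ha
    obtain ⟨z, hz, rfl⟩ := Finset.mem_image.1 hb
    by_contra hn
    have hyz : y ≠ z := fun e => hab (by rw [e])
    exact hT y (hAT hy) z (hAT hz) hyz ⟨hyz, i, hab, hn⟩
  obtain ⟨y, hy, hy2⟩ := hF A hA (Fintype.piFinset Q) (Finset.mem_image.2
    ⟨Q, Fintype.mem_piFinset.2 hQcl, rfl⟩)
  apply hy2
  rw [Fintype.mem_piFinset]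
  intro i
  exact Finset.mem_image_of_mem _ hy

end Pool.Agent.W_79d227_h9
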