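import Pool.Agent.W_79d227_h9.Join
import Pool.Agent.W_79d227_h9.Circ

/-!
# One circulant graph on the integers for all graphs with independence number at most `k`
-/

set_option autoImplicit false

namespace Pool.Agent.W_79d227_h9

theorem pow4_mod_le (L x : ℕ) : 4 ^ x % 4 ^ (L + 1) ≤ 4 ^ L := by
  rcases Nat.lt_or_ge x (L + 1) with h | h
  · exact (Nat.mod_le _ _).trans (Nat.pow_le_pow_right (by norm_num) (by omega))
  · obtain ⟨c, rfl⟩ := Nat.exists_eq_add_of_le h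
    rw [pow_add, Nat.mul_mod_right]
    exact Nat.zero_le _

theorem pow4_mod_le' (L x : ℕ) (hx : x ≠ L) : 4 * (4 ^ x % 4 ^ (L + 1)) ≤ 4 ^ L := by
  rcases Nat.lt_or_ge x (L + 1) with h | h
  · have h1 : x + 1 ≤ L := by omega
    calc 4 * (4 ^ x % 4 ^ (L + 1)) ≤ 4 * 4 ^ x := Nat.mul_le_mul_left _ (Nat.mod_le _ _)
      _ = 4 ^ (x + 1) := by ring
      _ ≤ 4 ^ L := Nat.pow_le_pow_right (by norm_num) h1
  · obtain ⟨c, rfl⟩ := Nat.exists_eq_add_of_le h
    rw [pow_add, Nat.mul_mod_right]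
    exact Nat.zero_le _

theorem pow4_B3 {x1 x2 x3 y1 y2 y3 : ℕ}
    (h : 4 ^ x1 + 4 ^ x2 + 4 ^ x3 = 4 ^ y1 + 4 ^ y2 + 4 ^ y3) : y1 = x1 ∨ y1 = x2 ∨ y1 = x3 := by
  by_contra hcon
  push Not at hcon
  obtain ⟨h1, h2, h3⟩ := hcon
  set M := 4 ^ (y1 + 1) with hM
  have hM4 : M = 4 * 4 ^ y1 := by rw [hM]; ring
  have hpos : 0 < 4 ^ y1 := by positivity
  have e1 := pow4_mod_le' y1 x1 (Ne.symm h1)
  have e2 := pow4_mod_le' y1 x2 (Ne.symm h2)
  have e3 := pow4_mod_le' y1 x3 (Ne.symm h3)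
  have f2 := pow4_mod_le y1 y2
  have f3 := pow4_mod_le y1 y3
  rw [← hM] at e1 e2 e3 f2 f3
  have g1 : 4 ^ y1 % M = 4 ^ y1 := Nat.mod_eq_of_lt (by omega)
  have key : (4 ^ x1 % M + 4 ^ x2 % M + 4 ^ x3 % M) ≡ (4 ^ y1 % M + 4 ^ y2 % M + 4 ^ y3 % M) [MOD M] := by
    have a1 : (4 ^ x1 % M + 4 ^ x2 % M + 4 ^ x3 % M) ≡ 4 ^ x1 + 4 ^ x2 + 4 ^ x3 [MOD M] :=
      ((Nat.mod_modEq _ _).add (Nat.mod_modEq _ _)).add (Nat.mod_modEq _ _)
    have a2 : (4 ^ y1 % M + 4 ^ y2 % M + 4 ^ y3 % M) ≡ 4 ^ y1 + 4 ^ y2 + 4 ^ y3 [MOD M] :=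
      ((Nat.mod_modEq _ _).add (Nat.mod_modEq _ _)).add (Nat.mod_modEq _ _)
    rw [h] at a1
    exact a1.trans a2.symm
  have := Nat.ModEq.eq_of_lt_of_lt key (by omega) (by omega)
  omega

/-- all finite graphs with independence number at most `k` -/
abbrev Idx (k : ℕ) : Type := Σ n : ℕ, {G : SimpleGraph (Fin n) // AlphaLE G k}

/-- the vertex set of the universal graph -/
abbrev UV (k : ℕ) : Type := Σ x : Idx k, Fin x.1


/-- the universal graph: the join of all of them -/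
def UG (k : ℕ) : SimpleGraph (UV k) where
  Adj u v := u.1 ≠ v.1 ∨ ∃ (x : Idx k) (a b : Fin x.1), u = ⟨x, a⟩ ∧ v = ⟨x, b⟩ ∧ x.2.1.Adj a b
  symm := ⟨by
    rintro u v (h | ⟨x, a, b, rfl, rfl, h⟩)
    · exact Or.inl h.symm
    · exact Or.inr ⟨x, b, a, rfl, rfl, h.symm⟩⟩
  loopless := ⟨by
    rintro u (h | ⟨x, a, b, h1, h2, h⟩)
    · exact h rfl
    · rw [h1] at h2
      have : a = b := by
        have h3 := (Sigma.mk.inj h2).2
        exact eq_of_heq h3
      rw [this] at h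
      exact h.ne rfl⟩

theorem alphaLE_UG (k : ℕ) : AlphaLE (UG k) k := by
  classical
  intro T hT
  rcases T.eq_empty_or_nonempty with rfl | ⟨t, ht⟩
  · simp
  have hside : ∀ u ∈ T, u.1 = t.1 := by
    intro u hu
    by_contra hne
    have huv : u ≠ t := fun e => hne (by rw [e])
    exact hT u hu t ht huv (Or.inl hne)
  obtain ⟨x, a₀⟩ := t
  have hinj : Function.Injective (fun a : Fin x.1 => (⟨x, a⟩ : UV k)) := by
    intro a b hab
    exact eq_of_heq (Sigma.mk.inj hab).2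
  have h1 : T = (T.preimage (fun a : Fin x.1 => (⟨x, a⟩ : UV k)) hinj.injOn).image
      (fun a : Fin x.1 => (⟨x, a⟩ : UV k)) := by
    ext u
    simp only [Finset.mem_image, Finset.mem_preimage]
    constructor
    · intro hu
      have h2 := hside u hu
      obtain ⟨y, b⟩ := u
      simp only at h2
      subst h2
      exact ⟨b, hu, rfl⟩
    · rintro ⟨a, ha, rfl⟩
      exact ha
  rw [h1, Finset.card_image_of_injective _ hinj]
  apply x.2.2
  intro a ha b hb hab hadj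
  rw [Finset.mem_preimage] at ha hb
  exact hT _ ha _ hb (fun e => hab (hinj e)) (Or.inr ⟨x, a, b, rfl, rfl, hadj⟩)

theorem emb_UG {k : ℕ} {V : Type} [Fintype V] (G : SimpleGraph V) (hG : AlphaLE G k) :
    Nonempty (G ↪g UG k) := by
  classical
  set e := Fintype.equivFin V
  let G' : SimpleGraph (Fin (Fintype.card V)) := G.comap e.symm
  have h1 := gle_of_equiv (G := G) (H := G') e (fun a b => by simp [G'])
  have hG' : AlphaLE G' k := hG.mono h1.2
  let x : Idx k := ⟨Fintype.card V, G', hG'⟩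
  refine ⟨⟨⟨fun v => (⟨x, e v⟩ : UV k), fun a b h => ?_⟩, ?_⟩⟩
  · exact e.injective (eq_of_heq (Sigma.mk.inj h).2)
  · intro a b
    change (UG k).Adj (⟨x, e a⟩ : UV k) (⟨x, e b⟩ : UV k) ↔ G.Adj a b
    constructor
    · rintro (h | ⟨y, c, d, h2, h3, h⟩)
      · exact absurd rfl h
      · have hy : x = y := (Sigma.mk.inj h2).1
        subst hy
        have hc : e a = c := eq_of_heq (Sigma.mk.inj h2).2
        have hd : e b = d := eq_of_heq (Sigma.mk.inj h3).2
        rw [← hc, ← hd] at h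
        have h' : G.Adj (e.symm (e a)) (e.symm (e b)) := h
        simpa using h'
    · intro h
      refine Or.inr ⟨x, e a, e b, rfl, rfl, ?_⟩
      change G.Adj (e.symm (e a)) (e.symm (e b))
      simpa using h

theorem gle_of_emb {V W : Type} {G : SimpleGraph V} {H : SimpleGraph W} (h : Nonempty (G ↪g H)) :
    GLe G H := by
  obtain ⟨f⟩ := h
  refine ⟨f, fun a b hab hn => ⟨fun h => hab (f.injective h), fun h => hn ?_⟩⟩
  exact f.map_rel_iff.1 h

/-- one circulant graph on the integers -/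
theorem exists_universal {k : ℕ} (hk : 1 ≤ k) :
    ∃ s : Set ℤ, AlphaLE (SimpleGraph.circulantGraph s) k ∧
      ∀ (V : Type) [Fintype V] (G : SimpleGraph V), AlphaLE G k →
        Nonempty (G ↪g SimpleGraph.circulantGraph s) := by
  obtain ⟨e, he⟩ := exists_injective_nat (UV k)
  obtain ⟨s, hs1, hs2⟩ := cayley_cover (A := ℤ) (fun v : UV k => (4 : ℤ) ^ e v) (by
    intro x1 x2 x3 y1 y2 y3 h
    have h' : 4 ^ e x1 + 4 ^ e x2 + 4 ^ e x3 = 4 ^ e y1 + 4 ^ e y2 + 4 ^ e y3 := by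
      exact_mod_cast h
    rcases pow4_B3 h' with h1 | h1 | h1
    · exact Or.inl (he h1)
    · exact Or.inr (Or.inl (he h1))
    · exact Or.inr (Or.inr (he h1))) hk (UG k) (alphaLE_UG k)
  refine ⟨s, hs1, fun V _ G hG => ?_⟩
  obtain ⟨f⟩ := emb_UG G hG
  obtain ⟨g⟩ := hs2
  exact ⟨f.trans g⟩

/-- from finite graphs to an arbitrary graph -/
theorem shannonLE_of_finite {A : Type} {H : SimpleGraph A} {k : ℕ} (hH : AlphaLE H k) {C : ℝ}
    (h : ∀ (V : Type) [Fintype V] (G : SimpleGraph V), AlphaLE G k → ShannonLE G C) :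
    ShannonLE H C := by
  classical
  intro n S hS
  let V₀ : Finset A := S.biUnion fun x => Finset.univ.image x
  have hmem : ∀ x ∈ S, ∀ i, x i ∈ V₀ := by
    intro x hx i
    exact Finset.mem_biUnion.2 ⟨x, hx, Finset.mem_image_of_mem _ (Finset.mem_univ i)⟩
  let G₀ : SimpleGraph V₀ := H.comap Subtype.val
  have hle : GLe G₀ H := ⟨Subtype.val, fun a b hab hn => ⟨fun e => hab (Subtype.ext e), hn⟩⟩
  have h1 := h V₀ G₀ (hH.mono hle)
  let f : S → (Fin n → V₀) := fun x i => ⟨x.1 i, hmem x.1 x.2 i⟩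
  have hinj : Function.Injective f := by
    intro x y hxy
    apply Subtype.ext
    funext i
    exact congrArg Subtype.val (congrFun hxy i)
  have h2 := h1 n (Finset.univ.image f) (by
    intro x hx y hy hxy
    obtain ⟨x', -, rfl⟩ := Finset.mem_image.1 hx
    obtain ⟨y', -, rfl⟩ := Finset.mem_image.1 hy
    have hne : x'.1 ≠ y'.1 := fun e => hxy (by rw [Subtype.ext e])
    obtain ⟨i, hi1, hi2⟩ := hS x'.1 x'.2 y'.1 y'.2 hne
    exact ⟨i, fun e => hi1 (congrArg Subtype.val e), hi2⟩)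
  rw [Finset.card_image_of_injective _ hinj] at h2
  simpa using h2

end Pool.Agent.W_79d227_h9
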